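import Pool.Agent.WL76.Defs

/-!
# Components of heavy lines are small
-/

namespace Pool.Agent.WL76

open Finset

variable {V : Type} [Fintype V] [DecidableEq V]

theorem cl_two_eq {F : Finset (Finset V)} (had : AlmostDisjoint F) {A B : Finset V} (hA : A ∈ F)
    (hB : B ∈ F) {p q : V} (hpA : p ∈ A) (hqA : q ∈ A) (hpB : p ∈ B) (hqB : q ∈ B) (hpq : p ≠ q) :
    A = B := by
  by_contra hne
  have h1 := had A hA B hB hne
  have h2 : 1 < (A ∩ B).card :=
    Finset.one_lt_card.2 ⟨p, mem_inter.2 ⟨hpA, hpB⟩, q, mem_inter.2 ⟨hqA, hqB⟩, hpq⟩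
  omega

theorem cl_card_two {F : Finset (Finset V)} (had : AlmostDisjoint F) (C : Finset V) :
    (F.filter fun B => 2 ≤ (B ∩ C).card).card ≤ C.card ^ 2 := by
  classical
  have h : ∀ B ∈ F.filter (fun B => 2 ≤ (B ∩ C).card), ∃ p : V × V,
      p.1 ∈ B ∩ C ∧ p.2 ∈ B ∩ C ∧ p.1 ≠ p.2 := by
    intro B hB
    have h2 := (mem_filter.1 hB).2
    obtain ⟨a, ha, b, hb, hab⟩ := Finset.one_lt_card.1 (show 1 < (B ∩ C).card by omega)
    exact ⟨(a, b), ha, hb, hab⟩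
  rcases (F.filter fun B => 2 ≤ (B ∩ C).card).eq_empty_or_nonempty with h0 | ⟨B0, hB0⟩
  · rw [h0]
    simp
  · obtain ⟨p0, -⟩ := h B0 hB0
    haveI : Nonempty (V × V) := ⟨p0⟩
    choose! f hf using h
    have h1 : (F.filter fun B => 2 ≤ (B ∩ C).card).card ≤ (C ×ˢ C).card := by
      refine Finset.card_le_card_of_injOn f ?_ ?_
      · intro B hB
        have hB' : B ∈ F.filter (fun B => 2 ≤ (B ∩ C).card) := hB
        obtain ⟨h2, h3, -⟩ := hf B hB'
        exact mem_coe.2 (mem_product.2 ⟨(mem_inter.1 h2).2, (mem_inter.1 h3).2⟩)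
      · intro B hB B' hB' he
        have hB1 : B ∈ F.filter (fun B => 2 ≤ (B ∩ C).card) := hB
        have hB2 : B' ∈ F.filter (fun B => 2 ≤ (B ∩ C).card) := hB'
        obtain ⟨h2, h3, h4⟩ := hf B hB1
        obtain ⟨h5, h6, -⟩ := hf B' hB2
        rw [← he] at h5 h6
        exact cl_two_eq had (mem_filter.1 hB1).1 (mem_filter.1 hB2).1 (mem_inter.1 h2).1
          (mem_inter.1 h3).1 (mem_inter.1 h5).1 (mem_inter.1 h6).1 h4
    rwa [card_product, ← sq] at h1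

theorem cl_sub {F : Finset (Finset V)} {U N : Finset V} (hN : N ∈ F)
    (h : N.card < 2 * (N ∩ U).card) : N ⊆ clo F U := by
  intro p hp
  unfold clo
  refine mem_union_right _ ?_
  refine mem_biUnion.2 ⟨N, mem_filter.2 ⟨hN, h⟩, ?_⟩
  exact hp

/-- the key claim -/
theorem cl_key {F : Finset (Finset V)} (had : AlmostDisjoint F) {L t : ℕ}
    {M₁ S : Finset V} (hOn : OnE F L M₁ S) {U : Finset V}
    (h0 : ∀ N ∈ F, N.card ≤ (N ∩ M₁).card + 2 * L → (N ∩ clo F U).Nonempty →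
      N.card < 2 * (N ∩ U).card)
    (h1 : ∀ B ∈ F, (B ∩ clo F U).Nonempty → ∀ 𝒩 : Finset (Finset V), 𝒩 ⊆ F → 𝒩.card = t →
      (∀ N ∈ 𝒩, N.card ≤ (N ∩ M₁).card + 2 * L ∧ (N ∩ B).Nonempty ∧
        2 * (N ∩ U).card ≤ N.card) → False)
    (h2 : ∀ B ∈ F, 2 ≤ (B ∩ clo F U).card → ∀ N ∈ F, N.card ≤ (N ∩ M₁).card + 2 * L →
      (N ∩ B).Nonempty → N.card < 2 * (N ∩ U).card)
    {B : Finset V} (hB : B ∈ heavy F (t + 2) S) (hBU : (B ∩ S ∩ clo F U).Nonempty) :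
    B ∩ S ⊆ clo F U := by
  classical
  obtain ⟨hBF, hBt⟩ := mem_filter.1 hB
  have hBc : (B ∩ clo F U).Nonempty := by
    obtain ⟨p, hp⟩ := hBU
    exact ⟨p, mem_inter.2 ⟨(mem_inter.1 (mem_inter.1 hp).1).1, (mem_inter.1 hp).2⟩⟩
  by_cases hBE : B.card ≤ (B ∩ M₁).card + 2 * L
  · exact (inter_subset_left).trans (cl_sub hBF (h0 B hBF hBE hBc))
  · obtain ⟨p0, hp0⟩ := hBU
    have hex : ∀ p ∈ S, ∃ A, A ∈ F ∧ p ∈ A ∧ A.card ≤ (A ∩ M₁).card + 2 * L := by
      intro p hp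
      obtain ⟨A, hA, hpA, hAc⟩ := hOn p hp
      exact ⟨A, hA, hpA, hAc⟩
    choose! f hfF hfp hfc using hex
    have hne : ∀ p ∈ S, f p ≠ B := by
      intro p hp he
      have := hfc p hp
      rw [he] at this
      exact hBE this
    have hinj : Set.InjOn f (B ∩ S : Finset V) := by
      intro p hp q hq he
      have hp' := mem_inter.1 (mem_coe.1 hp)
      have hq' := mem_inter.1 (mem_coe.1 hq)
      by_contra hpq
      refine hne p hp'.2 ?_
      refine cl_two_eq had (hfF p hp'.2) hBF (hfp p hp'.2) ?_ hp'.1 hq'.1 hpq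
      rw [he]
      exact hfp q hq'.2
    -- the fresh points
    obtain ⟨R, hR⟩ : ∃ R, R = (B ∩ S).filter (fun p => 2 * (f p ∩ U).card ≤ (f p).card) := ⟨_, rfl⟩
    have hRs : R ⊆ B ∩ S := by
      rw [hR]
      exact filter_subset _ _
    have hRt : R.card < t := by
      by_contra hlt
      have h3 : t ≤ (R.image f).card := by
        rw [Finset.card_image_of_injOn (hinj.mono (by exact_mod_cast hRs))]
        omega
      obtain ⟨𝒩, h𝒩, h𝒩t⟩ := Finset.exists_subset_card_eq h3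
      refine h1 B hBF hBc 𝒩 ?_ h𝒩t ?_
      · intro N hN
        obtain ⟨p, hp, rfl⟩ := mem_image.1 (h𝒩 hN)
        exact hfF p (mem_inter.1 (hRs hp)).2
      · intro N hN
        obtain ⟨p, hp, rfl⟩ := mem_image.1 (h𝒩 hN)
        have hp' := mem_inter.1 (hRs hp)
        refine ⟨hfc p hp'.2, ⟨p, mem_inter.2 ⟨hfp p hp'.2, hp'.1⟩⟩, ?_⟩
        rw [hR] at hp
        exact (mem_filter.1 hp).2
    have hG : (B ∩ S) \ R ⊆ B ∩ clo F U := by
      intro p hp
      obtain ⟨hp1, hp2⟩ := mem_sdiff.1 hp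
      have hp' := mem_inter.1 hp1
      refine mem_inter.2 ⟨hp'.1, ?_⟩
      have h3 : (f p).card < 2 * (f p ∩ U).card := by
        by_contra h4
        refine hp2 ?_
        rw [hR]
        exact mem_filter.2 ⟨hp1, by omega⟩
      exact cl_sub (hfF p hp'.2) h3 (hfp p hp'.2)
    have h2c : 2 ≤ (B ∩ clo F U).card := by
      refine le_trans ?_ (card_le_card hG)
      rw [card_sdiff_of_subset hRs]
      omega
    intro p hp
    have hp' := mem_inter.1 hp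
    exact cl_sub (hfF p hp'.2) (h2 B hBF h2c (f p) (hfF p hp'.2) (hfc p hp'.2)
      ⟨p, mem_inter.2 ⟨hfp p hp'.2, hp'.1⟩⟩) (hfp p hp'.2)

/-- components of heavy lines are small -/
theorem cluster {F : Finset (Finset V)} (had : AlmostDisjoint F) {L t : ℕ}
    {M₁ S : Finset V} (hOn : OnE F L M₁ S) {U : Finset V}
    (h0 : ∀ N ∈ F, N.card ≤ (N ∩ M₁).card + 2 * L → (N ∩ clo F U).Nonempty →
      N.card < 2 * (N ∩ U).card)
    (h1 : ∀ B ∈ F, (B ∩ clo F U).Nonempty → ∀ 𝒩 : Finset (Finset V), 𝒩 ⊆ F → 𝒩.card = t →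
      (∀ N ∈ 𝒩, N.card ≤ (N ∩ M₁).card + 2 * L ∧ (N ∩ B).Nonempty ∧
        2 * (N ∩ U).card ≤ N.card) → False)
    (h2 : ∀ B ∈ F, 2 ≤ (B ∩ clo F U).card → ∀ N ∈ F, N.card ≤ (N ∩ M₁).card + 2 * L →
      (N ∩ B).Nonempty → N.card < 2 * (N ∩ U).card)
    {B : Finset V} (hB : B ∈ heavy F (t + 2) S) (hBU : (B ∩ S ∩ U).Nonempty) :
    (comp F (t + 2) S B).card ≤ (clo F U).card ^ 2 := by
  classical
  have hkey : ∀ B', Relation.ReflTransGen (Adj F (t + 2) S) B B' → B' ∈ heavy F (t + 2) S →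
      B' ∩ S ⊆ clo F U := by
    intro B' hr
    induction hr with
    | refl =>
      intro _
      refine cl_key had hOn h0 h1 h2 hB ?_
      obtain ⟨p, hp⟩ := hBU
      exact ⟨p, mem_inter.2 ⟨(mem_inter.1 hp).1, mem_union_left _ (mem_inter.1 hp).2⟩⟩
    | tail _ hadj ih =>
      intro hC
      obtain ⟨hb, hc, p, hp⟩ := hadj
      have hp1 := mem_inter.1 hp
      have hp2 := mem_inter.1 hp1.1
      refine cl_key had hOn h0 h1 h2 hC ⟨p, mem_inter.2 ⟨mem_inter.2 ⟨hp2.2, hp1.2⟩, ?_⟩⟩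
      exact ih hb (mem_inter.2 ⟨hp2.1, hp1.2⟩)
  refine le_trans (card_le_card ?_) (cl_card_two had (clo F U))
  intro B' hB'
  unfold comp at hB'
  obtain ⟨h3, h4⟩ := mem_filter.1 hB'
  obtain ⟨h5, h6⟩ := mem_filter.1 h3
  refine mem_filter.2 ⟨h5, ?_⟩
  have h7 := hkey B' h4 h3
  have h8 : B' ∩ S ⊆ B' ∩ clo F U := fun p hp => mem_inter.2 ⟨(mem_inter.1 hp).1, h7 hp⟩
  have h9 := card_le_card h8
  omega

end Pool.Agent.WL76
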