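import Pool.Agent.WL76.Defs

/-!
# Exploring the lines which are almost full of Maker's points
-/

namespace Pool.Agent.WL76

open Finset

variable {V : Type} [Fintype V] [DecidableEq V]

private theorem T_mono {F : Finset (Finset V)} {L t : ℕ} {M₁ : Finset V} {A₀ : Finset V} {s : ℕ}
    (hno : ∀ k < s, ∀ P ∈ T F L t k, A₀ ⊆ P.1 → P.2 ⊆ M₁ → ∃ Q ∈ next F L t P, Q.2 ⊆ M₁)
    (hsub : ∀ P Q : Finset V × Finset V, Q ∈ next F L t P → P.1 ⊆ Q.1)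
    (h0 : ∃ P ∈ T F L t 0, A₀ ⊆ P.1 ∧ P.2 ⊆ M₁) :
    ∀ k ≤ s, ∃ P ∈ T F L t k, A₀ ⊆ P.1 ∧ P.2 ⊆ M₁ := by
  intro k
  induction k with
  | zero => exact fun _ => h0
  | succ k ih =>
    intro hk
    obtain ⟨P, hP, hA, hM⟩ := ih (by omega)
    obtain ⟨Q, hQ, hQM⟩ := hno k (by omega) P hP hA hM
    exact ⟨Q, mem_biUnion.2 ⟨P, hP, hQ⟩, hA.trans (hsub P Q hQ), hQM⟩

private theorem child_fst {F : Finset (Finset V)} {L : ℕ} {Z : Finset V}
    {P Q : Finset V × Finset V} (h : Q ∈ child F L Z P) : P.1 ⊆ Q.1 := by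
  unfold child at h
  obtain ⟨N, -, h⟩ := mem_biUnion.1 h
  obtain ⟨Y, -, rfl⟩ := mem_image.1 h
  exact subset_union_left

private theorem childs_fst {F : Finset (Finset V)} {L : ℕ} {Z : Finset V} {k : ℕ}
    {P Q : Finset V × Finset V} (h : Q ∈ childs F L Z k P) : P.1 ⊆ Q.1 := by
  induction k generalizing Q with
  | zero =>
    rw [childs, mem_singleton] at h
    rw [h]
  | succ k ih =>
    obtain ⟨R, hR, hQ⟩ := mem_biUnion.1 h
    exact (ih hR).trans (child_fst hQ)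

private theorem next_fst {F : Finset (Finset V)} {L t : ℕ}
    {P Q : Finset V × Finset V} (h : Q ∈ next F L t P) : P.1 ⊆ Q.1 := by
  unfold next at h
  rcases mem_union.1 h with h | h
  · rcases mem_union.1 h with h | h
    · exact child_fst h
    · obtain ⟨B, -, h⟩ := mem_biUnion.1 h
      exact childs_fst h
  · obtain ⟨B, -, h⟩ := mem_biUnion.1 h
    exact child_fst h

theorem explore {F : Finset (Finset V)} {L t s : ℕ} (ht : 1 ≤ t) {M₁ : Finset V}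
    (h : ∀ X ∈ cert F L t s, ¬ X ⊆ M₁) {A₀ : Finset V} (hA₀ : A₀ ∈ F)
    (hE : A₀.card ≤ (A₀ ∩ M₁).card + 2 * L) :
    ∃ k < s, ∃ P ∈ T F L t k, A₀ ⊆ P.1 ∧ P.2 ⊆ M₁ ∧ ∀ Q ∈ next F L t P, ¬ Q.2 ⊆ M₁ := by
  by_contra hcon
  push Not at hcon
  have h0 : ∃ P ∈ T F L t 0, A₀ ⊆ P.1 ∧ P.2 ⊆ M₁ := by
    refine ⟨(A₀, A₀ ∩ M₁), ?_, Subset.refl _, inter_subset_right⟩
    refine mem_biUnion.2 ⟨A₀, hA₀, mem_image.2 ⟨A₀ ∩ M₁, ?_, rfl⟩⟩
    exact mem_filter.2 ⟨mem_powerset.2 inter_subset_left, hE⟩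
  obtain ⟨P, hP, -, hM⟩ := T_mono hcon (fun P Q hQ => next_fst hQ) h0 s le_rfl
  exact h P.2 (mem_image.2 ⟨P, hP, rfl⟩) hM

/-- a line almost full of Maker's points gives a child -/
theorem child_of {F : Finset (Finset V)} {L : ℕ} {M₁ Z : Finset V} {P : Finset V × Finset V}
    (hP : P.2 ⊆ M₁) {N : Finset V} (hN : N ∈ F) (hNE : N.card ≤ (N ∩ M₁).card + 2 * L)
    (hm : (N ∩ Z).Nonempty) (h4 : 4 * (N ∩ P.1).card ≤ 3 * N.card) :
    (P.1 ∪ N, P.2 ∪ ((N \ P.1) ∩ M₁)) ∈ child F L Z P ∧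
      P.2 ∪ ((N \ P.1) ∩ M₁) ⊆ M₁ := by
  refine ⟨?_, union_subset hP inter_subset_right⟩
  refine mem_biUnion.2 ⟨N, mem_filter.2 ⟨hN, hm, h4⟩, mem_image.2 ⟨(N \ P.1) ∩ M₁, ?_, rfl⟩⟩
  refine mem_filter.2 ⟨mem_powerset.2 inter_subset_left, ?_⟩
  have h1 : N \ P.1 ⊆ ((N \ P.1) ∩ M₁) ∪ (N \ M₁) := by
    intro p hp
    by_cases h : p ∈ M₁
    · exact mem_union_left _ (mem_inter.2 ⟨hp, h⟩)
    · exact mem_union_right _ (mem_sdiff.2 ⟨(mem_sdiff.1 hp).1, h⟩)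
  have h2 := (card_le_card h1).trans (card_union_le _ _)
  have h3 := card_inter_add_card_sdiff N M₁
  omega

/-- stuck: no fresh line meets the closure -/
theorem stuck0 {F : Finset (Finset V)} {L t : ℕ} {M₁ : Finset V} {P : Finset V × Finset V}
    (hP : P.2 ⊆ M₁) (hs : ∀ Q ∈ next F L t P, ¬ Q.2 ⊆ M₁) {N : Finset V} (hN : N ∈ F)
    (hNE : N.card ≤ (N ∩ M₁).card + 2 * L) (hm : (N ∩ clo F P.1).Nonempty) :
    N.card < 2 * (N ∩ P.1).card := by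
  by_contra hcon
  push Not at hcon
  obtain ⟨h1, h2⟩ := child_of hP hN hNE hm (by omega)
  exact hs _ (mem_union_left _ (mem_union_left _ h1)) h2

/-- stuck: no fresh line meets a line with two points in the closure -/
theorem stuck2 {F : Finset (Finset V)} {L t : ℕ} {M₁ : Finset V} {P : Finset V × Finset V}
    (hP : P.2 ⊆ M₁) (hs : ∀ Q ∈ next F L t P, ¬ Q.2 ⊆ M₁) {B N : Finset V} (hB : B ∈ F)
    (hB2 : 2 ≤ (B ∩ clo F P.1).card) (hN : N ∈ F)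
    (hNE : N.card ≤ (N ∩ M₁).card + 2 * L) (hm : (N ∩ B).Nonempty) :
    N.card < 2 * (N ∩ P.1).card := by
  by_contra hcon
  push Not at hcon
  obtain ⟨h1, h2⟩ := child_of hP hN hNE hm (by omega)
  exact hs _ (mem_union_right _ (mem_biUnion.2 ⟨B, mem_filter.2 ⟨hB, hB2⟩, h1⟩)) h2

end Pool.Agent.WL76
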