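import Pool.Agent.WL76.Big

/-!
# The start of the game
-/

namespace Pool.Agent.WL76

open Finset

variable {V : Type} [Fintype V] [DecidableEq V]

theorem inv_init {F : Finset (Finset V)} {L t s : ℕ}
    (hs : ∑ X ∈ cert F L t s, (1 / 2 : ℝ) ^ X.card < 1 / 2) (hL : ∀ A ∈ F, L < A.card) :
    Inv F L t s ∅ ∅ := by
  refine ⟨∅, ∅, ∅, by simp, Subset.refl _, by simp, by simp, ?_, ?_, ?_, ?_⟩
  · rw [union_empty]
    exact big_init hs
  · intro p hp
    simp at hp
  · intro A hA _
    right
    simpa using hL A hA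
  · intro B hB
    have := (mem_filter.1 hB).2
    simp at this

end Pool.Agent.WL76
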