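import Pool.Agent.WL76.Defs

/-!
# The parameters
-/

namespace Pool.Agent.WL76

open Finset

private lemma exists_rho (K : ℕ) (hK : 1 ≤ K) : ∃ ρ : ℝ, 1 < ρ ∧ ρ ^ (64 * K) = 2 := by
  have h0 : (0 : ℝ) < ((64 * K : ℕ) : ℝ) := by
    have : 0 < 64 * K := by omega
    exact_mod_cast this
  refine ⟨(2 : ℝ) ^ ((((64 * K : ℕ) : ℝ))⁻¹), ?_, ?_⟩
  · exact Real.one_lt_rpow (by norm_num) (inv_pos.2 h0)
  · rw [← Real.rpow_natCast, ← Real.rpow_mul (by norm_num), inv_mul_cancel₀ h0.ne', Real.rpow_one]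

private lemma exists_s (C ρ : ℝ) (hC : 0 < C) (hρ : 1 < ρ) :
    ∃ s₀ : ℕ, ∀ s ≥ s₀, C * ((s : ℝ) + 1) ^ 20 < ρ ^ s := by
  have h := tendsto_pow_const_div_const_pow_of_one_lt 20 hρ
  have hρ0 : 0 < ρ := by linarith
  have h1 := (h.eventually (gt_mem_nhds (show (0 : ℝ) < 1 / (C * ρ) by positivity)))
  obtain ⟨a, ha⟩ := Filter.eventually_atTop.1 h1
  refine ⟨a, fun s hs => ?_⟩
  have h2 := ha (s + 1) (by omega)
  have h3 : (0 : ℝ) < ρ ^ (s + 1) := by positivity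
  rw [div_lt_div_iff₀ h3 (by positivity)] at h2
  push_cast at h2
  rw [pow_succ ρ s, one_mul] at h2
  have h4 : (C * ((s : ℝ) + 1) ^ 20) * ρ < ρ ^ s * ρ := by linarith only [h2]
  exact lt_of_mul_lt_mul_right h4 hρ0.le

private lemma Wb_le (K m s : ℕ) (hK : 1 ≤ K) (hm : 1 ≤ m) (hs : m + 1 ≤ (s + 1) ^ 2) :
    (Wb K m : ℝ) ≤ (2 ^ 23 * (K : ℝ) ^ 6) * ((s : ℝ) + 1) ^ 10 := by
  have h1 : Wb K m ≤ 2 ^ 23 * K ^ 6 * m ^ 5 := by
    unfold Wb U₀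
    have h2 : K ^ 3 ≤ K ^ 6 := Nat.pow_le_pow_right hK (by norm_num)
    have h3 : m ^ 2 ≤ m ^ 5 := Nat.pow_le_pow_right hm (by norm_num)
    have h4 : 2048 * K ^ 3 * m ^ 2 ≤ 2048 * K ^ 6 * m ^ 5 :=
      Nat.mul_le_mul (Nat.mul_le_mul_left _ h2) h3
    have h5 : (2048 * K ^ 3 * m ^ 2) ^ 2 * m = 2 ^ 22 * (K ^ 6 * m ^ 5) := by ring
    rw [h5]
    have h6 : 2048 * K ^ 6 * m ^ 5 = 2048 * (K ^ 6 * m ^ 5) := by ring
    have h7 : 2 ^ 23 * K ^ 6 * m ^ 5 = 2 ^ 23 * (K ^ 6 * m ^ 5) := by ring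
    rw [h6] at h4
    rw [h7]
    omega
  have h2 : m ^ 5 ≤ (s + 1) ^ 10 := by
    calc m ^ 5 ≤ ((s + 1) ^ 2) ^ 5 := Nat.pow_le_pow_left (by omega) 5
      _ = (s + 1) ^ 10 := by ring
  have h3 : Wb K m ≤ 2 ^ 23 * K ^ 6 * (s + 1) ^ 10 := h1.trans (Nat.mul_le_mul_left _ h2)
  exact_mod_cast h3

theorem params (K : ℕ) (hK : 1 ≤ K) : ∃ m₀ : ℕ, ∀ m ≥ m₀,
    4 ≤ m ∧ 64 * K ^ 2 + 2 * K ≤ m ∧ K * Nat.sqrt m < m ∧ 16 * K + 2 ≤ Nat.sqrt m ∧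
    (2 : ℝ) ^ (16 * K + 3) * ((Wb K m : ℝ) ^ 2) < 2 ^ (Nat.sqrt m) ∧
    (1 + (64 * K ^ 2 * m + 1) * (16 * K)) * m +
      ((1 + (64 * K ^ 2 * m + 1) * (16 * K)) * m) ^ 2 * m ≤ Wb K m ∧
    (2 : ℝ) ^ (K * m ^ 2) * 2 ^ m *
      kn m (Nat.sqrt m) (Wb K m) (16 * K) ((1 / 2 : ℝ) ^ (m / K)) (m / (4 * K)) ^
        (64 * K ^ 2 * m) < 1 / 2 := by
  obtain ⟨ρ, hρ, hρK⟩ := exists_rho K hK
  have hρ0 : 0 < ρ := by linarith
  have hρ1 : 1 ≤ ρ := hρ.le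
  obtain ⟨C₁, hC₁⟩ : ∃ C₁ : ℝ, C₁ = 2 ^ 23 * (K : ℝ) ^ 6 := ⟨_, rfl⟩
  have hKr : (1 : ℝ) ≤ K := by exact_mod_cast hK
  have hC1 : 1 ≤ C₁ := by
    rw [hC₁]
    have : (1 : ℝ) ≤ (K : ℝ) ^ 6 := one_le_pow₀ hKr
    linarith
  obtain ⟨s₀, hs₀⟩ := exists_s (6 * 2 ^ (16 * K + 3) * C₁ ^ 2) ρ (by positivity) hρ
  refine ⟨(max s₀ (16 * K + 2)) ^ 2, fun m hm => ?_⟩
  obtain ⟨s, hs⟩ : ∃ s, s = Nat.sqrt m := ⟨_, rfl⟩
  rw [← hs]
  have hsm : max s₀ (16 * K + 2) ≤ s := by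
    rw [hs, Nat.le_sqrt']
    exact hm
  have hs1 : s₀ ≤ s := (le_max_left _ _).trans hsm
  have hs2 : 16 * K + 2 ≤ s := (le_max_right _ _).trans hsm
  have hsq : s ^ 2 ≤ m := by rw [hs]; exact Nat.sqrt_le' m
  have hsq' : m + 1 ≤ (s + 1) ^ 2 := by rw [hs]; exact Nat.lt_succ_sqrt' m
  have hsm' : s ≤ m := by nlinarith only [hsq, hs2, hK]
  have hm4 : 4 ≤ m := by nlinarith only [hsq, hs2, hK]
  have key := hs₀ s hs1
  -- the closure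
  obtain ⟨W, hW⟩ : ∃ W : ℝ, W = (Wb K m : ℝ) := ⟨_, rfl⟩
  have hWle : W ≤ C₁ * ((s : ℝ) + 1) ^ 10 := by
    rw [hW, hC₁]
    exact Wb_le K m s hK (by omega) hsq'
  have hW1 : 1 ≤ W := by
    rw [hW]
    have : 1 ≤ Wb K m := by
      unfold Wb U₀
      have : 1 ≤ 2048 * K ^ 3 * m ^ 2 := by
        have h1 : 0 < K ^ 3 := by positivity
        have h2 : 0 < m ^ 2 := by positivity
        have : 0 < 2048 * K ^ 3 * m ^ 2 := by positivity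
        exact this
      omega
    exact_mod_cast this
  have hW0 : 0 ≤ W := by linarith
  have hW2 : W ^ 2 ≤ C₁ ^ 2 * ((s : ℝ) + 1) ^ 20 := by
    calc W ^ 2 ≤ (C₁ * ((s : ℝ) + 1) ^ 10) ^ 2 := pow_le_pow_left₀ hW0 hWle 2
      _ = _ := by ring
  have hA : 6 * 2 ^ (16 * K + 3) * W ^ 2 < ρ ^ s := by
    refine lt_of_le_of_lt ?_ key
    have h0 : (0 : ℝ) ≤ 6 * 2 ^ (16 * K + 3) := by positivity
    calc 6 * 2 ^ (16 * K + 3) * W ^ 2 ≤ 6 * 2 ^ (16 * K + 3) * (C₁ ^ 2 * ((s : ℝ) + 1) ^ 20) :=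
          mul_le_mul_of_nonneg_left hW2 h0
      _ = _ := by ring
  have h2pow : (1 : ℝ) ≤ 2 ^ (16 * K + 3) := one_le_pow₀ (by norm_num)
  have hW2' : 6 * W ^ 2 ≤ ρ ^ s := by
    have h0 : 6 * W ^ 2 * 1 ≤ 6 * W ^ 2 * 2 ^ (16 * K + 3) :=
      mul_le_mul_of_nonneg_left h2pow (by positivity)
    linarith only [h0, hA]
  have hρsm : ρ ^ s ≤ ρ ^ m := pow_le_pow_right₀ hρ1 hsm'
  have hB : 4 * ((s : ℝ) + 1) ^ 4 ≤ ρ ^ s := by
    have h1 : ((s : ℝ) + 1) ^ 4 ≤ ((s : ℝ) + 1) ^ 20 :=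
      pow_le_pow_right₀ (by have : (0 : ℝ) ≤ s := Nat.cast_nonneg s
                            linarith) (by norm_num)
    have h2 : (4 : ℝ) ≤ 6 * 2 ^ (16 * K + 3) * C₁ ^ 2 := by
      have h3 : (1 : ℝ) ≤ C₁ ^ 2 := one_le_pow₀ hC1
      have h4 : (1 : ℝ) ≤ 2 ^ (16 * K + 3) * C₁ ^ 2 := one_le_mul_of_one_le_of_one_le h2pow h3
      linarith
    have h5 : (0 : ℝ) ≤ ((s : ℝ) + 1) ^ 4 := by positivity
    have h6 : 4 * ((s : ℝ) + 1) ^ 4 ≤ (6 * 2 ^ (16 * K + 3) * C₁ ^ 2) * ((s : ℝ) + 1) ^ 20 :=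
      mul_le_mul h2 h1 h5 (by linarith)
    exact h6.trans key.le
  have hρ2 : ρ ^ s ≤ 2 ^ s := by
    refine pow_le_pow_left₀ hρ0.le ?_ s
    rw [← hρK]
    exact le_self_pow₀ hρ1 (by omega)
  refine ⟨hm4, ?_, ?_, hs2, ?_, ?_, ?_⟩
  · nlinarith only [hsq, hs2, hK]
  · nlinarith only [hsq, hs2, hK]
  · rw [← hW]
    have h0 : (2 : ℝ) ^ (16 * K + 3) * W ^ 2 ≤ 6 * 2 ^ (16 * K + 3) * W ^ 2 := by
      have : (0 : ℝ) ≤ 2 ^ (16 * K + 3) * W ^ 2 := by positivity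
      linarith
    exact lt_of_le_of_lt h0 (hA.trans_le hρ2)
  · unfold Wb
    have h1 : (1 + (64 * K ^ 2 * m + 1) * (16 * K)) * m ≤ U₀ K m := by
      unfold U₀
      have h2 : (1 + (64 * K ^ 2 * m + 1) * (16 * K)) * m = 1024 * K ^ 3 * m ^ 2 + (16 * K + 1) * m := by
        ring
      rw [h2]
      have h3 : (16 * K + 1) * m ≤ 1024 * K ^ 3 * m ^ 2 := by
        have h4 : 16 * K + 1 ≤ 1024 * K ^ 3 := by
          have : K ≤ K ^ 3 := Nat.le_self_pow (by norm_num) K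
          omega
        have h5 : m ≤ m ^ 2 := Nat.le_self_pow (by norm_num) m
        exact Nat.mul_le_mul h4 h5
      have h6 : 2048 * K ^ 3 * m ^ 2 = 1024 * K ^ 3 * m ^ 2 + 1024 * K ^ 3 * m ^ 2 := by ring
      rw [h6]
      exact Nat.add_le_add_left h3 _
    exact Nat.add_le_add h1 (Nat.mul_le_mul_right _ (Nat.pow_le_pow_left h1 2))
  · -- the sum over the certificates
    obtain ⟨q, hq⟩ : ∃ q, q = m / (4 * K) := ⟨_, rfl⟩
    rw [← hq]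
    have hq1 : m + 1 ≤ 4 * K * (q + 1) := by
      rw [hq]
      exact Nat.lt_mul_div_succ m (by omega)
    have hqK : q ≤ m / K := by
      rw [hq]
      exact Nat.div_le_div_left (by omega) (by omega)
    have hhalf : (1 / 2 : ℝ) ^ q * ρ ^ (16 * m) ≤ 2 := by
      have h1 : ρ ^ (16 * m) ≤ 2 ^ (q + 1) := by
        rw [← hρK, ← pow_mul]
        refine pow_le_pow_right₀ hρ1 ?_
        nlinarith only [hq1]
      have h2 : (1 / 2 : ℝ) ^ q * 2 ^ (q + 1) = 2 := by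
        rw [pow_succ, ← mul_assoc, ← mul_pow]
        norm_num
      calc (1 / 2 : ℝ) ^ q * ρ ^ (16 * m) ≤ (1 / 2 : ℝ) ^ q * 2 ^ (q + 1) :=
            mul_le_mul_of_nonneg_left h1 (by positivity)
        _ = 2 := h2
    have hδ : (1 / 2 : ℝ) ^ (m / K) ≤ (1 / 2 : ℝ) ^ q :=
      pow_le_pow_of_le_one (by norm_num) (by norm_num) hqK
    obtain ⟨κ, hκ⟩ : ∃ κ : ℝ, κ = kc m s (Wb K m) ((1 / 2 : ℝ) ^ (m / K)) q := ⟨_, rfl⟩
    have hκ0 : 0 ≤ κ := by rw [hκ]; unfold kc; positivity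
    have hκle : κ * ρ ^ (16 * m) ≤ ρ ^ (2 * m) := by
      have h1 : κ ≤ 2 ^ (2 * s) * ((m : ℝ) + 1) ^ (2 * s) * (3 * W ^ 2 * (1 / 2 : ℝ) ^ q) := by
        rw [hκ]
        unfold kc
        rw [← hW]
        refine mul_le_mul_of_nonneg_left ?_ (by positivity)
        have h2 : 2 * W * (1 / 2 : ℝ) ^ (m / K) ≤ 2 * W * (1 / 2 : ℝ) ^ q :=
          mul_le_mul_of_nonneg_left hδ (by linarith)
        have h3 : 2 * W * (1 / 2 : ℝ) ^ q ≤ 2 * W ^ 2 * (1 / 2 : ℝ) ^ q := by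
          refine mul_le_mul_of_nonneg_right ?_ (by positivity)
          nlinarith only [hW1]
        linarith only [h2, h3]
      have h4 : (2 : ℝ) ^ (2 * s) * ((m : ℝ) + 1) ^ (2 * s) ≤ ρ ^ m := by
        have h5 : ((m : ℝ) + 1) ≤ ((s : ℝ) + 1) ^ 2 := by exact_mod_cast hsq'
        have h6 : (2 : ℝ) ^ (2 * s) * ((m : ℝ) + 1) ^ (2 * s) = ((2 * ((m : ℝ) + 1)) ^ 2) ^ s := by
          rw [← mul_pow, pow_mul]
        rw [h6]
        have h7 : (2 * ((m : ℝ) + 1)) ^ 2 ≤ ρ ^ s := by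
          refine le_trans ?_ hB
          calc (2 * ((m : ℝ) + 1)) ^ 2 ≤ (2 * ((s : ℝ) + 1) ^ 2) ^ 2 :=
                pow_le_pow_left₀ (by positivity) (by linarith) 2
            _ = 4 * ((s : ℝ) + 1) ^ 4 := by ring
        calc ((2 * ((m : ℝ) + 1)) ^ 2) ^ s ≤ (ρ ^ s) ^ s := pow_le_pow_left₀ (by positivity) h7 s
          _ = ρ ^ (s ^ 2) := by rw [← pow_mul]; ring_nf
          _ ≤ ρ ^ m := pow_le_pow_right₀ hρ1 hsq
      calc κ * ρ ^ (16 * m) ≤ 2 ^ (2 * s) * ((m : ℝ) + 1) ^ (2 * s) *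
            (3 * W ^ 2 * (1 / 2 : ℝ) ^ q) * ρ ^ (16 * m) :=
            mul_le_mul_of_nonneg_right h1 (by positivity)
        _ = (2 ^ (2 * s) * ((m : ℝ) + 1) ^ (2 * s)) * (3 * W ^ 2 * ((1 / 2 : ℝ) ^ q * ρ ^ (16 * m))) := by
            ring
        _ ≤ ρ ^ m * (3 * W ^ 2 * 2) := by
            refine mul_le_mul h4 ?_ (by positivity) (by positivity)
            exact mul_le_mul_of_nonneg_left hhalf (by positivity)
        _ ≤ ρ ^ m * ρ ^ m := by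
            refine mul_le_mul_of_nonneg_left ?_ (by positivity)
            linarith only [hW2', hρsm]
        _ = ρ ^ (2 * m) := by rw [← pow_add]; ring_nf
    have hκ14 : κ ≤ (ρ⁻¹) ^ (14 * m) := by
      have h1 : κ * ρ ^ (14 * m) * ρ ^ (2 * m) ≤ 1 * ρ ^ (2 * m) := by
        have h2 : κ * ρ ^ (14 * m) * ρ ^ (2 * m) = κ * ρ ^ (16 * m) := by
          rw [mul_assoc, ← pow_add]; ring_nf
        rw [h2, one_mul]
        exact hκle
      have h3 : κ * ρ ^ (14 * m) ≤ 1 := le_of_mul_le_mul_right h1 (by positivity)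
      have h4 : (0 : ℝ) < ρ ^ (14 * m) := by positivity
      rw [inv_pow, ← one_div, le_div_iff₀ h4]
      exact h3
    obtain ⟨u, hu⟩ : ∃ u : ℝ, u = ρ⁻¹ := ⟨_, rfl⟩
    rw [← hu] at hκ14
    have hu0 : 0 < u := by rw [hu]; positivity
    have hu1 : u ≤ 1 := by rw [hu]; exact inv_le_one_of_one_le₀ hρ1
    have huρ : u * ρ = 1 := by rw [hu]; exact inv_mul_cancel₀ hρ0.ne'
    have huK : u ^ (64 * K) = 1 / 2 := by
      rw [hu, inv_pow, hρK]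
      norm_num
    have h2m : (2 : ℝ) ^ m * κ ^ (16 * K) ≤ u ^ (14 * m) := by
      have h1 : κ ^ (16 * K) ≤ u ^ (224 * K * m) := by
        calc κ ^ (16 * K) ≤ (u ^ (14 * m)) ^ (16 * K) := pow_le_pow_left₀ hκ0 hκ14 _
          _ = u ^ (224 * K * m) := by rw [← pow_mul]; ring_nf
      have h2 : (2 : ℝ) ^ m * u ^ (64 * K * m) = 1 := by
        rw [pow_mul, huK, ← mul_pow]
        norm_num
      calc (2 : ℝ) ^ m * κ ^ (16 * K) ≤ 2 ^ m * u ^ (224 * K * m) :=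
            mul_le_mul_of_nonneg_left h1 (by positivity)
        _ = (2 ^ m * u ^ (64 * K * m)) * u ^ (160 * K * m) := by
            have h3 : 224 * K * m = 64 * K * m + 160 * K * m := by ring
            rw [h3, pow_add]
            ring
        _ = u ^ (160 * K * m) := by rw [h2, one_mul]
        _ ≤ u ^ (14 * m) := by
            refine pow_le_pow_of_le_one hu0.le hu1 (Nat.mul_le_mul_right _ ?_)
            omega
    have hkn0 : 0 ≤ kn m s (Wb K m) (16 * K) ((1 / 2 : ℝ) ^ (m / K)) q := by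
      unfold kn kc
      positivity
    have hkn : kn m s (Wb K m) (16 * K) ((1 / 2 : ℝ) ^ (m / K)) q ≤ u ^ (13 * m) := by
      unfold kn
      rw [← hκ, ← hW]
      have h1 : W * 2 ^ m * κ ^ (16 * K) ≤ W ^ 2 * u ^ (14 * m) := by
        calc W * 2 ^ m * κ ^ (16 * K) = W * (2 ^ m * κ ^ (16 * K)) := by ring
          _ ≤ W * u ^ (14 * m) := mul_le_mul_of_nonneg_left h2m hW0
          _ ≤ W ^ 2 * u ^ (14 * m) := by
              refine mul_le_mul_of_nonneg_right ?_ (by positivity)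
              nlinarith only [hW1]
      have h2 : W ^ 2 * κ ≤ W ^ 2 * u ^ (14 * m) := mul_le_mul_of_nonneg_left hκ14 (by positivity)
      have h3 : κ ≤ W ^ 2 * u ^ (14 * m) := by
        have h4 : (1 : ℝ) ≤ W ^ 2 := one_le_pow₀ hW1
        have h5 : (0 : ℝ) ≤ u ^ (14 * m) := by positivity
        nlinarith only [hκ14, h4, h5]
      have h6 : (3 * W ^ 2) * u ^ (14 * m) ≤ ρ ^ m * u ^ (14 * m) := by
        refine mul_le_mul_of_nonneg_right ?_ (by positivity)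
        have : 0 ≤ W ^ 2 := by positivity
        linarith only [hW2', hρsm, this]
      have h7 : ρ ^ m * u ^ (14 * m) = u ^ (13 * m) := by
        have h8 : u ^ (14 * m) = u ^ m * u ^ (13 * m) := by rw [← pow_add]; ring_nf
        rw [h8, ← mul_assoc, ← mul_pow, mul_comm ρ u, huρ, one_pow, one_mul]
      linarith only [h1, h2, h3, h6, h7]
    have hfin : kn m s (Wb K m) (16 * K) ((1 / 2 : ℝ) ^ (m / K)) q ^ (64 * K ^ 2 * m) ≤
        (1 / 2 : ℝ) ^ (13 * K * m ^ 2) := by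
      calc kn m s (Wb K m) (16 * K) ((1 / 2 : ℝ) ^ (m / K)) q ^ (64 * K ^ 2 * m)
          ≤ (u ^ (13 * m)) ^ (64 * K ^ 2 * m) := pow_le_pow_left₀ hkn0 hkn _
        _ = (u ^ (64 * K)) ^ (13 * K * m ^ 2) := by rw [← pow_mul, ← pow_mul]; ring_nf
        _ = (1 / 2 : ℝ) ^ (13 * K * m ^ 2) := by rw [huK]
    have hexp : m + 2 ≤ 12 * K * m ^ 2 := by nlinarith only [hm4, hK]
    calc (2 : ℝ) ^ (K * m ^ 2) * 2 ^ m *
          kn m s (Wb K m) (16 * K) ((1 / 2 : ℝ) ^ (m / K)) q ^ (64 * K ^ 2 * m)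
        ≤ (2 : ℝ) ^ (K * m ^ 2) * 2 ^ m * (1 / 2 : ℝ) ^ (13 * K * m ^ 2) :=
          mul_le_mul_of_nonneg_left hfin (by positivity)
      _ = ((2 : ℝ) ^ (K * m ^ 2) * (1 / 2 : ℝ) ^ (K * m ^ 2)) *
            (2 ^ m * (1 / 2 : ℝ) ^ (12 * K * m ^ 2)) := by
          have h1 : (1 / 2 : ℝ) ^ (13 * K * m ^ 2) =
              (1 / 2 : ℝ) ^ (K * m ^ 2) * (1 / 2 : ℝ) ^ (12 * K * m ^ 2) := by
            rw [← pow_add]; ring_nf
          rw [h1]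
          ring
      _ = 2 ^ m * (1 / 2 : ℝ) ^ (12 * K * m ^ 2) := by
          rw [← mul_pow]
          norm_num
      _ ≤ 2 ^ m * (1 / 2 : ℝ) ^ (m + 2) := by
          refine mul_le_mul_of_nonneg_left ?_ (by positivity)
          exact pow_le_pow_of_le_one (by norm_num) (by norm_num) hexp
      _ = (2 ^ m * (1 / 2 : ℝ) ^ m) * (1 / 2 : ℝ) ^ 2 := by rw [pow_add]; ring
      _ = (1 / 2 : ℝ) ^ 2 := by rw [← mul_pow]; norm_num
      _ < 1 / 2 := by norm_num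

end Pool.Agent.WL76
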