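import Pool.Agent.WL76.Small

/-!
# New small points
-/

namespace Pool.Agent.WL76

open Finset

variable {V : Type} [Fintype V] [DecidableEq V]

theorem birth_heavy_mono {F : Finset (Finset V)} {r : ℕ} {S S' : Finset V} (hS : S ⊆ S') :
    heavy F r S ⊆ heavy F r S' := by
  intro B hB
  simp only [heavy, mem_filter] at hB ⊢
  exact ⟨hB.1, hB.2.trans (card_le_card (inter_subset_inter (Subset.refl _) hS))⟩

theorem birth_adj_mono {F : Finset (Finset V)} {r : ℕ} {S S' : Finset V} (hS : S ⊆ S') {A B : Finset V}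
    (h : Adj F r S A B) : Adj F r S' A B :=
  ⟨birth_heavy_mono hS h.1, birth_heavy_mono hS h.2.1, h.2.2.mono (inter_subset_inter (Subset.refl _) hS)⟩

theorem birth_rtg {F : Finset (Finset V)} {r : ℕ} {S S' : Finset V} (hS : S ⊆ S') {A B : Finset V}
    (h : Relation.ReflTransGen (Adj F r S) A B) : Relation.ReflTransGen (Adj F r S') A B := by
  induction h with
  | refl => exact Relation.ReflTransGen.refl
  | tail _ h2 ih => exact ih.tail (birth_adj_mono hS h2)

/-- sums over sets closed under components -/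
theorem birth_sum {F : Finset (Finset V)} {r : ℕ} {S : Finset V} {K : Finset (Finset V)} {g : Finset V → ℝ}
    (hold : ∀ B ∈ heavy F r S, ∑ B' ∈ comp F r S B, g B' ≤ 0)
    (hnew : ∀ B ∈ K, B ∉ heavy F r S → g B ≤ 0)
    (hcl : ∀ B ∈ K, B ∈ heavy F r S → comp F r S B ⊆ K) : ∑ B ∈ K, g B ≤ 0 := by
  rw [← sum_filter_add_sum_filter_not K (fun B => B ∈ heavy F r S)]
  refine add_nonpos ?_ (sum_nonpos fun B hB => hnew B (mem_filter.1 hB).1 (mem_filter.1 hB).2)
  rw [← sum_fiberwise_of_maps_to (s := K.filter fun B => B ∈ heavy F r S)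
    (t := (K.filter fun B => B ∈ heavy F r S).image (comp F r S)) (g := comp F r S)
    (fun B hB => mem_image_of_mem _ hB)]
  refine sum_nonpos fun C hC => ?_
  obtain ⟨B₀, hB₀, rfl⟩ := mem_image.1 hC
  obtain ⟨hB₀K, hB₀h⟩ := mem_filter.1 hB₀
  have e : ((K.filter fun B => B ∈ heavy F r S).filter fun B => comp F r S B = comp F r S B₀) = comp F r S B₀ := by
    ext B
    simp only [mem_filter]
    constructor
    · rintro ⟨⟨h1, h2⟩, h3⟩
      rw [← h3]
      exact mem_comp_self h2
    · intro hB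
      have h1 := hcl B₀ hB₀K hB₀h hB
      simp only [comp, mem_filter] at hB
      exact ⟨⟨h1, hB.1⟩, (sm_comp_eq_of hB.2).symm⟩
  rw [e]
  exact hold B₀ hB₀h

/-- new small points: components merge and new heavy lines (of weight at most `2 ^ r`) appear -/
theorem small_birth {F : Finset (Finset V)} {r : ℕ} {S S' M₁ M Br : Finset V}
    (h : SmallOK F r S M₁ M Br) (hS : S ⊆ S') (hM : M ⊆ S) : SmallOK F r S' M₁ M Br := by
  have hwn : ∀ B ∈ heavy F r S', B ∉ heavy F r S → w M Br B ≤ 2 ^ r := by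
    intro B hB hBn
    have hBF : B ∈ F := (mem_filter.1 hB).1
    have hc : (B ∩ S).card ≤ r := by
      by_contra hcon
      exact hBn (mem_filter.2 ⟨hBF, by omega⟩)
    have hc' : (B ∩ M).card ≤ r := (card_le_card (inter_subset_inter (Subset.refl _) hM)).trans hc
    unfold w
    split_ifs
    · exact pow_le_pow_right₀ (by norm_num) hc'
    · positivity
  intro B hB
  have hcl : ∀ B₁ ∈ comp F r S' B, B₁ ∈ heavy F r S → comp F r S B₁ ⊆ comp F r S' B := by
    intro B₁ hB₁ _ B₂ hB₂
    simp only [comp, mem_filter] at hB₁ hB₂ ⊢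
    exact ⟨birth_heavy_mono hS hB₂.1, hB₁.2.trans (birth_rtg hS hB₂.2)⟩
  have hnh : ∀ B₁ ∈ comp F r S' B, B₁ ∈ heavy F r S' := by
    intro B₁ hB₁
    simp only [comp, mem_filter] at hB₁
    exact hB₁.1
  have e1 : ∀ (K : Finset (Finset V)), ∑ B' ∈ K, (w M Br B' - 2 ^ (r + 1)) = sw K M Br - 2 ^ (r + 1) * (K.card : ℝ) := by
    intro K
    rw [sum_sub_distrib, sum_const, nsmul_eq_mul, sw]
    ring
  have e2 : ∀ (K : Finset (Finset V)) (y : V), ∑ B' ∈ K, ((w M Br B' + if y ∈ B' then w M Br B' else 0) - 2 ^ (r + 1)) =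
      sw K M Br + dw K M Br y - 2 ^ (r + 1) * (K.card : ℝ) := by
    intro K y
    rw [sum_sub_distrib, sum_const, nsmul_eq_mul, sum_add_distrib, sw, dw, sum_filter]
    ring
  constructor
  · have h1 := birth_sum (F := F) (r := r) (S := S) (K := comp F r S' B) (g := fun B' => w M Br B' - 2 ^ (r + 1))
      (fun B' hB' => by
        rw [e1]
        linarith [(h B' hB').1])
      (fun B' hB' hn => by
        have h2 := hwn B' (hnh B' hB') hn
        have h3 : (2 : ℝ) ^ (r + 1) = 2 * 2 ^ r := by ring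
        have h4 : (0 : ℝ) < 2 ^ r := by positivity
        linarith) hcl
    rw [e1] at h1
    linarith
  · intro y hy1 hy2 hy3
    have h1 := birth_sum (F := F) (r := r) (S := S) (K := comp F r S' B)
      (g := fun B' => (w M Br B' + if y ∈ B' then w M Br B' else 0) - 2 ^ (r + 1))
      (fun B' hB' => by
        rw [e2]
        linarith [(h B' hB').2 y hy1 hy2 hy3])
      (fun B' hB' hn => by
        have h2 := hwn B' (hnh B' hB') hn
        have h3 : (2 : ℝ) ^ (r + 1) = 2 * 2 ^ r := by ring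
        have h4 : (0 : ℝ) < 2 ^ r := by positivity
        have h5 := sm_w_nonneg M Br B'
        show (w M Br B' + if y ∈ B' then w M Br B' else 0) - 2 ^ (r + 1) ≤ 0
        split_ifs <;> linarith) hcl
    rw [e2] at h1
    linarith

end Pool.Agent.WL76
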