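import Pool.Agent.WL76.Defs

/-!
# No line is full
-/

namespace Pool.Agent.WL76

open Finset

variable {V : Type} [Fintype V] [DecidableEq V]

/-- no line is full: `C` is the bound for the components -/
theorem inv_none {F : Finset (Finset V)} {L t C : ℕ} {M₁ S M₂ Br : Finset V}
    (hC : ∀ B ∈ heavy F (t + 2) S, (comp F (t + 2) S B).card ≤ C) (htL : t + 2 ≤ L)
    (hCL : (2 : ℝ) ^ (t + 3) * C < 2 ^ L) (hMS : M₂ ⊆ S) (hd : Disjoint M₁ S)
    (hMB : Disjoint (M₁ ∪ M₂) Br) (hst : Stable F L M₁ S Br)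
    (hw : ∀ B ∈ heavy F (t + 2) S,
      w M₂ Br B ≤ 2 ^ (t + 3) * ((comp F (t + 2) S B).card : ℝ)) :
    ∀ A ∈ F, ¬ A ⊆ M₁ ∪ M₂ := by
  intro A hA hAM
  have hAB : Disjoint A Br := hMB.mono_left hAM
  rcases hst A hA hAB with h | h
  · have hheavy : A ∈ heavy F (t + 2) S := mem_filter.2 ⟨hA, by omega⟩
    have h1 := hw A hheavy
    have h2 : w M₂ Br A = 2 ^ (A ∩ M₂).card := by
      unfold w
      rw [if_pos hAB]
    have h3 : A ∩ S ⊆ A ∩ M₂ := by
      intro p hp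
      rw [mem_inter] at hp ⊢
      refine ⟨hp.1, ?_⟩
      rcases mem_union.1 (hAM hp.1) with h4 | h4
      · exact absurd hp.2 (disjoint_left.1 hd h4)
      · exact h4
    have h4 : L ≤ (A ∩ M₂).card := h.trans (card_le_card h3)
    have h5 : (2 : ℝ) ^ L ≤ 2 ^ (A ∩ M₂).card := pow_le_pow_right₀ (by norm_num) h4
    have h6 : ((comp F (t + 2) S A).card : ℝ) ≤ C := by exact_mod_cast hC A hheavy
    have h7 : (2 : ℝ) ^ (t + 3) * ((comp F (t + 2) S A).card : ℝ) ≤ 2 ^ (t + 3) * C :=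
      mul_le_mul_of_nonneg_left h6 (by positivity)
    rw [h2] at h1
    linarith
  · have h1 : A \ (M₁ ∪ S) = ∅ := by
      rw [sdiff_eq_empty_iff_subset]
      exact hAM.trans (union_subset_union_right hMS)
    rw [h1, card_empty] at h
    omega

end Pool.Agent.WL76
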