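import Pool.Agent.WL76.Defs

/-!
# Moving points to the small board
-/

namespace Pool.Agent.WL76

open Finset

variable {V : Type} [Fintype V] [DecidableEq V]

/-- moving points of `A \ M₁` to the small board, for one unstable line `A` after the other -/
theorem process {F : Finset (Finset V)} {L : ℕ} {M₁ S Br : Finset V} (hd : Disjoint M₁ S)
    (hE : OnE F L M₁ S) (hL : ∀ A ∈ F, Disjoint A Br → L ≤ (A \ M₁).card) :
    ∃ S', S ⊆ S' ∧ Disjoint M₁ S' ∧ OnE F L M₁ S' ∧ Stable F L M₁ S' Br := by
  induction h : (univ \ S : Finset V).card using Nat.strong_induction_on generalizing S with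
  | _ k ih =>
    by_cases hst : Stable F L M₁ S Br
    · exact ⟨S, Subset.refl S, hd, hE, hst⟩
    · unfold Stable at hst
      push Not at hst
      obtain ⟨A, hA, hAB, h1, h2⟩ := hst
      have h3 : A \ M₁ ⊆ (A ∩ S) ∪ (A \ (M₁ ∪ S)) := by
        intro p hp
        rw [mem_sdiff] at hp
        by_cases hS : p ∈ S
        · exact mem_union_left _ (mem_inter.2 ⟨hp.1, hS⟩)
        · apply mem_union_right
          rw [mem_sdiff, mem_union]
          exact ⟨hp.1, fun h => h.elim hp.2 hS⟩
      have h4 : (A \ M₁).card ≤ 2 * L := by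
        have := (card_le_card h3).trans (card_union_le _ _)
        omega
      have h5 : ∃ p ∈ A \ M₁, p ∉ S := by
        by_contra hcon
        push Not at hcon
        have h6 : A \ M₁ ⊆ A ∩ S := fun p hp =>
          mem_inter.2 ⟨(mem_sdiff.1 hp).1, hcon p hp⟩
        have h7 := card_le_card h6
        have h8 := hL A hA hAB
        omega
      obtain ⟨p, hp, hpS⟩ := h5
      have hd' : Disjoint M₁ (S ∪ (A \ M₁)) :=
        disjoint_union_right.2 ⟨hd, disjoint_sdiff⟩
      have hE' : OnE F L M₁ (S ∪ (A \ M₁)) := by
        intro z hz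
        rcases mem_union.1 hz with hz | hz
        · exact hE z hz
        · refine ⟨A, hA, (mem_sdiff.1 hz).1, ?_⟩
          have h6 := card_inter_add_card_sdiff A M₁
          omega
      have hlt : (univ \ (S ∪ (A \ M₁)) : Finset V).card < k := by
        rw [← h]
        apply card_lt_card
        rw [ssubset_iff_of_subset]
        · refine ⟨p, ?_, ?_⟩
          · rw [mem_sdiff]
            exact ⟨mem_univ p, hpS⟩
          · rw [mem_sdiff]
            exact fun hh => hh.2 (mem_union_right _ hp)
        · exact sdiff_subset_sdiff (Subset.refl _) subset_union_left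
      obtain ⟨S', hS', h6, h7, h8⟩ := ih _ hlt hd' hE' rfl
      exact ⟨S', subset_union_left.trans hS', h6, h7, h8⟩

end Pool.Agent.WL76
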