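import Pool.Agent.WL76.Defs

/-!
# The small game
-/

namespace Pool.Agent.WL76

open Finset

variable {V : Type} [Fintype V] [DecidableEq V]

theorem sm_adj_symm {F : Finset (Finset V)} {r : ℕ} {S A B : Finset V} (h : Adj F r S A B) : Adj F r S B A := by
  refine ⟨h.2.1, h.1, ?_⟩
  rw [inter_comm B A]
  exact h.2.2

theorem sm_rtg_symm {F : Finset (Finset V)} {r : ℕ} {S A B : Finset V}
    (h : Relation.ReflTransGen (Adj F r S) A B) : Relation.ReflTransGen (Adj F r S) B A := by
  induction h with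
  | refl => exact Relation.ReflTransGen.refl
  | tail _ h2 ih => exact Relation.ReflTransGen.head (sm_adj_symm h2) ih

theorem sm_comp_eq_of {F : Finset (Finset V)} {r : ℕ} {S A B : Finset V}
    (h : Relation.ReflTransGen (Adj F r S) A B) : comp F r S A = comp F r S B := by
  ext C
  simp only [comp, mem_filter]
  exact ⟨fun hc => ⟨hc.1, (sm_rtg_symm h).trans hc.2⟩, fun hc => ⟨hc.1, h.trans hc.2⟩⟩

theorem sm_w_nonneg (M Br B : Finset V) : 0 ≤ w M Br B := by
  unfold w
  split_ifs
  · positivity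
  · exact le_rfl

theorem sm_w_anti {M Br Br' : Finset V} (hB : Br ⊆ Br') (B : Finset V) : w M Br' B ≤ w M Br B := by
  unfold w
  by_cases h : Disjoint B Br'
  · rw [if_pos h, if_pos (disjoint_of_subset_right hB h)]
  · rw [if_neg h]
    split_ifs
    · positivity
    · exact le_rfl

theorem sm_sw_anti {K : Finset (Finset V)} {M Br Br' : Finset V} (hB : Br ⊆ Br') : sw K M Br' ≤ sw K M Br :=
  sum_le_sum fun B _ => sm_w_anti hB B

theorem sm_dw_anti {K : Finset (Finset V)} {M Br Br' : Finset V} (hB : Br ⊆ Br') (y : V) :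
    dw K M Br' y ≤ dw K M Br y :=
  sum_le_sum fun B _ => sm_w_anti hB B

theorem sm_w_insert {M Br B : Finset V} {x : V} (hx : x ∉ M) :
    w (insert x M) Br B = w M Br B + if x ∈ B then w M Br B else 0 := by
  unfold w
  by_cases h : Disjoint B Br
  · simp only [if_pos h]
    by_cases hB : x ∈ B
    · rw [if_pos hB, inter_insert_of_mem hB, card_insert_of_notMem (fun h' => hx (mem_inter.1 h').2), pow_succ]
      ring
    · rw [if_neg hB, inter_insert_of_notMem hB, add_zero]
  · simp only [if_neg h]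
    simp

theorem sm_sw_insert {K : Finset (Finset V)} {M Br : Finset V} {x : V} (hx : x ∉ M) :
    sw K (insert x M) Br = sw K M Br + dw K M Br x := by
  unfold sw dw
  rw [sum_filter, ← sum_add_distrib]
  exact sum_congr rfl fun B _ => sm_w_insert hx

theorem sm_w_dead {M Br B : Finset V} {y : V} :
    w M (insert y Br) B = w M Br B - if y ∈ B then w M Br B else 0 := by
  unfold w
  by_cases hy : y ∈ B
  · rw [if_neg, if_pos hy, sub_self]
    intro h
    exact disjoint_left.1 h hy (mem_insert_self _ _)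
  · rw [if_neg hy, sub_zero]
    have : Disjoint B (insert y Br) ↔ Disjoint B Br := by
      rw [disjoint_insert_right]
      exact ⟨fun h => h.2, fun h => ⟨hy, h⟩⟩
    by_cases h : Disjoint B Br
    · rw [if_pos h, if_pos (this.2 h)]
    · rw [if_neg h, if_neg (fun h' => h (this.1 h'))]

theorem sm_sw_dead {K : Finset (Finset V)} {M Br : Finset V} {y : V} :
    sw K M (insert y Br) = sw K M Br - dw K M Br y := by
  unfold sw dw
  rw [sum_filter, ← sum_sub_distrib]
  exact sum_congr rfl fun B _ => sm_w_dead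

theorem small_dead {F : Finset (Finset V)} {r : ℕ} {S M₁ M Br Br' : Finset V}
    (h : SmallOK F r S M₁ M Br) (hB : Br ⊆ Br') : SmallOK F r S M₁ M Br' := by
  intro B hBh
  obtain ⟨h1, h2⟩ := h B hBh
  refine ⟨(sm_sw_anti hB).trans h1, fun y hy1 hy2 hy3 => ?_⟩
  exact (add_le_add (sm_sw_anti hB) (sm_dw_anti hB y)).trans (h2 y hy1 hy2 fun h' => hy3 (hB h'))

theorem mem_comp_self {F : Finset (Finset V)} {r : ℕ} {S B : Finset V} (h : B ∈ heavy F r S) :
    B ∈ comp F r S B := by
  simp only [comp, mem_filter]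
  exact ⟨h, Relation.ReflTransGen.refl⟩

/-- after Maker's move in the small game no weight is too large -/
theorem small_maker {F : Finset (Finset V)} {r : ℕ} {S M₁ M Br : Finset V}
    (h : SmallOK F r S M₁ M Br) {x : V} (hx : x ∈ S) (hx1 : x ∉ M₁) (hxM : x ∉ M)
    (hxB : x ∉ Br) :
    ∀ B ∈ heavy F r S, w (insert x M) Br B ≤ 2 ^ (r + 1) * ((comp F r S B).card : ℝ) := by
  intro B hB
  obtain ⟨-, h2⟩ := h B hB
  have h3 : w (insert x M) Br B ≤ sw (comp F r S B) (insert x M) Br :=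
    single_le_sum (f := fun B => w (insert x M) Br B) (fun B' _ => sm_w_nonneg _ _ B') (mem_comp_self hB)
  rw [sm_sw_insert hxM] at h3
  exact h3.trans (h2 x hx1 hxM hxB)

/-- Breaker's reply in the small game: an unclaimed point (big or small) with the largest `dw`
in the component of the lines through `x` (all heavy lines through `x` are in one component) -/
theorem small_reply {F : Finset (Finset V)} {r : ℕ} {S M₁ M Br : Finset V}
    (h : SmallOK F r S M₁ M Br) {x : V} (hx : x ∈ S) (hx1 : x ∉ M₁) (hxM : x ∉ M)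
    (hxB : x ∉ Br) (hex : ∃ y, y ∉ M₁ ∧ y ∉ insert x M ∧ y ∉ Br) :
    ∃ y, y ∉ M₁ ∧ y ∉ insert x M ∧ y ∉ Br ∧ SmallOK F r S M₁ (insert x M) (insert y Br) := by
  -- the components without lines through `x`
  have hfar : ∀ y, ∀ B ∈ heavy F r S, (∀ B' ∈ comp F r S B, x ∉ B') →
      sw (comp F r S B) (insert x M) (insert y Br) ≤ 2 ^ (r + 1) * ((comp F r S B).card : ℝ) ∧
      ∀ z, z ∉ M₁ → z ∉ insert x M → z ∉ insert y Br →
        sw (comp F r S B) (insert x M) (insert y Br) + dw (comp F r S B) (insert x M) (insert y Br) z ≤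
          2 ^ (r + 1) * ((comp F r S B).card : ℝ) := by
    intro y B hB hno
    have hw : ∀ B' ∈ comp F r S B, w (insert x M) (insert y Br) B' = w M (insert y Br) B' := by
      intro B' hB'
      rw [sm_w_insert hxM, if_neg (hno B' hB'), add_zero]
    have e1 : sw (comp F r S B) (insert x M) (insert y Br) = sw (comp F r S B) M (insert y Br) :=
      sum_congr rfl hw
    have e2 : ∀ z, dw (comp F r S B) (insert x M) (insert y Br) z = dw (comp F r S B) M (insert y Br) z :=
      fun z => sum_congr rfl fun B' hB' => hw B' (mem_filter.1 hB').1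
    obtain ⟨h1, h2⟩ := small_dead h (subset_insert y Br) B hB
    rw [e1]
    refine ⟨h1, fun z hz1 hz2 hz3 => ?_⟩
    rw [e2]
    exact h2 z hz1 (fun h' => hz2 (mem_insert_of_mem h')) hz3
  by_cases hB₀ : ∃ B₀ ∈ heavy F r S, x ∈ B₀
  · obtain ⟨B₀, hB₀, hxB₀⟩ := hB₀
    obtain ⟨K, hK⟩ : ∃ K, K = comp F r S B₀ := ⟨_, rfl⟩
    obtain ⟨U, hU⟩ : ∃ U : Finset V, U = univ.filter fun y => y ∉ M₁ ∧ y ∉ insert x M ∧ y ∉ Br := ⟨_, rfl⟩
    have hmU : ∀ y, y ∈ U ↔ y ∉ M₁ ∧ y ∉ insert x M ∧ y ∉ Br := by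
      intro y
      rw [hU, mem_filter]
      exact ⟨fun h => h.2, fun h => ⟨mem_univ _, h⟩⟩
    obtain ⟨y₀, hy₀⟩ := hex
    obtain ⟨y, hy, hmax⟩ := exists_max_image U (fun y => dw K (insert x M) Br y) ⟨y₀, (hmU y₀).2 hy₀⟩
    obtain ⟨hy1, hy2, hy3⟩ := (hmU y).1 hy
    refine ⟨y, hy1, hy2, hy3, ?_⟩
    intro B hB
    by_cases hno : ∀ B' ∈ comp F r S B, x ∉ B'
    · exact hfar y B hB hno
    · push Not at hno
      obtain ⟨B₁, hB₁, hxB₁⟩ := hno
      simp only [comp, mem_filter] at hB₁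
      have hadj : Adj F r S B₁ B₀ := ⟨hB₁.1, hB₀, x, mem_inter.2 ⟨mem_inter.2 ⟨hxB₁, hxB₀⟩, hx⟩⟩
      have hcc : comp F r S B = K := by
        rw [hK]
        exact sm_comp_eq_of (hB₁.2.tail hadj)
      obtain ⟨-, h2⟩ := h B hB
      have h3 := h2 x hx1 hxM hxB
      rw [hcc] at h3 ⊢
      rw [← sm_sw_insert hxM] at h3
      refine ⟨(sm_sw_anti (subset_insert y Br)).trans h3, fun z hz1 hz2 hz3 => ?_⟩
      have hzU : z ∈ U := (hmU z).2 ⟨hz1, hz2, fun h' => hz3 (mem_insert_of_mem h')⟩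
      have h4 : dw K (insert x M) (insert y Br) z ≤ dw K (insert x M) Br z := sm_dw_anti (subset_insert y Br) z
      have h5 := hmax z hzU
      rw [sm_sw_dead]
      linarith
  · push Not at hB₀
    obtain ⟨y, hy1, hy2, hy3⟩ := hex
    refine ⟨y, hy1, hy2, hy3, fun B hB => hfar y B hB fun B' hB' => ?_⟩
    simp only [comp, mem_filter] at hB'
    exact hB₀ B' hB'.1

end Pool.Agent.WL76
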