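import Pool.Agent.WL76.Big
import Pool.Agent.WL76.Birth
import Pool.Agent.WL76.Small
import Pool.Agent.WL76.Process
import Pool.Agent.WL76.None

/-!
# One round
-/

namespace Pool.Agent.WL76

open Finset

variable {V : Type} [Fintype V] [DecidableEq V]


private lemma w_nonneg' (M Br B : Finset V) : 0 ≤ w M Br B := by
  unfold w
  split_ifs
  · positivity
  · exact le_rfl

private lemma w_le_of_ok {F : Finset (Finset V)} {r : ℕ} {S M₁ M Br : Finset V}
    (h : SmallOK F r S M₁ M Br) : ∀ B ∈ heavy F r S,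
      w M Br B ≤ 2 ^ (r + 1) * ((comp F r S B).card : ℝ) := by
  intro B hB
  refine le_trans ?_ (h B hB).1
  exact single_le_sum (f := fun B => w M Br B) (fun B' _ => w_nonneg' M Br B') (mem_comp_self hB)

private lemma small_ok_mono {F : Finset (Finset V)} {r : ℕ} {S M₁ M₁' M Br : Finset V}
    (h : SmallOK F r S M₁ M Br) (hM : M₁ ⊆ M₁') : SmallOK F r S M₁' M Br := fun B hB =>
  ⟨(h B hB).1, fun y hy => (h B hB).2 y fun hy' => hy (hM hy')⟩

private lemma stable_mono {F : Finset (Finset V)} {L : ℕ} {M₁ S Br Br' : Finset V}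
    (h : Stable F L M₁ S Br) (hB : Br ⊆ Br') : Stable F L M₁ S Br' := fun A hA hd =>
  h A hA (hd.mono_right hB)

theorem inv_fin {F : Finset (Finset V)} {L t s C : ℕ} (htL : t + 2 ≤ L)
    (hCL : (2 : ℝ) ^ (t + 3) * C < 2 ^ L)
    (hcomp : ∀ M₁ S : Finset V, (∀ X ∈ cert F L t s, ¬ X ⊆ M₁) → OnE F L M₁ S →
      ∀ B ∈ heavy F (t + 2) S, (comp F (t + 2) S B).card ≤ C)
    {M Br : Finset V} (h : Inv F L t s M Br) : ∀ A ∈ F, ¬ A ⊆ M := by
  obtain ⟨M₁, S, M₂, rfl, hMS, hd, hMB, hbig, hE, hst, hsm⟩ := h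
  have hd1 : Disjoint M₁ (Br ∪ S) := by
    rw [disjoint_union_right]
    exact ⟨hMB.mono_left subset_union_left, hd⟩
  exact inv_none (hcomp M₁ S (big_none hbig.1 hd1) hE) htL hCL hMS hd hMB hst (w_le_of_ok hsm)

/-- one round; `hcomp` is the bound of the components (M7, M8) -/
theorem inv_step {F : Finset (Finset V)} {L t s C : ℕ} (htL : t + 2 ≤ L) (hL : 1 ≤ L)
    (hCL : (2 : ℝ) ^ (t + 3) * C < 2 ^ L)
    (hcomp : ∀ M₁ S : Finset V, (∀ X ∈ cert F L t s, ¬ X ⊆ M₁) → OnE F L M₁ S →
      ∀ B ∈ heavy F (t + 2) S, (comp F (t + 2) S B).card ≤ C)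
    {M Br : Finset V} (h : Inv F L t s M Br) {x : V} (hxM : x ∉ M) (hxB : x ∉ Br) :
    (∀ A ∈ F, ¬ A ⊆ insert x M) ∧
    ((∃ y, y ∉ insert x M ∧ y ∉ Br) →
      ∃ y, y ∉ insert x M ∧ y ∉ Br ∧ Inv F L t s (insert x M) (insert y Br)) := by
  obtain ⟨M₁, S, M₂, rfl, hMS, hd, hMB, hbig, hE, hst, hsm⟩ := h
  have hx1 : x ∉ M₁ := fun h => hxM (mem_union_left _ h)
  have hx2 : x ∉ M₂ := fun h => hxM (mem_union_right _ h)
  have hd1 : Disjoint M₁ (Br ∪ S) := by
    rw [disjoint_union_right]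
    exact ⟨hMB.mono_left subset_union_left, hd⟩
  by_cases hxS : x ∈ S
  · -- a small point
    have hins : insert x (M₁ ∪ M₂) = M₁ ∪ insert x M₂ := by rw [union_insert]
    have hMS' : insert x M₂ ⊆ S := insert_subset hxS hMS
    have hMB' : Disjoint (M₁ ∪ insert x M₂) Br := by
      rw [← hins, disjoint_insert_left]
      exact ⟨hxB, hMB⟩
    rw [hins]
    refine ⟨inv_none (hcomp M₁ S (big_none hbig.1 hd1) hE) htL hCL hMS' hd hMB' hst
      (small_maker hsm hxS hx1 hx2 hxB), ?_⟩
    rintro ⟨y₀, hy₀, hy₀B⟩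
    obtain ⟨y, hy1, hy2, hyB, hok⟩ := small_reply hsm hxS hx1 hx2 hxB
      ⟨y₀, fun h => hy₀ (mem_union_left _ h), fun h => hy₀ (mem_union_right _ h), hy₀B⟩
    have hyM : y ∉ M₁ ∪ insert x M₂ := by
      rw [mem_union]
      rintro (h | h)
      · exact hy1 h
      · exact hy2 h
    refine ⟨y, hyM, hyB, M₁, S, insert x M₂, rfl, hMS', hd, ?_, ?_, hE, ?_, hok⟩
    · rw [disjoint_insert_right]
      exact ⟨hyM, hMB'⟩
    · exact big_dead (union_subset_union_left (subset_insert _ _)) hbig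
    · exact stable_mono hst (subset_insert _ _)
  · -- a big point
    have hins : insert x (M₁ ∪ M₂) = insert x M₁ ∪ M₂ := by rw [insert_union]
    rw [hins]
    have hxD : x ∉ Br ∪ S := by
      rw [mem_union]
      rintro (h | h)
      · exact hxB h
      · exact hxS h
    have hpot := big_maker hbig hx1 hxD
    have hd' : Disjoint (insert x M₁) S := by
      rw [disjoint_insert_left]
      exact ⟨hxS, hd⟩
    have hd1' : Disjoint (insert x M₁) (Br ∪ S) := by
      rw [disjoint_insert_left]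
      exact ⟨hxD, hd1⟩
    have hMB' : Disjoint (insert x M₁ ∪ M₂) Br := by
      rw [← hins, disjoint_insert_left]
      exact ⟨hxB, hMB⟩
    have hE' : OnE F L (insert x M₁) S := by
      intro p hp
      obtain ⟨A, hA, hpA, hc⟩ := hE p hp
      refine ⟨A, hA, hpA, hc.trans ?_⟩
      exact Nat.add_le_add_right (card_le_card (inter_subset_inter_left (subset_insert _ _))) _
    have hLc : ∀ A ∈ F, Disjoint A Br → L ≤ (A \ insert x M₁).card := by
      intro A hA hAB
      rcases hst A hA hAB with h1 | h1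
      · refine h1.trans (card_le_card ?_)
        intro z hz
        rw [mem_inter] at hz
        rw [mem_sdiff]
        refine ⟨hz.1, fun hz' => ?_⟩
        exact disjoint_left.1 hd' hz' hz.2
      · have h2 : (A \ (M₁ ∪ S)).erase x ⊆ A \ insert x M₁ := by
          intro z hz
          rw [mem_erase, mem_sdiff, mem_union, not_or] at hz
          rw [mem_sdiff, mem_insert, not_or]
          exact ⟨hz.2.1, hz.1, hz.2.2.1⟩
        have h3 := card_le_card h2
        have h4 := pred_card_le_card_erase (s := A \ (M₁ ∪ S)) (a := x)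
        omega
    obtain ⟨S', hSS, hdS', hE'', hst'⟩ := process hd' hE' hLc
    have hsm' : SmallOK F (t + 2) S' (insert x M₁) M₂ Br :=
      small_ok_mono (small_birth hsm hSS hMS) (subset_insert _ _)
    have hMS' : M₂ ⊆ S' := hMS.trans hSS
    refine ⟨inv_none (hcomp _ S' (big_none hpot hd1') hE'') htL hCL hMS' hdS' hMB' hst'
      (w_le_of_ok hsm'), ?_⟩
    rintro ⟨y₀, hy₀, hy₀B⟩
    have hpot' : pot (cert F L t s) (insert x M₁) (Br ∪ S') < 1 :=
      lt_of_le_of_lt (pot_dead (union_subset_union_right hSS)) hpot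
    -- the points of Breaker and the invariant of the big game
    have hgo : ∀ y, y ∉ insert x M₁ ∪ M₂ → y ∉ Br →
        BigOK (cert F L t s) (insert x M₁) (insert y Br ∪ S') →
        Inv F L t s (insert x M₁ ∪ M₂) (insert y Br) := by
      intro y hy hyB hbig'
      refine ⟨insert x M₁, S', M₂, rfl, hMS', hdS', ?_, hbig', hE'', ?_, ?_⟩
      · rw [disjoint_insert_right]
        exact ⟨hy, hMB'⟩
      · exact stable_mono hst' (subset_insert _ _)
      · exact small_dead hsm' (subset_insert _ _)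
    by_cases hex : ∃ y, y ∉ insert x M₁ ∧ y ∉ Br ∪ S'
    · obtain ⟨y, hy1, hyD, hok⟩ := big_reply hpot' hex
      have hyB : y ∉ Br := fun h => hyD (mem_union_left _ h)
      have hyS : y ∉ S' := fun h => hyD (mem_union_right _ h)
      have hyM : y ∉ insert x M₁ ∪ M₂ := by
        rw [mem_union]
        rintro (h | h)
        · exact hy1 h
        · exact hyS (hMS' h)
      refine ⟨y, hyM, hyB, hgo y hyM hyB ?_⟩
      rw [insert_union]
      exact hok
    · refine ⟨y₀, hy₀, hy₀B, hgo y₀ hy₀ hy₀B ⟨?_, ?_⟩⟩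
      · exact lt_of_le_of_lt (pot_dead (union_subset_union_left (subset_insert _ _))) hpot'
      · intro z hz1 hz2
        refine absurd ⟨z, hz1, fun hz3 => hz2 ?_⟩ hex
        rw [mem_union] at hz3 ⊢
        rcases hz3 with h | h
        · exact Or.inl (mem_insert_of_mem h)
        · exact Or.inr h

end Pool.Agent.WL76
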