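import Pool.Agent.WL76.Explore

/-!
# Stuck: `t` fresh lines which meet one line
-/

namespace Pool.Agent.WL76

open Finset

variable {V : Type} [Fintype V] [DecidableEq V]

/-- stuck: a line with a point in the closure does not meet `t` fresh lines -/
theorem stuck1 {F : Finset (Finset V)} (had : AlmostDisjoint F) {L t : ℕ}
    (h4 : ∀ A ∈ F, 4 * t ≤ A.card) {M₁ : Finset V}
    {P : Finset V × Finset V} (hP : P.2 ⊆ M₁) (hs : ∀ Q ∈ next F L t P, ¬ Q.2 ⊆ M₁)
    {B : Finset V} (hB : B ∈ F) (hB1 : (B ∩ clo F P.1).Nonempty) {𝒩 : Finset (Finset V)}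
    (h𝒩 : 𝒩 ⊆ F) (hcard : 𝒩.card = t)
    (hfresh : ∀ N ∈ 𝒩, N.card ≤ (N ∩ M₁).card + 2 * L ∧ (N ∩ B).Nonempty ∧
      2 * (N ∩ P.1).card ≤ N.card) : False := by
  have key : ∀ 𝒩' : Finset (Finset V), 𝒩' ⊆ 𝒩 →
      ∃ Q ∈ childs F L B 𝒩'.card P, Q.2 ⊆ M₁ ∧ Q.1 = P.1 ∪ 𝒩'.biUnion id := by
    intro 𝒩'
    induction 𝒩' using Finset.induction_on with
    | empty =>
      intro _
      refine ⟨P, ?_, hP, ?_⟩
      · rw [card_empty, childs, mem_singleton]
      · rw [biUnion_empty, union_empty]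
    | insert N 𝒦 hN ih =>
      intro hsub
      obtain ⟨Q, hQ, hQM, hQ1⟩ := ih ((subset_insert N 𝒦).trans hsub)
      have hNN : N ∈ 𝒩 := hsub (mem_insert_self N 𝒦)
      have hNF : N ∈ F := h𝒩 hNN
      obtain ⟨hE, hNB, hNP⟩ := hfresh N hNN
      have hk : 𝒦.card + 1 ≤ t := by
        rw [← hcard, ← card_insert_of_notMem hN]
        exact card_le_card hsub
      have h1 : (N ∩ 𝒦.biUnion id).card ≤ 𝒦.card := by
        rw [inter_biUnion]
        have h2 : (𝒦.biUnion fun K => N ∩ id K).card ≤ 𝒦.card * 1 := by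
          apply card_biUnion_le_card_mul
          intro K hK
          apply had N hNF K (h𝒩 (hsub (mem_insert_of_mem hK)))
          rintro rfl
          exact hN hK
        omega
      have h2 : (N ∩ Q.1).card ≤ (N ∩ P.1).card + 𝒦.card := by
        rw [hQ1, inter_union_distrib_left]
        exact (card_union_le _ _).trans (Nat.add_le_add_left h1 _)
      have h3 := h4 N hNF
      obtain ⟨h5, h6⟩ := child_of (Z := B) hQM hNF hE hNB (by omega)
      refine ⟨(Q.1 ∪ N, Q.2 ∪ ((N \ Q.1) ∩ M₁)), ?_, h6, ?_⟩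
      · rw [card_insert_of_notMem hN]
        exact mem_biUnion.2 ⟨Q, hQ, h5⟩
      · change Q.1 ∪ N = P.1 ∪ (insert N 𝒦).biUnion id
        rw [biUnion_insert, hQ1, id, union_assoc, union_comm N]
  obtain ⟨Q, hQ, hQM, -⟩ := key 𝒩 (Subset.refl _)
  rw [hcard] at hQ
  refine hs Q ?_ hQM
  exact mem_union_left _ (mem_union_right _
    (mem_biUnion.2 ⟨B, mem_filter.2 ⟨hB, hB1⟩, hQ⟩))

end Pool.Agent.WL76
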