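import Pool.Agent.WL76.Defs

/-!
# Counting lines with two points in a set; total weights
-/

set_option autoImplicit false

namespace Pool.Agent.WL76

open Finset

variable {V : Type} [Fintype V] [DecidableEq V]

theorem card_two {F : Finset (Finset V)} (had : AlmostDisjoint F) (C : Finset V) :
    (F.filter fun B => 2 ≤ (B ∩ C).card).card ≤ C.card ^ 2 := by
  have h1 : (F.filter fun B => 2 ≤ (B ∩ C).card) ⊆
      (C ×ˢ C).biUnion fun p => F.filter fun B => p.1 ∈ B ∧ p.2 ∈ B ∧ p.1 ≠ p.2 := by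
    intro B hB
    rw [mem_filter] at hB
    obtain ⟨a, ha, b, hb, hab⟩ := one_lt_card.1 hB.2
    rw [mem_inter] at ha hb
    rw [mem_biUnion]
    exact ⟨(a, b), mem_product.2 ⟨ha.2, hb.2⟩, mem_filter.2 ⟨hB.1, ha.1, hb.1, hab⟩⟩
  have h2 := card_biUnion_le_card_mul (C ×ˢ C)
    (fun p : V × V => F.filter fun B => p.1 ∈ B ∧ p.2 ∈ B ∧ p.1 ≠ p.2) 1 (by
      intro p _
      rw [card_le_one]
      intro A hA B hB
      rw [mem_filter] at hA hB
      by_contra hne
      have h3 := had A hA.1 B hB.1 hne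
      have h4 : 1 < (A ∩ B).card := one_lt_card.2
        ⟨p.1, mem_inter.2 ⟨hA.2.1, hB.2.1⟩, p.2, mem_inter.2 ⟨hA.2.2.1, hB.2.2.1⟩, hA.2.2.2⟩
      omega)
  refine (card_le_card h1).trans (h2.trans (le_of_eq ?_))
  rw [card_product, mul_one, sq]

theorem wt_union_le (A B : Finset (Finset V × Finset V)) : wt (A ∪ B) ≤ wt A + wt B := by
  unfold wt
  rw [← sum_union_inter]
  exact le_add_of_nonneg_right (sum_nonneg fun P _ => by positivity)

theorem wt_biUnion_le {ι : Type} [DecidableEq ι] (s : Finset ι)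
    (f : ι → Finset (Finset V × Finset V)) : wt (s.biUnion f) ≤ ∑ i ∈ s, wt (f i) := by
  induction s using Finset.induction_on with
  | empty => simp [wt]
  | insert a s ha ih =>
    rw [biUnion_insert, sum_insert ha]
    exact (wt_union_le _ _).trans (add_le_add_right ih _)

/-- number of the large subsets -/
theorem card_large {N : Finset V} {m a : ℕ} (hN : N.card ≤ m) :
    (N.powerset.filter fun Y => N.card ≤ Y.card + a).card ≤ (m + 1) ^ a := by
  classical
  let S : (Fin a → Option N) → Finset V := fun g =>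
    N \ (univ.filter fun x => ∃ i, ∃ y : N, g i = some y ∧ y.1 = x)
  have h1 : (N.powerset.filter fun Y => N.card ≤ Y.card + a) ⊆ univ.image S := by
    intro Y hY
    rw [mem_filter, mem_powerset] at hY
    obtain ⟨hYN, hc⟩ := hY
    have hD : (N \ Y).card ≤ a := by
      have := card_sdiff_add_card_eq_card hYN
      omega
    rw [mem_image]
    let e := (N \ Y).equivFin
    refine ⟨fun i => if h : i.1 < (N \ Y).card then
      some ⟨(e.symm ⟨i.1, h⟩).1, (mem_sdiff.1 (e.symm ⟨i.1, h⟩).2).1⟩ else none, mem_univ _, ?_⟩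
    ext x
    simp only [S, mem_sdiff, mem_filter, mem_univ, true_and]
    constructor
    · rintro ⟨hxN, hx⟩
      by_contra hxY
      apply hx
      have hxD : x ∈ N \ Y := mem_sdiff.2 ⟨hxN, hxY⟩
      have h2 : (e ⟨x, hxD⟩).1 < (N \ Y).card := (e ⟨x, hxD⟩).2
      refine ⟨⟨(e ⟨x, hxD⟩).1, h2.trans_le hD⟩, ⟨x, hxN⟩, ?_, rfl⟩
      rw [dif_pos h2]
      congr 1
      apply Subtype.ext
      show (e.symm ⟨(e ⟨x, hxD⟩).1, h2⟩).1 = x
      rw [show (⟨(e ⟨x, hxD⟩).1, h2⟩ : Fin _) = e ⟨x, hxD⟩ from rfl, Equiv.symm_apply_apply]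
    · intro hxY
      refine ⟨hYN hxY, ?_⟩
      rintro ⟨i, y, hi, rfl⟩
      split_ifs at hi with h
      · have h3 : (e.symm ⟨i.1, h⟩).1 = y.1 := congrArg Subtype.val (Option.some.inj hi)
        have h4 := (mem_sdiff.1 (e.symm ⟨i.1, h⟩).2).2
        rw [h3] at h4
        exact h4 hxY
  refine (card_le_card h1).trans (card_image_le.trans ?_)
  rw [card_univ, Fintype.card_fun, Fintype.card_option, Fintype.card_coe, Fintype.card_fin]
  exact Nat.pow_le_pow_left (by omega) a

end Pool.Agent.WL76
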