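import Pool.Agent.WL76.Defs
import Pool.Agent.WL76.Two

/-!
# Total weight of the certificates with one more line
-/

set_option autoImplicit false

namespace Pool.Agent.WL76

open Finset

variable {V : Type} [Fintype V] [DecidableEq V]

/-- the pairs with the line `N` -/
theorem wt_line {L m : ℕ} {N : Finset V} (hN : N.card ≤ m) (P : Finset V × Finset V)
    (hP : P.2 ⊆ P.1) :
    wt (((N \ P.1).powerset.filter fun Y => (N \ P.1).card ≤ Y.card + 2 * L).image
      fun Y => (P.1 ∪ N, P.2 ∪ Y)) ≤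
      2 ^ (2 * L) * (m + 1) ^ (2 * L) * (1 / 2 : ℝ) ^ P.2.card * (1 / 2 : ℝ) ^ (N \ P.1).card := by
  have hc : (((N \ P.1).powerset.filter fun Y => (N \ P.1).card ≤ Y.card + 2 * L).image
      fun Y => (P.1 ∪ N, P.2 ∪ Y)).card ≤ (m + 1) ^ (2 * L) :=
    card_image_le.trans (card_large ((card_le_card sdiff_subset).trans hN))
  unfold wt
  refine (sum_le_card_nsmul _ _
    (2 ^ (2 * L) * (1 / 2 : ℝ) ^ P.2.card * (1 / 2 : ℝ) ^ (N \ P.1).card) ?_).trans ?_
  · intro Q hQ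
    rw [mem_image] at hQ
    obtain ⟨Y, hY, rfl⟩ := hQ
    rw [mem_filter, mem_powerset] at hY
    have hd : Disjoint P.2 Y := by
      rw [disjoint_left]
      intro x hx hxY
      exact (mem_sdiff.1 (hY.1 hxY)).2 (hP hx)
    show (1 / 2 : ℝ) ^ (P.2 ∪ Y).card ≤ _
    rw [card_union_of_disjoint hd, pow_add]
    have h2 : (1 / 2 : ℝ) ^ Y.card ≤ 2 ^ (2 * L) * (1 / 2 : ℝ) ^ (N \ P.1).card := by
      calc (1 / 2 : ℝ) ^ Y.card = 2 ^ (2 * L) * (1 / 2 : ℝ) ^ (Y.card + 2 * L) := by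
            rw [pow_add, mul_comm, mul_assoc, ← mul_pow]
            norm_num
        _ ≤ 2 ^ (2 * L) * (1 / 2 : ℝ) ^ (N \ P.1).card :=
            mul_le_mul_of_nonneg_left
              (pow_le_pow_of_le_one (by norm_num) (by norm_num) hY.2) (by positivity)
    calc (1 / 2 : ℝ) ^ P.2.card * (1 / 2 : ℝ) ^ Y.card
        ≤ (1 / 2 : ℝ) ^ P.2.card * (2 ^ (2 * L) * (1 / 2 : ℝ) ^ (N \ P.1).card) :=
          mul_le_mul_of_nonneg_left h2 (by positivity)
      _ = _ := by ring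
  · rw [nsmul_eq_mul]
    have h3 : ((((N \ P.1).powerset.filter fun Y => (N \ P.1).card ≤ Y.card + 2 * L).image
        fun Y => (P.1 ∪ N, P.2 ∪ Y)).card : ℝ) ≤ (m + 1 : ℝ) ^ (2 * L) := by
      exact_mod_cast hc
    refine (mul_le_mul_of_nonneg_right h3 (by positivity)).trans (le_of_eq (by ring))

theorem child_wt {F : Finset (Finset V)} (had : AlmostDisjoint F) {m L W q : ℕ} {δ : ℝ}
    (hm : ∀ A ∈ F, A.card ≤ m) (hq : ∀ A ∈ F, 4 * q ≤ A.card)
    (hδ : ∀ p, ∑ A ∈ F with p ∈ A, (1 / 2 : ℝ) ^ A.card ≤ δ) (hδ0 : 0 ≤ δ)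
    (Z : Finset V) (P : Finset V × Finset V) (hP : P.2 ⊆ P.1) (hW : P.1.card ≤ W)
    (hZ : Z.card ≤ W) : wt (child F L Z P) ≤ kc m L W δ q * (1 / 2 : ℝ) ^ P.2.card := by
  have hsum : ∑ N ∈ F.filter (fun N => (N ∩ Z).Nonempty ∧ 4 * (N ∩ P.1).card ≤ 3 * N.card),
      (1 / 2 : ℝ) ^ (N \ P.1).card ≤ 2 * W * δ + W ^ 2 * (1 / 2 : ℝ) ^ q := by
    have hpt : ∀ N ∈ F.filter (fun N => (N ∩ Z).Nonempty ∧ 4 * (N ∩ P.1).card ≤ 3 * N.card),
        (1 / 2 : ℝ) ^ (N \ P.1).card ≤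
          (∑ z ∈ Z, if z ∈ N then 2 * (1 / 2 : ℝ) ^ N.card else 0) +
            (if 2 ≤ (N ∩ P.1).card then (1 / 2 : ℝ) ^ q else 0) := by
      intro N hN
      rw [mem_filter] at hN
      obtain ⟨hNF, ⟨z, hz⟩, h4⟩ := hN
      rw [mem_inter] at hz
      have hcard := card_sdiff_add_card_inter N P.1
      by_cases h2 : 2 ≤ (N ∩ P.1).card
      · rw [if_pos h2]
        have hqN := hq N hNF
        have h5 : q ≤ (N \ P.1).card := by omega
        have h6 : (0 : ℝ) ≤ ∑ z ∈ Z, if z ∈ N then 2 * (1 / 2 : ℝ) ^ N.card else 0 :=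
          sum_nonneg fun z _ => by split_ifs <;> positivity
        have h7 := pow_le_pow_of_le_one (a := (1 / 2 : ℝ)) (by norm_num) (by norm_num) h5
        linarith
      · rw [if_neg h2, add_zero]
        have h5 : N.card ≤ (N \ P.1).card + 1 := by omega
        have h6 : (2 : ℝ) * (1 / 2 : ℝ) ^ N.card ≤
            ∑ z ∈ Z, if z ∈ N then 2 * (1 / 2 : ℝ) ^ N.card else 0 := by
          have h8 := single_le_sum (f := fun z => if z ∈ N then 2 * (1 / 2 : ℝ) ^ N.card else 0)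
            (s := Z) (fun z _ => by split_ifs <;> positivity) hz.2
          simpa [hz.1] using h8
        refine le_trans ?_ h6
        have h9 := pow_le_pow_of_le_one (a := (1 / 2 : ℝ)) (by norm_num) (by norm_num) h5
        rw [pow_succ] at h9
        linarith
    have hA : ∑ N ∈ F, ∑ z ∈ Z, (if z ∈ N then 2 * (1 / 2 : ℝ) ^ N.card else 0) ≤ 2 * W * δ := by
      rw [sum_comm]
      have h1 : ∀ z ∈ Z, ∑ N ∈ F, (if z ∈ N then 2 * (1 / 2 : ℝ) ^ N.card else 0) ≤ 2 * δ := by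
        intro z _
        rw [← sum_filter, ← mul_sum]
        exact mul_le_mul_of_nonneg_left (hδ z) (by norm_num)
      refine (sum_le_card_nsmul _ _ _ h1).trans ?_
      rw [nsmul_eq_mul]
      have h2 : (Z.card : ℝ) ≤ W := by exact_mod_cast hZ
      have h3 := mul_le_mul_of_nonneg_right h2 (show (0 : ℝ) ≤ 2 * δ by linarith)
      linarith
    have hB : ∑ N ∈ F, (if 2 ≤ (N ∩ P.1).card then (1 / 2 : ℝ) ^ q else 0) ≤
        W ^ 2 * (1 / 2 : ℝ) ^ q := by
      rw [← sum_filter, sum_const, nsmul_eq_mul]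
      refine mul_le_mul_of_nonneg_right ?_ (by positivity)
      have h1 : (F.filter fun N => 2 ≤ (N ∩ P.1).card).card ≤ W ^ 2 :=
        (card_two had P.1).trans (Nat.pow_le_pow_left hW 2)
      exact_mod_cast h1
    refine (sum_le_sum hpt).trans ?_
    refine (sum_le_sum_of_subset_of_nonneg (filter_subset _ F) ?_).trans ?_
    · intro N _ _
      refine add_nonneg (sum_nonneg fun z _ => ?_) ?_
      · split_ifs <;> positivity
      · split_ifs <;> positivity
    · rw [sum_add_distrib]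
      exact add_le_add hA hB
  unfold child
  refine (wt_biUnion_le _ _).trans ?_
  refine (sum_le_sum fun N hN => wt_line (hm N (mem_filter.1 hN).1) P hP).trans ?_
  rw [← mul_sum]
  refine (mul_le_mul_of_nonneg_left hsum (by positivity)).trans (le_of_eq ?_)
  unfold kc
  ring

end Pool.Agent.WL76
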