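import Pool.Agent.WL76.Sub
import Pool.Agent.WL76.Child

/-!
# Almost disjoint families: total weight of the certificates
-/

namespace Pool.Agent.WL76

open Finset

variable {V : Type} [Fintype V] [DecidableEq V]

theorem kc_nonneg (m L W q : ℕ) {δ : ℝ} (hδ : 0 ≤ δ) : 0 ≤ kc m L W δ q := by
  unfold kc
  positivity

theorem kn_nonneg (m L W t q : ℕ) {δ : ℝ} (hδ : 0 ≤ δ) : 0 ≤ kn m L W t δ q := by
  unfold kn
  have := kc_nonneg m L W q hδ
  positivity

theorem childs_wt {F : Finset (Finset V)} (had : AlmostDisjoint F) {m L W q : ℕ} {δ : ℝ}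
    (hm : ∀ A ∈ F, A.card ≤ m) (hq : ∀ A ∈ F, 4 * q ≤ A.card)
    (hδ : ∀ p, ∑ A ∈ F with p ∈ A, (1 / 2 : ℝ) ^ A.card ≤ δ) (hδ0 : 0 ≤ δ)
    (Z : Finset V) (P : Finset V × Finset V) (hP : P.2 ⊆ P.1) (k : ℕ)
    (hW : P.1.card + k * m ≤ W) (hZ : Z.card ≤ W) :
    wt (childs F L Z k P) ≤ kc m L W δ q ^ k * (1 / 2 : ℝ) ^ P.2.card := by
  induction k with
  | zero => simp [childs, wt]
  | succ k ih =>
    have hkm : (k + 1) * m = k * m + m := by ring
    have h1 := ih (by omega)
    have h0 := kc_nonneg m L W q hδ0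
    show wt ((childs F L Z k P).biUnion (child F L Z)) ≤ _
    refine (wt_biUnion_le _ _).trans ?_
    calc ∑ Q ∈ childs F L Z k P, wt (child F L Z Q)
        ≤ ∑ Q ∈ childs F L Z k P, kc m L W δ q * (1 / 2 : ℝ) ^ Q.2.card := by
          apply sum_le_sum
          intro Q hQ
          obtain ⟨h2, h3, -⟩ := childs_sub hm hP k Q hQ
          exact child_wt had hm hq hδ hδ0 Z Q h2 (by omega) hZ
      _ = kc m L W δ q * wt (childs F L Z k P) := by
          unfold wt
          rw [mul_sum]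
      _ ≤ kc m L W δ q * (kc m L W δ q ^ k * (1 / 2 : ℝ) ^ P.2.card) :=
          mul_le_mul_of_nonneg_left h1 h0
      _ = kc m L W δ q ^ (k + 1) * (1 / 2 : ℝ) ^ P.2.card := by ring

/-- the number of lines through a point -/
theorem card_through {F : Finset (Finset V)} {m : ℕ} {δ : ℝ} (hm : ∀ A ∈ F, A.card ≤ m)
    (hδ : ∀ p, ∑ A ∈ F with p ∈ A, (1 / 2 : ℝ) ^ A.card ≤ δ) (hδ1 : δ ≤ 1) (p : V) :
    (F.filter fun A => p ∈ A).card ≤ 2 ^ m := by
  have h1 : ((F.filter fun A => p ∈ A).card : ℝ) * (1 / 2 : ℝ) ^ m ≤ 1 := by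
    calc ((F.filter fun A => p ∈ A).card : ℝ) * (1 / 2 : ℝ) ^ m
        = ∑ A ∈ F with p ∈ A, (1 / 2 : ℝ) ^ m := by rw [sum_const, nsmul_eq_mul]
      _ ≤ ∑ A ∈ F with p ∈ A, (1 / 2 : ℝ) ^ A.card := by
          apply sum_le_sum
          intro A hA
          rw [mem_filter] at hA
          exact pow_le_pow_of_le_one (by norm_num) (by norm_num) (hm A hA.1)
      _ ≤ δ := hδ p
      _ ≤ 1 := hδ1
  have h2 : ((F.filter fun A => p ∈ A).card : ℝ) ≤ 2 ^ m := by
    have h3 : ((F.filter fun A => p ∈ A).card : ℝ) =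
        (((F.filter fun A => p ∈ A).card : ℝ) * (1 / 2 : ℝ) ^ m) * 2 ^ m := by
      rw [mul_assoc, ← mul_pow]
      norm_num
    rw [h3]
    calc (((F.filter fun A => p ∈ A).card : ℝ) * (1 / 2 : ℝ) ^ m) * 2 ^ m ≤ 1 * 2 ^ m :=
          mul_le_mul_of_nonneg_right h1 (by positivity)
      _ = 2 ^ m := one_mul _
  exact_mod_cast h2

theorem card_meet {F : Finset (Finset V)} {m : ℕ} {δ : ℝ} (hm : ∀ A ∈ F, A.card ≤ m)
    (hδ : ∀ p, ∑ A ∈ F with p ∈ A, (1 / 2 : ℝ) ^ A.card ≤ δ) (hδ1 : δ ≤ 1) (C : Finset V) :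
    (F.filter fun B => (B ∩ C).Nonempty).card ≤ C.card * 2 ^ m := by
  have h1 : (F.filter fun B => (B ∩ C).Nonempty) ⊆ C.biUnion fun p => F.filter fun A => p ∈ A := by
    intro B hB
    rw [mem_filter] at hB
    obtain ⟨p, hp⟩ := hB.2
    rw [mem_inter] at hp
    rw [mem_biUnion]
    exact ⟨p, hp.2, by rw [mem_filter]; exact ⟨hB.1, hp.1⟩⟩
  refine (card_le_card h1).trans ?_
  apply card_biUnion_le_card_mul
  intro p _
  exact card_through hm hδ hδ1 p

theorem next_wt {F : Finset (Finset V)} (had : AlmostDisjoint F) {m L t W q : ℕ} {δ : ℝ}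
    (hm : ∀ A ∈ F, A.card ≤ m) (hq : ∀ A ∈ F, 4 * q ≤ A.card)
    (hδ : ∀ p, ∑ A ∈ F with p ∈ A, (1 / 2 : ℝ) ^ A.card ≤ δ) (hδ0 : 0 ≤ δ) (hδ1 : δ ≤ 1)
    (P : Finset V × Finset V) (hP : P.2 ⊆ P.1) (ht : 1 ≤ t)
    (hW : P.1.card + t * m ≤ W) (hc : (clo F P.1).card ≤ W) :
    wt (next F L t P) ≤ kn m L W t δ q * (1 / 2 : ℝ) ^ P.2.card := by
  have hmt : m ≤ t * m := Nat.le_mul_of_pos_left m ht
  have h0 := kc_nonneg m L W q hδ0
  have hp : (0 : ℝ) ≤ (1 / 2 : ℝ) ^ P.2.card := by positivity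
  have h1 := child_wt (L := L) had hm hq hδ hδ0 (clo F P.1) P hP (by omega) hc
  have h2 : wt ((F.filter fun B => (B ∩ clo F P.1).Nonempty).biUnion
      fun B => childs F L B t P) ≤ W * 2 ^ m * kc m L W δ q ^ t * (1 / 2 : ℝ) ^ P.2.card := by
    refine (wt_biUnion_le _ _).trans ?_
    calc ∑ B ∈ F.filter (fun B => (B ∩ clo F P.1).Nonempty), wt (childs F L B t P)
        ≤ ∑ B ∈ F.filter (fun B => (B ∩ clo F P.1).Nonempty),
            kc m L W δ q ^ t * (1 / 2 : ℝ) ^ P.2.card := by
          apply sum_le_sum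
          intro B hB
          rw [mem_filter] at hB
          have := hm B hB.1
          exact childs_wt had hm hq hδ hδ0 B P hP t hW (by omega)
      _ = ((F.filter (fun B => (B ∩ clo F P.1).Nonempty)).card : ℝ) *
            (kc m L W δ q ^ t * (1 / 2 : ℝ) ^ P.2.card) := by rw [sum_const, nsmul_eq_mul]
      _ ≤ (W * 2 ^ m) * (kc m L W δ q ^ t * (1 / 2 : ℝ) ^ P.2.card) := by
          apply mul_le_mul_of_nonneg_right
          · have h3 := card_meet hm hδ hδ1 (clo F P.1)
            have h4 : (F.filter (fun B => (B ∩ clo F P.1).Nonempty)).card ≤ W * 2 ^ m :=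
              h3.trans (Nat.mul_le_mul_right _ hc)
            exact_mod_cast h4
          · positivity
      _ = _ := by ring
  have h3 : wt ((F.filter fun B => 2 ≤ (B ∩ clo F P.1).card).biUnion fun B => child F L B P) ≤
      W ^ 2 * kc m L W δ q * (1 / 2 : ℝ) ^ P.2.card := by
    refine (wt_biUnion_le _ _).trans ?_
    calc ∑ B ∈ F.filter (fun B => 2 ≤ (B ∩ clo F P.1).card), wt (child F L B P)
        ≤ ∑ B ∈ F.filter (fun B => 2 ≤ (B ∩ clo F P.1).card),
            kc m L W δ q * (1 / 2 : ℝ) ^ P.2.card := by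
          apply sum_le_sum
          intro B hB
          rw [mem_filter] at hB
          have := hm B hB.1
          exact child_wt had hm hq hδ hδ0 B P hP (by omega) (by omega)
      _ = ((F.filter (fun B => 2 ≤ (B ∩ clo F P.1).card)).card : ℝ) *
            (kc m L W δ q * (1 / 2 : ℝ) ^ P.2.card) := by rw [sum_const, nsmul_eq_mul]
      _ ≤ (W ^ 2) * (kc m L W δ q * (1 / 2 : ℝ) ^ P.2.card) := by
          apply mul_le_mul_of_nonneg_right
          · have h3 := card_two had (clo F P.1)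
            have h4 : (F.filter (fun B => 2 ≤ (B ∩ clo F P.1).card)).card ≤ W ^ 2 :=
              h3.trans (Nat.pow_le_pow_left hc 2)
            exact_mod_cast h4
          · positivity
      _ = _ := by ring
  unfold next
  have h4 := wt_union_le (child F L (clo F P.1) P ∪
    ((F.filter fun B => (B ∩ clo F P.1).Nonempty).biUnion fun B => childs F L B t P))
    ((F.filter fun B => 2 ≤ (B ∩ clo F P.1).card).biUnion fun B => child F L B P)
  have h5 := wt_union_le (child F L (clo F P.1) P)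
    ((F.filter fun B => (B ∩ clo F P.1).Nonempty).biUnion fun B => childs F L B t P)
  have h6 : kn m L W t δ q * (1 / 2 : ℝ) ^ P.2.card =
      kc m L W δ q * (1 / 2 : ℝ) ^ P.2.card +
      W * 2 ^ m * kc m L W δ q ^ t * (1 / 2 : ℝ) ^ P.2.card +
      W ^ 2 * kc m L W δ q * (1 / 2 : ℝ) ^ P.2.card := by
    unfold kn
    ring
  rw [h6]
  linarith

theorem wt_zero {F : Finset (Finset V)} {m L t : ℕ} (hm : ∀ A ∈ F, A.card ≤ m) :
    wt (T F L t 0) ≤ F.card * 2 ^ m := by
  show wt (F.biUnion fun A =>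
      (A.powerset.filter fun X => A.card ≤ X.card + 2 * L).image fun X => (A, X)) ≤ _
  refine (wt_biUnion_le _ _).trans ?_
  calc ∑ A ∈ F, wt ((A.powerset.filter fun X => A.card ≤ X.card + 2 * L).image
        fun X => (A, X)) ≤ ∑ A ∈ F, (2 : ℝ) ^ m := by
        apply sum_le_sum
        intro A hA
        unfold wt
        calc ∑ P ∈ (A.powerset.filter fun X => A.card ≤ X.card + 2 * L).image
              (fun X => (A, X)), (1 / 2 : ℝ) ^ P.2.card
            ≤ ∑ P ∈ (A.powerset.filter fun X => A.card ≤ X.card + 2 * L).image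
              (fun X => (A, X)), (1 : ℝ) := by
              apply sum_le_sum
              intro P _
              exact pow_le_one₀ (by norm_num) (by norm_num)
          _ = (((A.powerset.filter fun X => A.card ≤ X.card + 2 * L).image
              (fun X => (A, X))).card : ℝ) := by rw [sum_const, nsmul_eq_mul, mul_one]
          _ ≤ (2 : ℝ) ^ m := by
              have h1 : ((A.powerset.filter fun X => A.card ≤ X.card + 2 * L).image
                  (fun X => (A, X))).card ≤ 2 ^ m := by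
                refine card_image_le.trans ((card_filter_le _ _).trans ?_)
                rw [card_powerset]
                exact Nat.pow_le_pow_right (by norm_num) (hm A hA)
              exact_mod_cast h1
    _ = F.card * 2 ^ m := by rw [sum_const, nsmul_eq_mul]

theorem cert_sum {F : Finset (Finset V)} (had : AlmostDisjoint F) {m L t s W q : ℕ} {δ : ℝ}
    (hm : ∀ A ∈ F, A.card ≤ m) (hq : ∀ A ∈ F, 4 * q ≤ A.card) (h2 : ∀ A ∈ F, 2 ≤ A.card)
    (hδ : ∀ p, ∑ A ∈ F with p ∈ A, (1 / 2 : ℝ) ^ A.card ≤ δ) (hδ0 : 0 ≤ δ) (hδ1 : δ ≤ 1)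
    (ht : 1 ≤ t) (hW : (1 + (s + 1) * t) * m + ((1 + (s + 1) * t) * m) ^ 2 * m ≤ W) :
    ∑ X ∈ cert F L t s, (1 / 2 : ℝ) ^ X.card ≤ F.card * 2 ^ m * kn m L W t δ q ^ s := by
  have hkn := kn_nonneg m L W t q hδ0
  have key : ∀ k, k ≤ s → wt (T F L t k) ≤ F.card * 2 ^ m * kn m L W t δ q ^ k := by
    intro k
    induction k with
    | zero =>
      intro _
      simpa using wt_zero (L := L) (t := t) hm
    | succ k ih =>
      intro hk
      have h1 := ih (by omega)
      show wt ((T F L t k).biUnion (next F L t)) ≤ _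
      refine (wt_biUnion_le _ _).trans ?_
      calc ∑ P ∈ T F L t k, wt (next F L t P)
          ≤ ∑ P ∈ T F L t k, kn m L W t δ q * (1 / 2 : ℝ) ^ P.2.card := by
            apply sum_le_sum
            intro P hP
            obtain ⟨h3, h4⟩ := T_sub ht hm hP
            have hkt : (1 + (k + 1) * t) * m = (1 + k * t) * m + t * m := by ring
            have hle : (1 + (k + 1) * t) * m ≤ (1 + (s + 1) * t) * m := by gcongr; omega
            have h5 : P.1.card ≤ (1 + (s + 1) * t) * m := by omega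
            refine next_wt had hm hq hδ hδ0 hδ1 P h3 ht (by omega) ?_
            refine (clo_card had hm h2 P.1).trans (le_trans ?_ hW)
            gcongr
        _ = kn m L W t δ q * wt (T F L t k) := by
            unfold wt
            rw [mul_sum]
        _ ≤ kn m L W t δ q * (F.card * 2 ^ m * kn m L W t δ q ^ k) :=
            mul_le_mul_of_nonneg_left h1 hkn
        _ = F.card * 2 ^ m * kn m L W t δ q ^ (k + 1) := by ring
  refine le_trans ?_ (key s le_rfl)
  unfold cert wt
  calc ∑ X ∈ (T F L t s).image Prod.snd, (1 / 2 : ℝ) ^ X.card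
      ≤ ∑ X ∈ (T F L t s).image Prod.snd,
          ∑ P ∈ (T F L t s).filter (fun P => P.2 = X), (1 / 2 : ℝ) ^ P.2.card := by
        apply sum_le_sum
        intro X hX
        rw [mem_image] at hX
        obtain ⟨P, hP, rfl⟩ := hX
        have h3 : P ∈ (T F L t s).filter (fun R => R.2 = P.2) := by
          rw [mem_filter]
          exact ⟨hP, rfl⟩
        exact single_le_sum (f := fun R : Finset V × Finset V => (1 / 2 : ℝ) ^ R.2.card)
          (fun R _ => by positivity) h3
    _ = ∑ P ∈ T F L t s, (1 / 2 : ℝ) ^ P.2.card :=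
        sum_fiberwise_of_maps_to (fun P hP => mem_image_of_mem Prod.snd hP) _

end Pool.Agent.WL76
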