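import Pool.Agent.WL76.Sub
import Pool.Agent.WL76.Total
import Pool.Agent.WL76.Params
import Pool.Agent.WL76.Init
import Pool.Agent.WL76.Step
import Pool.Agent.WL76.Explore
import Pool.Agent.WL76.Stuck
import Pool.Agent.WL76.Cluster

/-!
# Breaker's strategy for almost disjoint families: the abstract theorem
-/

namespace Pool.Agent.WL76

open Finset

theorem abs_kn_nonneg {m L W t q : ℕ} {δ : ℝ} (hδ0 : 0 ≤ δ) : 0 ≤ kn m L W t δ q := by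
  unfold kn kc
  positivity

theorem abs_comp {V : Type} [Fintype V] [DecidableEq V] {F : Finset (Finset V)}
    (had : AlmostDisjoint F) {m L t s W : ℕ} (ht : 1 ≤ t) (hm : ∀ A ∈ F, A.card ≤ m)
    (h2 : ∀ A ∈ F, 2 ≤ A.card) (h4 : ∀ A ∈ F, 4 * t ≤ A.card)
    (hW : (1 + (s + 1) * t) * m + ((1 + (s + 1) * t) * m) ^ 2 * m ≤ W)
    (M₁ S : Finset V) (hc : ∀ X ∈ cert F L t s, ¬ X ⊆ M₁) (hOn : OnE F L M₁ S)
    (B : Finset V) (hB : B ∈ heavy F (t + 2) S) :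
    (comp F (t + 2) S B).card ≤ W ^ 2 := by
  have hcardB : t + 2 ≤ (B ∩ S).card := by
    unfold heavy at hB
    exact (mem_filter.1 hB).2
  obtain ⟨p, hp⟩ := card_pos.1 (show 0 < (B ∩ S).card by omega)
  obtain ⟨A₀, hA₀, hpA, hE⟩ := hOn p (mem_inter.1 hp).2
  obtain ⟨k, hk, P, hPT, hAP, hPM, hstuck⟩ := explore ht hc hA₀ hE
  have h5 := T_sub ht hm hPT
  have hBU : (B ∩ S ∩ P.1).Nonempty := ⟨p, mem_inter.2 ⟨hp, hAP hpA⟩⟩
  have hcl : (comp F (t + 2) S B).card ≤ (clo F P.1).card ^ 2 := by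
    refine cluster had hOn (U := P.1) ?_ ?_ ?_ hB hBU
    · intro N hN hNE hmeet
      exact stuck0 hPM hstuck hN hNE hmeet
    · intro B' hB' hB1 𝒩 h𝒩 hcard hfresh
      exact stuck1 had h4 hPM hstuck hB' hB1 h𝒩 hcard hfresh
    · intro B' hB' hB2 N hN hNE hmeet
      exact stuck2 hPM hstuck hB' hB2 hN hNE hmeet
  refine hcl.trans (Nat.pow_le_pow_left ?_ 2)
  refine (clo_card had hm h2 P.1).trans (le_trans ?_ hW)
  have h6 : P.1.card ≤ (1 + (s + 1) * t) * m := by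
    refine h5.2.trans (Nat.mul_le_mul_right m ?_)
    have : k * t ≤ (s + 1) * t := Nat.mul_le_mul_right t (by omega)
    omega
  exact Nat.add_le_add h6 (Nat.mul_le_mul_right m (Nat.pow_le_pow_left h6 2))

theorem abstract (K : ℕ) (hK : 1 ≤ K) : ∃ m₀ : ℕ, ∀ m ≥ m₀,
    ∀ (V : Type) [Fintype V] [DecidableEq V] (F : Finset (Finset V)), AlmostDisjoint F →
      (∀ A ∈ F, A.card ≤ m) → (∀ A ∈ F, m ≤ K * A.card) → F.card ≤ 2 ^ (K * m ^ 2) →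
      (∀ p, ∑ A ∈ F with p ∈ A, (1 / 2 : ℝ) ^ A.card ≤ (1 / 2 : ℝ) ^ (m / K)) →
      ∃ I : Finset V → Finset V → Prop, I ∅ ∅ ∧
        (∀ M Br, I M Br → ∀ A ∈ F, ¬ A ⊆ M) ∧
        ∀ M Br, I M Br → ∀ x, x ∉ M → x ∉ Br →
          (∀ A ∈ F, ¬ A ⊆ insert x M) ∧
          ((∃ y, y ∉ insert x M ∧ y ∉ Br) →
            ∃ y, y ∉ insert x M ∧ y ∉ Br ∧ I (insert x M) (insert y Br)) := by
  obtain ⟨m₀, hpar⟩ := params K hK
  refine ⟨m₀, fun m hmm V _ _ F had hm hmK hF hδ => ?_⟩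
  obtain ⟨p1, p2, p3, p4, p5, p6, p7⟩ := hpar m hmm
  have hK0 : 0 < K := hK
  have hbig : ∀ A ∈ F, 64 * K + 2 ≤ A.card := by
    intro A hA
    have h1 : K * (64 * K + 2) ≤ K * A.card := by
      calc K * (64 * K + 2) = 64 * K ^ 2 + 2 * K := by ring
        _ ≤ m := p2
        _ ≤ K * A.card := hmK A hA
    exact Nat.le_of_mul_le_mul_left h1 hK0
  have h2 : ∀ A ∈ F, 2 ≤ A.card := fun A hA => by
    have := hbig A hA
    omega
  have h4 : ∀ A ∈ F, 4 * (16 * K) ≤ A.card := fun A hA => by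
    have := hbig A hA
    omega
  have hLA : ∀ A ∈ F, Nat.sqrt m < A.card := by
    intro A hA
    have h1 : K * Nat.sqrt m < K * A.card := lt_of_lt_of_le p3 (hmK A hA)
    exact Nat.lt_of_mul_lt_mul_left h1
  have hq : ∀ A ∈ F, 4 * (m / (4 * K)) ≤ A.card := by
    intro A hA
    have h1 : 4 * K * (m / (4 * K)) ≤ m := Nat.mul_div_le m (4 * K)
    have h3 : K * (4 * (m / (4 * K))) ≤ K * A.card := by
      calc K * (4 * (m / (4 * K))) = 4 * K * (m / (4 * K)) := by ring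
        _ ≤ m := h1
        _ ≤ K * A.card := hmK A hA
    exact Nat.le_of_mul_le_mul_left h3 hK0
  have ht : 1 ≤ 16 * K := by omega
  have hδ0 : (0 : ℝ) ≤ (1 / 2 : ℝ) ^ (m / K) := by positivity
  have hδ1 : (1 / 2 : ℝ) ^ (m / K) ≤ 1 := pow_le_one₀ (by norm_num) (by norm_num)
  have hsum : ∑ X ∈ cert F (Nat.sqrt m) (16 * K) (64 * K ^ 2 * m), (1 / 2 : ℝ) ^ X.card <
      1 / 2 := by
    have h5 := cert_sum (L := Nat.sqrt m) (s := 64 * K ^ 2 * m) had hm hq h2 hδ hδ0 hδ1 ht p6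
    refine lt_of_le_of_lt h5 (lt_of_le_of_lt ?_ p7)
    have h6 : 0 ≤ kn m (Nat.sqrt m) (Wb K m) (16 * K) ((1 / 2 : ℝ) ^ (m / K)) (m / (4 * K)) :=
      abs_kn_nonneg hδ0
    have h7 : (F.card : ℝ) ≤ 2 ^ (K * m ^ 2) := by exact_mod_cast hF
    have h8 : (0 : ℝ) ≤ kn m (Nat.sqrt m) (Wb K m) (16 * K) ((1 / 2 : ℝ) ^ (m / K))
        (m / (4 * K)) ^ (64 * K ^ 2 * m) := pow_nonneg h6 _
    exact mul_le_mul_of_nonneg_right (mul_le_mul_of_nonneg_right h7 (by positivity)) h8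
  have hcomp : ∀ M₁ S : Finset V,
      (∀ X ∈ cert F (Nat.sqrt m) (16 * K) (64 * K ^ 2 * m), ¬ X ⊆ M₁) →
      OnE F (Nat.sqrt m) M₁ S → ∀ B ∈ heavy F (16 * K + 2) S,
      (comp F (16 * K + 2) S B).card ≤ (Wb K m) ^ 2 := fun M₁ S hc hOn B hB =>
    abs_comp had ht hm h2 h4 p6 M₁ S hc hOn B hB
  have hCL : (2 : ℝ) ^ (16 * K + 3) * (((Wb K m) ^ 2 : ℕ) : ℝ) < 2 ^ (Nat.sqrt m) := by
    rw [Nat.cast_pow]
    exact p5
  refine ⟨Inv F (Nat.sqrt m) (16 * K) (64 * K ^ 2 * m), inv_init hsum hLA, ?_, ?_⟩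
  · intro M Br hI
    exact inv_fin p4 hCL hcomp hI
  · intro M Br hI x hxM hxB
    exact inv_step p4 (by omega) hCL hcomp hI hxM hxB

end Pool.Agent.WL76
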