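import Pool.Agent.WL76.Defs

/-!
# The big game: Erdős-Selfridge with dead points
-/

set_option autoImplicit false

namespace Pool.Agent.WL76

open Finset

variable {V : Type} [Fintype V] [DecidableEq V]

private theorem pot_nonneg_term (X M : Finset V) : (0 : ℝ) ≤ (1 / 2 : ℝ) ^ (X \ M).card := by
  positivity

private theorem degp_le_pot (𝒳 : Finset (Finset V)) (M D : Finset V) (x : V) :
    degp 𝒳 M D x ≤ pot 𝒳 M D := by
  unfold degp pot
  refine Finset.sum_le_sum_of_subset_of_nonneg ?_ fun X _ _ => pot_nonneg_term X M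
  intro X hX
  rw [Finset.mem_filter] at hX ⊢
  exact ⟨hX.1, hX.2.1⟩

private theorem degp_dead {𝒳 : Finset (Finset V)} {M D D' : Finset V} (h : D ⊆ D') (x : V) :
    degp 𝒳 M D' x ≤ degp 𝒳 M D x := by
  unfold degp
  refine Finset.sum_le_sum_of_subset_of_nonneg ?_ fun X _ _ => pot_nonneg_term X M
  intro X hX
  rw [Finset.mem_filter] at hX ⊢
  exact ⟨hX.1, hX.2.1.mono_right h, hX.2.2⟩

theorem big_init {𝒳 : Finset (Finset V)} (h : ∑ X ∈ 𝒳, (1 / 2 : ℝ) ^ X.card < 1 / 2) :
    BigOK 𝒳 ∅ ∅ := by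
  have hp : pot 𝒳 (∅ : Finset V) ∅ = ∑ X ∈ 𝒳, (1 / 2 : ℝ) ^ X.card := by
    unfold pot
    refine Finset.sum_congr ?_ fun X _ => by rw [Finset.sdiff_empty]
    rw [Finset.filter_true_of_mem]
    intro X _
    exact Finset.disjoint_empty_right X
  refine ⟨by rw [hp]; linarith, fun x _ _ => ?_⟩
  have := degp_le_pot 𝒳 (∅ : Finset V) ∅ x
  rw [hp] at this ⊢
  linarith

theorem big_maker {𝒳 : Finset (Finset V)} {M D : Finset V} (h : BigOK 𝒳 M D) {x : V}
    (hxM : x ∉ M) (hxD : x ∉ D) : pot 𝒳 (insert x M) D < 1 := by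
  refine lt_of_le_of_lt (le_of_eq ?_) (h.2 x hxM hxD)
  unfold pot degp
  have h1 : (𝒳.filter fun X => Disjoint X D ∧ x ∈ X) =
      (𝒳.filter fun X => Disjoint X D).filter fun X => x ∈ X := by
    rw [Finset.filter_filter]
  rw [h1, Finset.sum_filter (s := 𝒳.filter fun X => Disjoint X D), ← Finset.sum_add_distrib]
  refine Finset.sum_congr rfl fun X _ => ?_
  by_cases hx : x ∈ X
  · rw [if_pos hx]
    have h2 : (X \ M).card = (X \ insert x M).card + 1 := by
      have h3 : X \ M = insert x (X \ insert x M) := by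
        ext y
        simp only [Finset.mem_sdiff, Finset.mem_insert, not_or]
        constructor
        · rintro ⟨a, b⟩
          by_cases hy : y = x
          · exact Or.inl hy
          · exact Or.inr ⟨a, hy, b⟩
        · rintro (rfl | ⟨a, _, b⟩)
          · exact ⟨hx, hxM⟩
          · exact ⟨a, b⟩
      rw [h3, Finset.card_insert_of_notMem]
      intro hcon
      exact (Finset.mem_sdiff.1 hcon).2 (Finset.mem_insert_self x M)
    rw [h2, pow_succ]
    ring
  · rw [if_neg hx, add_zero]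
    congr 2
    ext y
    simp only [Finset.mem_sdiff, Finset.mem_insert, not_or]
    constructor
    · rintro ⟨a, _, b⟩
      exact ⟨a, b⟩
    · rintro ⟨a, b⟩
      exact ⟨a, fun hy => hx (hy ▸ a), b⟩

theorem pot_dead {𝒳 : Finset (Finset V)} {M D D' : Finset V} (h : D ⊆ D') :
    pot 𝒳 M D' ≤ pot 𝒳 M D := by
  unfold pot
  refine Finset.sum_le_sum_of_subset_of_nonneg ?_ fun X _ _ => pot_nonneg_term X M
  intro X hX
  rw [Finset.mem_filter] at hX ⊢
  exact ⟨hX.1, hX.2.mono_right h⟩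

theorem big_dead {𝒳 : Finset (Finset V)} {M D D' : Finset V} (h : D ⊆ D') (hb : BigOK 𝒳 M D) :
    BigOK 𝒳 M D' := by
  refine ⟨lt_of_le_of_lt (pot_dead h) hb.1, fun x hxM hxD => ?_⟩
  have h1 := hb.2 x hxM fun hx => hxD (h hx)
  have h2 := degp_dead (𝒳 := 𝒳) (M := M) h x
  have h3 := pot_dead (𝒳 := 𝒳) (M := M) h
  linarith

private theorem pot_insert (𝒳 : Finset (Finset V)) (M D : Finset V) (y : V) :
    pot 𝒳 M (insert y D) + degp 𝒳 M D y = pot 𝒳 M D := by
  unfold pot degp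
  have h1 := Finset.sum_filter_add_sum_filter_not (𝒳.filter fun X => Disjoint X D)
    (fun X => y ∈ X) (fun X => (1 / 2 : ℝ) ^ (X \ M).card)
  rw [Finset.filter_filter, Finset.filter_filter] at h1
  rw [← h1, add_comm]
  congr 2
  refine Finset.filter_congr fun X _ => ?_
  rw [Finset.disjoint_insert_right, and_comm]

/-- Breaker's reply in the big game -/
theorem big_reply {𝒳 : Finset (Finset V)} {M D : Finset V} (h : pot 𝒳 M D < 1)
    (hex : ∃ y, y ∉ M ∧ y ∉ D) : ∃ y, y ∉ M ∧ y ∉ D ∧ BigOK 𝒳 M (insert y D) := by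
  classical
  have hne : (univ.filter fun y : V => y ∉ M ∧ y ∉ D).Nonempty := by
    obtain ⟨y, hy⟩ := hex
    exact ⟨y, by rw [Finset.mem_filter]; exact ⟨Finset.mem_univ y, hy⟩⟩
  obtain ⟨y, hy, hmax⟩ := Finset.exists_max_image _ (fun y => degp 𝒳 M D y) hne
  rw [Finset.mem_filter] at hy
  refine ⟨y, hy.2.1, hy.2.2, ?_, ?_⟩
  · exact lt_of_le_of_lt (pot_dead (Finset.subset_insert y D)) h
  · intro x hxM hxD
    rw [Finset.mem_insert, not_or] at hxD
    have h1 := hmax x (by rw [Finset.mem_filter]; exact ⟨Finset.mem_univ x, hxM, hxD.2⟩)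
    have h2 := degp_dead (𝒳 := 𝒳) (M := M) (Finset.subset_insert y D) x
    have h3 := pot_insert 𝒳 M D y
    linarith

theorem big_none {𝒳 : Finset (Finset V)} {M D : Finset V} (h : pot 𝒳 M D < 1)
    (hMD : Disjoint M D) : ∀ X ∈ 𝒳, ¬ X ⊆ M := by
  intro X hX hXM
  have h1 : (1 / 2 : ℝ) ^ (X \ M).card ≤ pot 𝒳 M D := by
    unfold pot
    refine Finset.single_le_sum (f := fun X : Finset V => (1 / 2 : ℝ) ^ (X \ M).card)
      (fun Y _ => pot_nonneg_term Y M) ?_
    rw [Finset.mem_filter]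
    exact ⟨hX, hMD.mono_left hXM⟩
  rw [Finset.sdiff_eq_empty_iff_subset.2 hXM, Finset.card_empty, pow_zero] at h1
  linarith

end Pool.Agent.WL76
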