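import Pool.Agent.WL76.Templ

/-!
# From an invariant of the second player to plays without a weak win
-/

set_option autoImplicit false

namespace Pool.Agent.WL76

open Finset Pool.Agent.WW12

open Classical in
/-- the answer of the second player: `M`, `Br` the points of the players -/
noncomputable def bReply {V : Type} [Fintype V] [DecidableEq V] (I : Finset V → Finset V → Prop) (v : V)
    (M Br : Finset V) : V :=
  if h : ∃ y, y ∉ M ∧ y ∉ Br ∧ I M (insert y Br) then h.choose else v

open Classical in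
/-- the next move after the list `l` -/
noncomputable def bMove {V : Type} [Fintype V] [DecidableEq V] (I : Finset V → Finset V → Prop)
    (σ : List V → V) (l : List V) : V :=
  if Even l.length then σ l else bReply I (σ []) (evPts l) (odPts l)

/-- the first `k` moves -/
noncomputable def bList {V : Type} [Fintype V] [DecidableEq V] (I : Finset V → Finset V → Prop)
    (σ : List V → V) : ℕ → List V
  | 0 => []
  | k + 1 => bList I σ k ++ [bMove I σ (bList I σ k)]

theorem bList_eq {V : Type} [Fintype V] [DecidableEq V] (I : Finset V → Finset V → Prop)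
    (σ : List V → V) (k : ℕ) :
    (List.range k).map (fun j => bMove I σ (bList I σ j)) = bList I σ k := by
  induction k with
  | zero => rfl
  | succ k ih => rw [List.range_succ, List.map_append, ih]; rfl

/-- a play against the strategy `σ` in which the first player gets no member of `𝓕` -/
theorem play_exists {V : Type} [Fintype V] [DecidableEq V] {𝓕 : Finset (Finset V)}
    {I : Finset V → Finset V → Prop} (h0 : I ∅ ∅)
    (hf : ∀ M Br, I M Br → ∀ A ∈ 𝓕, ¬ A ⊆ M)
    (hstep : ∀ M Br, I M Br → ∀ x, x ∉ M → x ∉ Br →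
      (∀ A ∈ 𝓕, ¬ A ⊆ insert x M) ∧
      ((∃ y, y ∉ insert x M ∧ y ∉ Br) →
        ∃ y, y ∉ insert x M ∧ y ∉ Br ∧ I (insert x M) (insert y Br)))
    {σ : List V → V} (hσ : IsStrategy σ) :
    ∃ π : ℕ → V, IsPlay σ π ∧
      ∀ A ∈ 𝓕, ¬ ∀ p ∈ A, ∃ k < Fintype.card V, Even k ∧ π k = p := by
  set π : ℕ → V := fun j => bMove I σ (bList I σ j) with hπ
  have hl : ∀ k, (List.range k).map π = bList I σ k := fun k => bList_eq I σ k
  have hlen : ∀ k, (bList I σ k).length = k := by
    intro k
    rw [← hl k, List.length_map, List.length_range]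
  set M : ℕ → Finset V := fun k => evPts ((List.range k).map π) with hM
  set B : ℕ → Finset V := fun k => odPts ((List.range k).map π) with hB
  have hMmem : ∀ k p, p ∈ M k ↔ ∃ j < k, Even j ∧ π j = p := fun k p => mem_evPts π k p
  have hBmem : ∀ k p, p ∈ B k ↔ ∃ j < k, Odd j ∧ π j = p := fun k p => mem_odPts π k p
  have hπe : ∀ k, Even k → π k = σ ((List.range k).map π) := by
    intro k hk
    rw [hl k]
    show bMove I σ (bList I σ k) = _
    rw [bMove, hlen, if_pos hk]
  have hπo : ∀ k, Odd k → π k = bReply I (σ []) (M k) (B k) := by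
    intro k hk
    show bMove I σ (bList I σ k) = _
    rw [bMove, hlen, if_neg (Nat.not_even_iff_odd.2 hk), hM, hB]
    simp only [hl]
  have hMe : ∀ k, Even k → M (k + 1) = insert (π k) (M k) := by
    intro k hk
    ext p
    rw [hMmem, mem_insert, hMmem]
    constructor
    · rintro ⟨j, hj, hj2, hj3⟩
      rcases Nat.lt_succ_iff_lt_or_eq.1 hj with h | h
      · exact Or.inr ⟨j, h, hj2, hj3⟩
      · subst h
        exact Or.inl hj3.symm
    · rintro (rfl | ⟨j, hj, hj2, hj3⟩)
      · exact ⟨k, by omega, hk, rfl⟩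
      · exact ⟨j, by omega, hj2, hj3⟩
  have hMo : ∀ k, Odd k → M (k + 1) = M k := by
    intro k hk
    ext p
    rw [hMmem, hMmem]
    constructor
    · rintro ⟨j, hj, hj2, hj3⟩
      rcases Nat.lt_succ_iff_lt_or_eq.1 hj with h | h
      · exact ⟨j, h, hj2, hj3⟩
      · subst h
        exact absurd hj2 (Nat.not_even_iff_odd.2 hk)
    · rintro ⟨j, hj, hj2, hj3⟩
      exact ⟨j, by omega, hj2, hj3⟩
  have hBe : ∀ k, Even k → B (k + 1) = B k := by
    intro k hk
    ext p
    rw [hBmem, hBmem]
    constructor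
    · rintro ⟨j, hj, hj2, hj3⟩
      rcases Nat.lt_succ_iff_lt_or_eq.1 hj with h | h
      · exact ⟨j, h, hj2, hj3⟩
      · subst h
        exact absurd hk (Nat.not_even_iff_odd.2 hj2)
    · rintro ⟨j, hj, hj2, hj3⟩
      exact ⟨j, by omega, hj2, hj3⟩
  have hBo : ∀ k, Odd k → B (k + 1) = insert (π k) (B k) := by
    intro k hk
    ext p
    rw [hBmem, mem_insert, hBmem]
    constructor
    · rintro ⟨j, hj, hj2, hj3⟩
      rcases Nat.lt_succ_iff_lt_or_eq.1 hj with h | h
      · exact Or.inr ⟨j, h, hj2, hj3⟩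
      · subst h
        exact Or.inl hj3.symm
    · rintro (rfl | ⟨j, hj, hj2, hj3⟩)
      · exact ⟨k, by omega, hk, rfl⟩
      · exact ⟨j, by omega, hj2, hj3⟩
  have hfree : ∀ k p, p ∉ (List.range k).map π → p ∉ M k ∧ p ∉ B k := by
    intro k p hp
    rw [← evPts_union_odPts, mem_union, not_or] at hp
    exact hp
  have hfree' : ∀ k p, p ∉ M k → p ∉ B k → p ∉ (List.range k).map π := by
    intro k p h1 h2
    rw [← evPts_union_odPts, mem_union, not_or]
    exact ⟨h1, h2⟩
  have hex : ∀ k, k < Fintype.card V → ∃ y, y ∉ M k ∧ y ∉ B k := by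
    intro k hk
    by_contra hcon
    have h1 : ∀ y, y ∈ (List.range k).map π := by
      intro y
      by_contra hy
      exact hcon ⟨y, hfree k y hy⟩
    have h2 : Fintype.card V ≤ ((List.range k).map π).length := by
      calc Fintype.card V = (univ : Finset V).card := rfl
        _ ≤ ((List.range k).map π).toFinset.card :=
            card_le_card (fun x _ => List.mem_toFinset.mpr (h1 x))
        _ ≤ ((List.range k).map π).length := List.toFinset_card_le _
    rw [List.length_map, List.length_range] at h2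
    omega
  have key : ∀ k ≤ Fintype.card V, ((List.range k).map π).Nodup ∧ (Even k → I (M k) (B k)) ∧
      (Odd k → (∀ A ∈ 𝓕, ¬ A ⊆ M k) ∧ ((∃ y, y ∉ M k ∧ y ∉ B k) →
        ∃ y, y ∉ M k ∧ y ∉ B k ∧ I (M k) (insert y (B k)))) := by
    intro k
    induction k with
    | zero =>
      intro _
      have h1 : M 0 = ∅ := by
        ext p
        simp [hMmem]
      have h2 : B 0 = ∅ := by
        ext p
        simp [hBmem]
      refine ⟨by simp, fun _ => ?_, fun h => absurd h (by simp)⟩
      rw [h1, h2]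
      exact h0
    | succ k ih =>
      intro hk
      obtain ⟨i1, i2, i3⟩ := ih (by omega)
      have hnd : ∀ p, p ∉ (List.range k).map π → p = π k → ((List.range (k + 1)).map π).Nodup := by
        rintro p hp rfl
        rw [List.range_succ, List.map_append, List.nodup_append]
        refine ⟨i1, by simp, ?_⟩
        intro a ha b hb hab
        rw [List.map_cons, List.map_nil, List.mem_singleton] at hb
        subst hb
        rw [hab] at ha
        exact hp ha
      rcases Nat.even_or_odd k with he | ho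
      · have hx : π k ∉ (List.range k).map π := by
          rw [hπe k he]
          exact hσ _ i1 (by rw [List.length_map, List.length_range]; omega)
        obtain ⟨h1, h2⟩ := hfree k _ hx
        have h3 := hstep (M k) (B k) (i2 he) (π k) h1 h2
        refine ⟨hnd _ hx rfl, fun h => absurd h (Nat.not_even_iff_odd.2 he.add_one), fun _ => ?_⟩
        rw [hMe k he, hBe k he]
        exact h3
      · have h1 := (i3 ho).2 (hex k (by omega))
        have h2 : π k ∉ M k ∧ π k ∉ B k ∧ I (M k) (insert (π k) (B k)) := by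
          rw [hπo k ho, bReply, dif_pos h1]
          exact h1.choose_spec
        refine ⟨hnd _ (hfree' k _ h2.1 h2.2.1) rfl, fun _ => ?_,
          fun h => absurd h (Nat.not_odd_iff_even.2 ho.add_one)⟩
        rw [hMo k ho, hBo k ho]
        exact h2.2.2
  refine ⟨π, ⟨?_, fun k _ hk => hπe k hk⟩, ?_⟩
  · have h1 := (key _ le_rfl).1
    intro a ha b hb hab
    have h2 := List.inj_on_of_nodup_map h1
    exact h2 (List.mem_range.2 ha) (List.mem_range.2 hb) hab
  · intro A hA hcon
    have h1 : A ⊆ M (Fintype.card V) := fun p hp => (hMmem _ p).2 (hcon p hp)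
    obtain ⟨-, i2, i3⟩ := key _ le_rfl
    rcases Nat.even_or_odd (Fintype.card V) with he | ho
    · exact hf _ _ (i2 he) A hA h1
    · exact (i3 ho).1 A hA h1

theorem bridge {n d : ℕ} {𝓕 : Finset (Finset (Fin d → Fin n))}
    (hS : ∀ S, IsLine n d S → ∃ A ∈ 𝓕, (A : Set (Fin d → Fin n)) ⊆ S)
    {I : Finset (Fin d → Fin n) → Finset (Fin d → Fin n) → Prop} (h0 : I ∅ ∅)
    (hf : ∀ M Br, I M Br → ∀ A ∈ 𝓕, ¬ A ⊆ M)
    (hstep : ∀ M Br, I M Br → ∀ x, x ∉ M → x ∉ Br →
      (∀ A ∈ 𝓕, ¬ A ⊆ insert x M) ∧
      ((∃ y, y ∉ insert x M ∧ y ∉ Br) →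
        ∃ y, y ∉ insert x M ∧ y ∉ Br ∧ I (insert x M) (insert y Br))) :
    ¬ WeakWin n d := by
  rintro ⟨σ, hσ, h⟩
  obtain ⟨π, hπ, hA⟩ := play_exists h0 hf hstep hσ
  obtain ⟨S, hS1, hS2⟩ := h π hπ
  obtain ⟨A, hA1, hA2⟩ := hS S hS1
  exact hA A hA1 (fun p hp => hS2 p (hA2 hp))

end Pool.Agent.WL76
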