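import Pool.Agent.WL76.Templ

/-!
# Templates through a point
-/

namespace Pool.Agent.WL76

open Finset Pool.Agent.WW12

/-- at the time `j < n / 2` a template through `p` is determined by its fixed coordinates of
class `j` -/
theorem count {n d : ℕ} (p : Fin d → Fin n) (t : Fin n) (ht : t.val < n / 2) (f : ℕ) :
    (univ.filter fun τ : Fin d → Fin n ⊕ Bool => lp τ t = p ∧ fc τ t.val < f).card ≤
      ∑ k ∈ range f, d.choose k := by
  classical
  have hcl : cl t = t.val := by
    unfold cl
    omega
  have hrev : t ≠ Fin.rev t := by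
    intro h
    have h1 := congrArg Fin.val h
    rw [Fin.val_rev] at h1
    omega
  have h1 : ((range f).biUnion fun k => (univ : Finset (Fin d)).powersetCard k).card ≤
      ∑ k ∈ range f, d.choose k := by
    refine card_biUnion_le.trans (le_of_eq ?_)
    apply sum_congr rfl
    intro k _
    rw [card_powersetCard, card_univ, Fintype.card_fin]
  refine le_trans ?_ h1
  apply card_le_card_of_injOn
    (fun τ => univ.filter fun i : Fin d => ∃ a : Fin n, τ i = Sum.inl a ∧ cl a = t.val)
  · intro τ hτ
    obtain ⟨-, -, h2⟩ := mem_filter.1 (mem_coe.1 hτ)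
    rw [mem_coe, mem_biUnion]
    exact ⟨fc τ t.val, mem_range.2 h2, mem_powersetCard.2 ⟨subset_univ _, rfl⟩⟩
  · intro τ hτ τ' hτ' h
    obtain ⟨-, h2, -⟩ := mem_filter.1 (mem_coe.1 hτ)
    obtain ⟨-, h3, -⟩ := mem_filter.1 (mem_coe.1 hτ')
    have h4 : ∀ i, (∃ a : Fin n, τ i = Sum.inl a ∧ cl a = t.val) ↔
        ∃ a : Fin n, τ' i = Sum.inl a ∧ cl a = t.val := by
      intro i
      have h5 := Finset.ext_iff.1 h i
      simpa only [mem_filter, mem_univ, true_and] using h5
    funext i
    have e1 : ev (τ i) t = p i := congrFun h2 i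
    have e2 : ev (τ' i) t = p i := congrFun h3 i
    have h5 := h4 i
    rcases hi : τ i with a | b
    · rcases hi' : τ' i with a' | b'
      · rw [hi] at e1
        rw [hi'] at e2
        change a = p i at e1
        change a' = p i at e2
        rw [e1, e2]
      · exfalso
        rw [hi] at e1 h5
        rw [hi'] at e2 h5
        change a = p i at e1
        have h6 : cl a = t.val := by rw [e1, ← e2, cl_ev_inr, hcl]
        obtain ⟨a'', h7, -⟩ := h5.1 ⟨a, rfl, h6⟩
        cases h7
    · rcases hi' : τ' i with a' | b'
      · exfalso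
        rw [hi] at e1 h5
        rw [hi'] at e2 h5
        change a' = p i at e2
        have h6 : cl a' = t.val := by rw [e2, ← e1, cl_ev_inr, hcl]
        obtain ⟨a'', h7, -⟩ := h5.2 ⟨a', rfl, h6⟩
        cases h7
      · rw [hi] at e1
        rw [hi'] at e2
        rw [← e2] at e1
        cases b <;> cases b'
        · rfl
        · exact absurd e1 hrev
        · exact absurd e1.symm hrev
        · rfl

end Pool.Agent.WL76
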