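import Mathlib

/-!
# Breaker's strategy for almost disjoint families: definitions
-/

namespace Pool.Agent.WL76

open Finset

variable {V : Type} [Fintype V] [DecidableEq V]

/-! ### the big game -/

/-- potential of the family `𝒳`: `M` the big points of Maker, `D` the dead points -/
noncomputable def pot (𝒳 : Finset (Finset V)) (M D : Finset V) : ℝ :=
  ∑ X ∈ 𝒳 with Disjoint X D, (1 / 2 : ℝ) ^ (X \ M).card

/-- the part of the potential at `x` -/
noncomputable def degp (𝒳 : Finset (Finset V)) (M D : Finset V) (x : V) : ℝ :=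
  ∑ X ∈ 𝒳 with Disjoint X D ∧ x ∈ X, (1 / 2 : ℝ) ^ (X \ M).card

/-- the invariant of the big game -/
def BigOK (𝒳 : Finset (Finset V)) (M D : Finset V) : Prop :=
  pot 𝒳 M D < 1 ∧ ∀ x, x ∉ M → x ∉ D → pot 𝒳 M D + degp 𝒳 M D x < 1

/-! ### the small game -/

/-- the lines with at least `r` small points -/
def heavy (F : Finset (Finset V)) (r : ℕ) (S : Finset V) : Finset (Finset V) :=
  F.filter fun B => r ≤ (B ∩ S).card

/-- heavy lines with a common small point -/
def Adj (F : Finset (Finset V)) (r : ℕ) (S : Finset V) (B B' : Finset V) : Prop :=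
  B ∈ heavy F r S ∧ B' ∈ heavy F r S ∧ (B ∩ B' ∩ S).Nonempty

open Classical in
/-- the component of `B` -/
noncomputable def comp (F : Finset (Finset V)) (r : ℕ) (S B : Finset V) : Finset (Finset V) :=
  (heavy F r S).filter fun B' => Relation.ReflTransGen (Adj F r S) B B'

/-- weight of a line in the small game: `M` the small points of Maker, `Br` those of Breaker -/
noncomputable def w (M Br B : Finset V) : ℝ :=
  if Disjoint B Br then 2 ^ (B ∩ M).card else 0

/-- sum of the weights -/
noncomputable def sw (K : Finset (Finset V)) (M Br : Finset V) : ℝ := ∑ B ∈ K, w M Br B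

/-- sum of the weights at `y` -/
noncomputable def dw (K : Finset (Finset V)) (M Br : Finset V) (y : V) : ℝ :=
  ∑ B ∈ K with y ∈ B, w M Br B

/-- the invariant of the small game: `M₁`, `M` the big and the small points of Maker, `Br` the
points of Breaker -/
def SmallOK (F : Finset (Finset V)) (r : ℕ) (S M₁ M Br : Finset V) : Prop :=
  ∀ B ∈ heavy F r S,
    sw (comp F r S B) M Br ≤ 2 ^ (r + 1) * ((comp F r S B).card : ℝ) ∧
    ∀ y, y ∉ M₁ → y ∉ M → y ∉ Br →
      sw (comp F r S B) M Br + dw (comp F r S B) M Br y ≤ 2 ^ (r + 1) * ((comp F r S B).card : ℝ)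

/-! ### moving points -/

/-- every small point lies on a line almost all of whose points are big points of Maker -/
def OnE (F : Finset (Finset V)) (L : ℕ) (M₁ S : Finset V) : Prop :=
  ∀ p ∈ S, ∃ A ∈ F, p ∈ A ∧ A.card ≤ (A ∩ M₁).card + 2 * L

/-- nothing has to be moved -/
def Stable (F : Finset (Finset V)) (L : ℕ) (M₁ S Br : Finset V) : Prop :=
  ∀ A ∈ F, Disjoint A Br → L ≤ (A ∩ S).card ∨ L < (A \ (M₁ ∪ S)).card

/-! ### certificates -/

/-- the points of `U` and of the lines with more than half of their points in `U` -/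
def clo (F : Finset (Finset V)) (U : Finset V) : Finset V :=
  U ∪ (F.filter fun N => N.card < 2 * (N ∩ U).card).biUnion id

/-- one more line, which meets `Z`; a pair is (union of the lines, chosen points) -/
def child (F : Finset (Finset V)) (L : ℕ) (Z : Finset V) (P : Finset V × Finset V) :
    Finset (Finset V × Finset V) :=
  (F.filter fun N => (N ∩ Z).Nonempty ∧ 4 * (N ∩ P.1).card ≤ 3 * N.card).biUnion fun N =>
    ((N \ P.1).powerset.filter fun Y => (N \ P.1).card ≤ Y.card + 2 * L).image
      fun Y => (P.1 ∪ N, P.2 ∪ Y)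

/-- `k` more lines, one after the other, which meet `Z` -/
def childs (F : Finset (Finset V)) (L : ℕ) (Z : Finset V) :
    ℕ → Finset V × Finset V → Finset (Finset V × Finset V)
  | 0, P => {P}
  | k + 1, P => (childs F L Z k P).biUnion (child F L Z)

/-- the continuations -/
def next (F : Finset (Finset V)) (L t : ℕ) (P : Finset V × Finset V) :
    Finset (Finset V × Finset V) :=
  child F L (clo F P.1) P ∪
    ((F.filter fun B => (B ∩ clo F P.1).Nonempty).biUnion fun B => childs F L B t P) ∪
    ((F.filter fun B => 2 ≤ (B ∩ clo F P.1).card).biUnion fun B => child F L B P)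

/-- the certificates with `k` steps -/
def T (F : Finset (Finset V)) (L t : ℕ) : ℕ → Finset (Finset V × Finset V)
  | 0 => F.biUnion fun A =>
      (A.powerset.filter fun X => A.card ≤ X.card + 2 * L).image fun X => (A, X)
  | k + 1 => (T F L t k).biUnion (next F L t)

/-- the family of the big game -/
def cert (F : Finset (Finset V)) (L t s : ℕ) : Finset (Finset V) := (T F L t s).image Prod.snd

/-- total weight -/
noncomputable def wt (𝒯 : Finset (Finset V × Finset V)) : ℝ :=
  ∑ P ∈ 𝒯, (1 / 2 : ℝ) ^ P.2.card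

/-- different lines have at most one common point -/
def AlmostDisjoint (F : Finset (Finset V)) : Prop :=
  ∀ A ∈ F, ∀ B ∈ F, A ≠ B → (A ∩ B).card ≤ 1

/-- the factor of one more line -/
noncomputable def kc (m L W : ℕ) (δ : ℝ) (q : ℕ) : ℝ :=
  2 ^ (2 * L) * (m + 1) ^ (2 * L) * (2 * W * δ + W ^ 2 * (1 / 2 : ℝ) ^ q)

/-- the factor of one step -/
noncomputable def kn (m L W t : ℕ) (δ : ℝ) (q : ℕ) : ℝ :=
  kc m L W δ q + W * 2 ^ m * kc m L W δ q ^ t + W ^ 2 * kc m L W δ q

/-! ### parameters -/

/-- bound for the union -/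
def U₀ (K m : ℕ) : ℕ := 2048 * K ^ 3 * m ^ 2

/-- bound for the closure -/
def Wb (K m : ℕ) : ℕ := U₀ K m + U₀ K m ^ 2 * m

/-- the invariant of Breaker: `M` the points of Maker, `Br` those of Breaker, Maker to move -/
def Inv (F : Finset (Finset V)) (L t s : ℕ) (M Br : Finset V) : Prop :=
  ∃ M₁ S M₂ : Finset V, M = M₁ ∪ M₂ ∧ M₂ ⊆ S ∧ Disjoint M₁ S ∧ Disjoint M Br ∧
    BigOK (cert F L t s) M₁ (Br ∪ S) ∧ OnE F L M₁ S ∧ Stable F L M₁ S Br ∧
    SmallOK F (t + 2) S M₁ M₂ Br

end Pool.Agent.WL76
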