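import Pool.Agent.WL76.Line
import Pool.Agent.WL76.Count

/-!
# The family of the parts of the lines
-/

namespace Pool.Agent.WL76

open Finset Pool.Agent.WW12

/-- the parts of the lines -/
theorem family {n d : ℕ} (Lv : Finset ℕ) (fq g : ℕ → ℕ)
    (hlev : ∀ φ : ℕ → ℕ, ∑ j ∈ range (n / 2), φ j ≤ d →
      ∃ q ∈ Lv, g q ≤ (low n (fq q) φ).card) :
    ∃ 𝓕 : Finset (Finset (Fin d → Fin n)), AlmostDisjoint 𝓕 ∧
      (∀ A ∈ 𝓕, ∃ q ∈ Lv, A.card = 2 * g q) ∧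
      (∀ S, IsLine n d S → ∃ A ∈ 𝓕, (A : Set (Fin d → Fin n)) ⊆ S) ∧
      𝓕.card ≤ (n + 2) ^ d ∧
      ∀ p, ∑ A ∈ 𝓕 with p ∈ A, (1 / 2 : ℝ) ^ A.card ≤
        ∑ q ∈ Lv, (n : ℝ) * (∑ k ∈ range (fq q), (d.choose k : ℝ)) * (1 / 2) ^ (2 * g q) := by
  classical
  -- the level and the set of classes, as functions of the numbers of fixed coordinates
  have hJ : ∀ φ : ℕ → ℕ, ∃ (J : Finset ℕ) (q : ℕ), (∑ j ∈ range (n / 2), φ j ≤ d) →
      q ∈ Lv ∧ J ⊆ low n (fq q) φ ∧ J.card = g q := by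
    intro φ
    by_cases hφ : ∑ j ∈ range (n / 2), φ j ≤ d
    · obtain ⟨q, hq, hc⟩ := hlev φ hφ
      obtain ⟨J, hJ1, hJ2⟩ := exists_subset_card_eq hc
      exact ⟨J, q, fun _ => ⟨hq, hJ1, hJ2⟩⟩
    · exact ⟨∅, 0, fun h => absurd h hφ⟩
  choose J lv hJ using hJ
  obtain ⟨part, hpart⟩ : ∃ part : (Fin d → Fin n ⊕ Bool) → Finset (Fin d → Fin n),
      part = fun τ => subl (J (fc τ)) τ := ⟨_, rfl⟩
  have hp : ∀ τ, part τ = subl (J (fc τ)) τ := fun τ => by rw [hpart]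
  have hrev : ∀ τ, part (revT τ) = part τ := by
    intro τ
    rw [hp, hp, fc_revT, subl_revT]
  have hlow : ∀ τ : Fin d → Fin n ⊕ Bool, lv (fc τ) ∈ Lv ∧ J (fc τ) ⊆ low n (fq (lv (fc τ))) (fc τ) ∧
      (J (fc τ)).card = g (lv (fc τ)) := fun τ => hJ (fc τ) (sum_fc τ)
  have hcard : ∀ τ, Act τ → (part τ).card = 2 * g (lv (fc τ)) := by
    intro τ hτ
    obtain ⟨h1, h2, h3⟩ := hlow τ
    rw [hp, card_subl hτ (h2.trans (filter_subset _ _)), h3]
  obtain ⟨𝓕, h𝓕⟩ : ∃ 𝓕 : Finset (Finset (Fin d → Fin n)), 𝓕 = (univ.filter fun τ => Act τ).image part := ⟨_, rfl⟩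
  have hmem : ∀ A, A ∈ 𝓕 ↔ ∃ τ, Act τ ∧ part τ = A := by
    intro A
    rw [h𝓕, mem_image]
    simp only [mem_filter, mem_univ, true_and]
  refine ⟨𝓕, ?_, ?_, ?_, ?_, ?_⟩
  · -- almost disjoint
    intro A hA B hB hAB
    obtain ⟨τ, hτ, rfl⟩ := (hmem A).1 hA
    obtain ⟨τ', hτ', rfl⟩ := (hmem B).1 hB
    by_contra hcon
    push Not at hcon
    obtain ⟨a, ha, b, hb, hab⟩ := one_lt_card.1 hcon
    rw [mem_inter, hp, hp, subl, subl, mem_image, mem_image] at ha hb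
    obtain ⟨⟨s, -, hs⟩, s', -, hs'⟩ := ha
    obtain ⟨⟨t, -, ht⟩, t', -, ht'⟩ := hb
    have hst : s ≠ t := by
      rintro rfl
      exact hab (hs.symm.trans ht)
    rcases pair hτ hst (hs.trans hs'.symm) (ht.trans ht'.symm) with h | h
    · exact hAB (by rw [h])
    · exact hAB (by rw [h, hrev])
  · intro A hA
    obtain ⟨τ, hτ, rfl⟩ := (hmem A).1 hA
    exact ⟨lv (fc τ), (hlow τ).1, hcard τ hτ⟩
  · intro S hS
    obtain ⟨τ, hτ, rfl⟩ := exists_template hS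
    refine ⟨part τ, (hmem _).2 ⟨τ, hτ, rfl⟩, ?_⟩
    intro x hx
    rw [mem_coe, hp, subl, mem_image] at hx
    obtain ⟨t, -, rfl⟩ := hx
    exact ⟨t, rfl⟩
  · rw [h𝓕]
    refine card_image_le.trans ((card_filter_le _ _).trans (le_of_eq ?_))
    rw [card_univ, Fintype.card_fun, Fintype.card_fin, Fintype.card_sum, Fintype.card_fin, Fintype.card_bool]
  · intro p
    have h : ∀ A ∈ 𝓕.filter (fun A => p ∈ A), ∃ (q : ℕ) (t : Fin n) (τ : Fin d → Fin n ⊕ Bool), q ∈ Lv ∧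
        t.val < n / 2 ∧ lp τ t = p ∧ fc τ t.val < fq q ∧ part τ = A ∧ A.card = 2 * g q := by
      intro A hA
      obtain ⟨hA1, hA2⟩ := mem_filter.1 hA
      obtain ⟨τ, hτ, rfl⟩ := (hmem A).1 hA1
      obtain ⟨h1, h2, h3⟩ := hlow τ
      have hA3 := hA2
      rw [hp, subl, mem_image] at hA3
      obtain ⟨t, ht, htp⟩ := hA3
      have h4 := h2 (mem_filter.1 ht).2
      rw [low, mem_filter, mem_range] at h4
      obtain ⟨h5, h6⟩ := h4
      have hcl : cl t = t.val ∨ cl t = (Fin.rev t).val := by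
        rw [cl, Fin.val_rev]
        omega
      rcases hcl with hc | hc
      · rw [hc] at h5 h6
        exact ⟨lv (fc τ), t, τ, h1, h5, htp, h6, rfl, hcard τ hτ⟩
      · rw [hc] at h5 h6
        refine ⟨lv (fc τ), Fin.rev t, revT τ, h1, h5, ?_, ?_, hrev τ, hcard τ hτ⟩
        · rw [lp_revT, Fin.rev_rev, htp]
        · rw [fc_revT]
          exact h6
    choose qf tf τf c1 c2 c3 c4 c5 c6 using h
    obtain ⟨Ω, hΩ⟩ : ∃ Ω : Finset (Σ _ : ℕ, Σ _ : Fin n, (Fin d → Fin n ⊕ Bool)), Ω = Lv.sigma fun q =>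
        (univ.filter fun t : Fin n => t.val < n / 2).sigma fun t =>
          univ.filter fun τ : Fin d → Fin n ⊕ Bool => lp τ t = p ∧ fc τ t.val < fq q := ⟨_, rfl⟩
    obtain ⟨c, hc⟩ : ∃ c : {A // A ∈ 𝓕.filter (fun A => p ∈ A)} → (Σ _ : ℕ, Σ _ : Fin n, (Fin d → Fin n ⊕ Bool)),
        c = fun A => ⟨qf A.1 A.2, tf A.1 A.2, τf A.1 A.2⟩ := ⟨_, rfl⟩
    have hcinj : Function.Injective c := by
      intro A B hAB
      have h1 : τf A.1 A.2 = τf B.1 B.2 := by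
        have h2 : (c A).2.2 = (c B).2.2 := by rw [hAB]
        rw [hc] at h2
        exact h2
      apply Subtype.ext
      rw [← c5 A.1 A.2, ← c5 B.1 B.2, h1]
    have hcΩ : ∀ A, c A ∈ Ω := by
      intro A
      rw [hc, hΩ]
      simp only [mem_sigma, mem_filter, mem_univ, true_and]
      exact ⟨c1 A.1 A.2, c2 A.1 A.2, c3 A.1 A.2, c4 A.1 A.2⟩
    calc ∑ A ∈ 𝓕 with p ∈ A, (1 / 2 : ℝ) ^ A.card
        = ∑ A ∈ (𝓕.filter fun A => p ∈ A).attach, (1 / 2 : ℝ) ^ A.1.card :=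
          (sum_attach _ fun A : Finset (Fin d → Fin n) => (1 / 2 : ℝ) ^ A.card).symm
      _ = ∑ A ∈ (𝓕.filter fun A => p ∈ A).attach, (1 / 2 : ℝ) ^ (2 * g (c A).1) := by
          refine sum_congr rfl fun A _ => ?_
          rw [c6 A.1 A.2, hc]
      _ = ∑ x ∈ (𝓕.filter fun A => p ∈ A).attach.image c, (1 / 2 : ℝ) ^ (2 * g x.1) :=
          (sum_image (f := fun x : (Σ _ : ℕ, Σ _ : Fin n, (Fin d → Fin n ⊕ Bool)) => (1 / 2 : ℝ) ^ (2 * g x.1))
            (fun A _ B _ h => hcinj h)).symm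
      _ ≤ ∑ x ∈ Ω, (1 / 2 : ℝ) ^ (2 * g x.1) := by
          refine sum_le_sum_of_subset_of_nonneg ?_ fun _ _ _ => by positivity
          intro x hx
          obtain ⟨A, -, rfl⟩ := mem_image.1 hx
          exact hcΩ A
      _ ≤ _ := by
          rw [hΩ, sum_sigma]
          refine sum_le_sum fun q _ => ?_
          rw [sum_sigma]
          have h1 : ∀ t ∈ (univ.filter fun t : Fin n => t.val < n / 2),
              ∑ _τ ∈ (univ.filter fun τ : Fin d → Fin n ⊕ Bool => lp τ t = p ∧ fc τ t.val < fq q),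
                (1 / 2 : ℝ) ^ (2 * g q) ≤ (∑ k ∈ range (fq q), (d.choose k : ℝ)) * (1 / 2) ^ (2 * g q) := by
            intro t ht
            rw [sum_const, nsmul_eq_mul]
            refine mul_le_mul_of_nonneg_right ?_ (by positivity)
            have h2 := count p t (mem_filter.1 ht).2 (fq q)
            exact_mod_cast h2
          refine (sum_le_sum h1).trans ?_
          rw [sum_const, nsmul_eq_mul, ← mul_assoc]
          refine mul_le_mul_of_nonneg_right (mul_le_mul_of_nonneg_right ?_ (by positivity)) (by positivity)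
          have h3 : (univ.filter fun t : Fin n => t.val < n / 2).card ≤ n := by
            refine (card_filter_le _ _).trans (le_of_eq ?_)
            rw [card_univ, Fintype.card_fin]
          exact_mod_cast h3

end Pool.Agent.WL76
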