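import Pool.Agent.WL76.Templ

set_option autoImplicit false

namespace Pool.Agent.WL76

open Finset Filter Topology

/-- layer cake for the levels -/
theorem lv_sum (N R F : ℕ) (φ : ℕ → ℕ) :
    F * ∑ q ∈ Icc 1 R, ((range N).filter fun j => q * F ≤ φ j).card ≤ ∑ j ∈ range N, φ j := by
  have h1 : ∑ q ∈ Icc 1 R, ((range N).filter fun j => q * F ≤ φ j).card =
      ∑ j ∈ range N, ((Icc 1 R).filter fun q => q * F ≤ φ j).card := by
    simp only [Finset.card_filter]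
    exact Finset.sum_comm
  rw [h1, Finset.mul_sum]
  refine Finset.sum_le_sum fun j _ => ?_
  rcases Nat.eq_zero_or_pos F with hF | hF
  · simp [hF]
  · have h2 : ((Icc 1 R).filter fun q => q * F ≤ φ j) ⊆ Icc 1 (φ j / F) := by
      intro q hq
      rw [Finset.mem_filter, Finset.mem_Icc] at hq
      rw [Finset.mem_Icc]
      exact ⟨hq.1.1, (Nat.le_div_iff_mul_le hF).mpr hq.2⟩
    have h3 := Finset.card_le_card h2
    rw [Nat.card_Icc, Nat.add_sub_cancel] at h3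
    calc F * ((Icc 1 R).filter fun q => q * F ≤ φ j).card ≤ F * (φ j / F) :=
          Nat.mul_le_mul_left _ h3
      _ ≤ φ j := Nat.mul_div_le _ _

theorem lv_card (N q F : ℕ) (φ : ℕ → ℕ) :
    ((range N).filter fun j => q * F ≤ φ j).card +
      ((range N).filter fun j => φ j < q * F).card = N := by
  have h := Finset.card_filter_add_card_filter_not (s := range N) (fun j => q * F ≤ φ j)
  simp only [not_le, Finset.card_range] at h
  exact h

theorem lv_gauss (R : ℕ) : ∑ q ∈ Icc 1 R, ((q : ℝ) + 1) = R * (R + 3) / 2 := by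
  induction R with
  | zero => simp
  | succ R ih =>
    rw [Finset.sum_Icc_succ_top (by omega), ih]
    push_cast
    ring

/-- the analytic part -/
theorem lv_lim (ε : ℝ) (hε : 0 < ε) (Q : ℕ) (hQ4 : 4 ≤ Q) (hQ : 3 / ε ≤ Q) :
    ∀ᶠ n : ℕ in atTop, (Real.log 2 / 4 - ε) * (n : ℝ) ^ 2 / Real.log n <
      ((n : ℝ) / (Q * Real.logb 2 n) - 1) *
        (((Q : ℝ) - 2) * ((n : ℝ) * (Q - 1) / (4 * Q) - 1 / 2)) := by
  have hQ0 : (0 : ℝ) < Q := by positivity
  have hQ4' : (4 : ℝ) ≤ Q := by exact_mod_cast hQ4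
  have hl2 : 0 < Real.log 2 := Real.log_pos (by norm_num)
  have hl2' : Real.log 2 < 1 := by
    have := Real.log_two_lt_d9; linarith
  have t1 : Tendsto (fun n : ℕ => Real.log n / (n : ℝ)) atTop (𝓝 0) := by
    have h := (Real.isLittleO_log_id_atTop).tendsto_div_nhds_zero
    exact h.comp tendsto_natCast_atTop_atTop
  have t2 : Tendsto (fun n : ℕ => (1 : ℝ) / n) atTop (𝓝 0) := tendsto_one_div_atTop_nhds_zero_nat
  have t3 : Tendsto (fun n : ℕ => (Real.log 2 / Q - Real.log n / (n : ℝ)) *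
      (((Q : ℝ) - 2) * (((Q : ℝ) - 1) / (4 * Q) - (1 / (n : ℝ)) / 2))) atTop
      (𝓝 ((Real.log 2 / Q - 0) * (((Q : ℝ) - 2) * (((Q : ℝ) - 1) / (4 * Q) - 0 / 2)))) :=
    (tendsto_const_nhds.sub t1).mul
      (tendsto_const_nhds.mul (tendsto_const_nhds.sub (t2.div_const 2)))
  have hlim : Real.log 2 / 4 - ε <
      (Real.log 2 / Q - 0) * (((Q : ℝ) - 2) * (((Q : ℝ) - 1) / (4 * Q) - 0 / 2)) := by
    have h1 : 3 ≤ Q * ε := by
      rw [div_le_iff₀ hε] at hQ; exact hQ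
    have e : (Real.log 2 / Q - 0) * (((Q : ℝ) - 2) * (((Q : ℝ) - 1) / (4 * Q) - 0 / 2)) =
        Real.log 2 / 4 - Real.log 2 * (3 * Q - 2) / (4 * Q ^ 2) := by
      field_simp
      ring
    rw [e]
    have h2 : Real.log 2 * (3 * Q - 2) / (4 * Q ^ 2) < ε := by
      rw [div_lt_iff₀ (by positivity)]
      have h3 : Real.log 2 * (3 * Q - 2) < 1 * (3 * Q) := by
        have : 0 < 3 * (Q : ℝ) - 2 := by linarith
        nlinarith
      have h4 : (3 : ℝ) * Q ≤ (Q * ε) * Q := by nlinarith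
      nlinarith
    linarith
  have hev := t3.eventually_const_lt hlim
  filter_upwards [hev, eventually_ge_atTop 2] with n hn hn2
  have hn0 : (0 : ℝ) < n := by
    have : (2 : ℝ) ≤ n := by exact_mod_cast hn2
    linarith
  have hlog : 0 < Real.log n := Real.log_pos (by
    have : (2 : ℝ) ≤ n := by exact_mod_cast hn2
    linarith)
  have e1 : ((n : ℝ) / (Q * Real.logb 2 n) - 1) *
        (((Q : ℝ) - 2) * ((n : ℝ) * (Q - 1) / (4 * Q) - 1 / 2)) =
      ((Real.log 2 / Q - Real.log n / (n : ℝ)) *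
      (((Q : ℝ) - 2) * (((Q : ℝ) - 1) / (4 * Q) - (1 / (n : ℝ)) / 2))) *
        ((n : ℝ) ^ 2 / Real.log n) := by
    rw [Real.logb]
    field_simp
  rw [e1, mul_div_assoc]
  exact mul_lt_mul_of_pos_right hn (by positivity)

theorem levels (ε : ℝ) (hε : 0 < ε) : ∃ Q : ℕ, 4 ≤ Q ∧ ∃ n₀ : ℕ, ∀ n ≥ n₀, ∀ d : ℕ,
    (d : ℝ) ≤ (Real.log 2 / 4 - ε) * (n : ℝ) ^ 2 / Real.log n →
    ∀ φ : ℕ → ℕ, ∑ j ∈ range (n / 2), φ j ≤ d →
      ∃ q ∈ Icc 1 (Q - 2), gq Q n q ≤ (low n (q * F0 Q n) φ).card := by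
  obtain ⟨Q₁, hQ₁⟩ := exists_nat_ge (3 / ε)
  refine ⟨max 4 Q₁, le_max_left _ _, ?_⟩
  set Q := max 4 Q₁ with hQdef
  have hQ4 : 4 ≤ Q := le_max_left _ _
  have hQε : 3 / ε ≤ (Q : ℝ) := hQ₁.trans (by exact_mod_cast le_max_right _ _)
  have hQ0 : (0 : ℝ) < Q := by positivity
  have hQ4' : (4 : ℝ) ≤ Q := by exact_mod_cast hQ4
  obtain ⟨n₁, hn₁⟩ := eventually_atTop.mp (lv_lim ε hε Q hQ4 hQε)
  have tpos : ∀ᶠ n : ℕ in atTop, (1 : ℝ) ≤ (n : ℝ) / (Q * Real.logb 2 n) := by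
    have h := (Real.isLittleO_log_id_atTop).tendsto_div_nhds_zero
    have t1 : Tendsto (fun n : ℕ => Real.log n / (n : ℝ)) atTop (𝓝 0) :=
      h.comp tendsto_natCast_atTop_atTop
    have hl2 : 0 < Real.log 2 := Real.log_pos (by norm_num)
    have hev := t1.eventually_lt_const (u := Real.log 2 / Q) (by positivity)
    filter_upwards [hev, eventually_ge_atTop 2] with n hn hn2
    have hn2' : (2 : ℝ) ≤ n := by exact_mod_cast hn2
    have hn0 : (0 : ℝ) < n := by linarith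
    have hlog : 0 < Real.log n := Real.log_pos (by linarith)
    have hlb : 0 < Real.logb 2 n := Real.logb_pos (by norm_num) (by linarith)
    rw [le_div_iff₀ (by positivity), one_mul, Real.logb, mul_div_assoc']
    rw [div_le_iff₀ hl2]
    rw [div_lt_div_iff₀ hn0 hQ0] at hn
    linarith
  obtain ⟨n₂, hn₂⟩ := eventually_atTop.mp tpos
  refine ⟨max (max n₁ n₂) 8, fun n hn d hd φ hφ => ?_⟩
  have hn1 : n₁ ≤ n := (le_max_left _ _).trans ((le_max_left _ _).trans hn)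
  have hn2 : n₂ ≤ n := (le_max_right _ _).trans ((le_max_left _ _).trans hn)
  have hn8 : 8 ≤ n := (le_max_right _ _).trans hn
  by_contra hcon
  push Not at hcon
  have hlow : ∀ q ∈ Icc 1 (Q - 2),
      (((range (n / 2)).filter fun j => φ j < q * F0 Q n).card : ℝ) ≤
        ((q : ℝ) + 1) * n / (2 * Q) := by
    intro q hq
    have h := hcon q hq
    unfold gq low at h
    have h' : ((range (n / 2)).filter fun j => φ j < q * F0 Q n).card ≤ (q + 1) * n / (2 * Q) := by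
      omega
    calc (((range (n / 2)).filter fun j => φ j < q * F0 Q n).card : ℝ) ≤
          (((q + 1) * n / (2 * Q) : ℕ) : ℝ) := by exact_mod_cast h'
      _ ≤ (((q + 1) * n : ℕ) : ℝ) / ((2 * Q : ℕ) : ℝ) := Nat.cast_div_le
      _ = ((q : ℝ) + 1) * n / (2 * Q) := by push_cast; ring
  have hsum := lv_sum (n / 2) (Q - 2) (F0 Q n) φ
  have hR : ((Q - 2 : ℕ) : ℝ) = (Q : ℝ) - 2 := by
    rw [Nat.cast_sub (by omega)]; norm_num
  have hhalf : ((n : ℝ) - 1) / 2 ≤ ((n / 2 : ℕ) : ℝ) := by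
    have : n ≤ 2 * (n / 2) + 1 := by omega
    have : (n : ℝ) ≤ 2 * ((n / 2 : ℕ) : ℝ) + 1 := by exact_mod_cast this
    linarith
  have hS : ((Q : ℝ) - 2) * ((n : ℝ) * (Q - 1) / (4 * Q) - 1 / 2) ≤
      ((∑ q ∈ Icc 1 (Q - 2), ((range (n / 2)).filter fun j => q * F0 Q n ≤ φ j).card : ℕ) : ℝ) := by
    push_cast
    have h1 : ∀ q ∈ Icc 1 (Q - 2), ((n : ℝ) - 1) / 2 - ((q : ℝ) + 1) * (n / (2 * Q)) ≤
        (((range (n / 2)).filter fun j => q * F0 Q n ≤ φ j).card : ℝ) := by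
      intro q hq
      have h2 := lv_card (n / 2) q (F0 Q n) φ
      have h3 : (((range (n / 2)).filter fun j => q * F0 Q n ≤ φ j).card : ℝ) +
          (((range (n / 2)).filter fun j => φ j < q * F0 Q n).card : ℝ) = ((n / 2 : ℕ) : ℝ) := by
        exact_mod_cast h2
      have h4 := hlow q hq
      have h5 : ((q : ℝ) + 1) * n / (2 * Q) = ((q : ℝ) + 1) * (n / (2 * Q)) := by ring
      rw [h5] at h4
      linarith
    refine le_trans (le_of_eq ?_) (Finset.sum_le_sum h1)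
    rw [Finset.sum_sub_distrib, ← Finset.sum_mul, lv_gauss, Finset.sum_const, Nat.card_Icc,
      nsmul_eq_mul, Nat.add_sub_cancel, hR]
    field_simp
    ring
  have hF : (n : ℝ) / (Q * Real.logb 2 n) - 1 ≤ (F0 Q n : ℝ) := by
    unfold F0
    have := Nat.lt_floor_add_one ((n : ℝ) / (Q * Real.logb 2 n))
    linarith
  have hF' : 0 ≤ (n : ℝ) / (Q * Real.logb 2 n) - 1 := by
    have := hn₂ n hn2; linarith
  have hS0 : 0 ≤ ((Q : ℝ) - 2) * ((n : ℝ) * (Q - 1) / (4 * Q) - 1 / 2) := by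
    have hn8' : (8 : ℝ) ≤ n := by exact_mod_cast hn8
    have h1 : (1 : ℝ) / 2 ≤ (n : ℝ) * (Q - 1) / (4 * Q) := by
      rw [div_le_div_iff₀ (by norm_num) (by positivity)]
      nlinarith
    have h2 : (0 : ℝ) ≤ (Q : ℝ) - 2 := by linarith
    exact mul_nonneg h2 (by linarith)
  have hfin : ((n : ℝ) / (Q * Real.logb 2 n) - 1) *
        (((Q : ℝ) - 2) * ((n : ℝ) * (Q - 1) / (4 * Q) - 1 / 2)) ≤ (d : ℝ) := by
    calc ((n : ℝ) / (Q * Real.logb 2 n) - 1) *
        (((Q : ℝ) - 2) * ((n : ℝ) * (Q - 1) / (4 * Q) - 1 / 2)) ≤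
        (F0 Q n : ℝ) * ((∑ q ∈ Icc 1 (Q - 2),
          ((range (n / 2)).filter fun j => q * F0 Q n ≤ φ j).card : ℕ) : ℝ) :=
          mul_le_mul hF hS hS0 (by positivity)
      _ ≤ (d : ℝ) := by exact_mod_cast hsum.trans hφ
  have := hn₁ n hn1
  linarith

end Pool.Agent.WL76
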