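import Pool.Agent.WL76.Templ

/-!
# Templates of lines
-/

namespace Pool.Agent.WL76

open Finset Pool.Agent.WW12

theorem exists_template {n d : ℕ} {S : Set (Fin d → Fin n)} (h : IsLine n d S) :
    ∃ τ : Fin d → Fin n ⊕ Bool, Act τ ∧ S = Set.range (lp τ) := by
  classical
  obtain ⟨g, hg, ⟨i₀, hi₀⟩, rfl⟩ := h
  have h1 : ∀ i, ∃ u : Fin n ⊕ Bool, (∀ t, ev u t = g i t) ∧
      ((¬ ∃ a, ∀ t, g i t = a) → ∃ b, u = Sum.inr b) := by
    intro i
    rcases hg i with ⟨a, ha⟩ | h2 | h2
    · exact ⟨Sum.inl a, fun t => (ha t).symm, fun h3 => absurd ⟨a, ha⟩ h3⟩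
    · exact ⟨Sum.inr false, fun t => (h2 t).symm, fun _ => ⟨false, rfl⟩⟩
    · exact ⟨Sum.inr true, fun t => (h2 t).symm, fun _ => ⟨true, rfl⟩⟩
  choose τ hτ using h1
  refine ⟨τ, ⟨i₀, (hτ i₀).2 hi₀⟩, ?_⟩
  have h2 : (fun (t : Fin n) (i : Fin d) => g i t) = lp τ := by
    funext t i
    exact ((hτ i).1 t).symm
  rw [h2]

theorem ev_rv {n : ℕ} (u : Fin n ⊕ Bool) (t : Fin n) : ev (rv u) t = ev u (Fin.rev t) := by
  rcases u with a | b
  · rfl
  · cases b
    · rfl
    · exact (Fin.rev_rev t).symm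

theorem lp_revT {n d : ℕ} (τ : Fin d → Fin n ⊕ Bool) (t : Fin n) :
    lp (revT τ) t = lp τ (Fin.rev t) := by
  funext i
  exact ev_rv (τ i) t

theorem rv_rv {n : ℕ} (u : Fin n ⊕ Bool) : rv (rv u) = u := by
  rcases u with a | b
  · rfl
  · cases b <;> rfl

theorem revT_revT {n d : ℕ} (τ : Fin d → Fin n ⊕ Bool) : revT (revT τ) = τ := by
  funext i
  exact rv_rv (τ i)

theorem act_revT {n d : ℕ} {τ : Fin d → Fin n ⊕ Bool} (h : Act τ) : Act (revT τ) := by
  obtain ⟨i, b, hi⟩ := h
  exact ⟨i, !b, by rw [revT, hi]; rfl⟩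

theorem rv_eq_inl {n : ℕ} (u : Fin n ⊕ Bool) (a : Fin n) :
    rv u = Sum.inl a ↔ u = Sum.inl a := by
  rcases u with a' | b
  · rfl
  · constructor
    · intro h
      exact absurd h (by simp [rv])
    · intro h
      exact absurd h (by simp)

theorem fc_revT {n d : ℕ} (τ : Fin d → Fin n ⊕ Bool) : fc (revT τ) = fc τ := by
  funext j
  unfold fc
  congr 1
  ext i
  simp only [mem_filter, mem_univ, true_and, revT, rv_eq_inl]

theorem subl_revT {n d : ℕ} (J : Finset ℕ) (τ : Fin d → Fin n ⊕ Bool) :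
    subl J (revT τ) = subl J τ := by
  ext p
  unfold subl
  simp only [mem_image, mem_filter, mem_univ, true_and]
  constructor
  · rintro ⟨t, ht, rfl⟩
    exact ⟨Fin.rev t, by rw [cl_rev]; exact ht, (lp_revT τ t).symm⟩
  · rintro ⟨t, ht, rfl⟩
    exact ⟨Fin.rev t, by rw [cl_rev]; exact ht, by rw [lp_revT, Fin.rev_rev]⟩

theorem lp_injective {n d : ℕ} {τ : Fin d → Fin n ⊕ Bool} (h : Act τ) :
    Function.Injective (lp τ) := by
  obtain ⟨i, b, hi⟩ := h
  intro s t hst
  have h1 : ev (τ i) s = ev (τ i) t := congrFun hst i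
  rw [hi] at h1
  exact ev_inr_injective b h1

theorem pair {n d : ℕ} {τ τ' : Fin d → Fin n ⊕ Bool} (h : Act τ) {s t s' t' : Fin n}
    (hst : s ≠ t) (h1 : lp τ s = lp τ' s') (h2 : lp τ t = lp τ' t') :
    τ' = τ ∨ τ' = revT τ := by
  obtain ⟨i, b, hi⟩ := h
  have e1 : ev (τ i) s = ev (τ' i) s' := congrFun h1 i
  have e2 : ev (τ i) t = ev (τ' i) t' := congrFun h2 i
  rw [hi] at e1 e2
  have same : s' = s → t' = t → τ' = τ := by
    rintro rfl rfl
    funext j
    exact (ev_eq hst (congrFun h1 j) (congrFun h2 j)).symm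
  have opp : s' = Fin.rev s → t' = Fin.rev t → τ' = revT τ := by
    rintro rfl rfl
    rw [← lp_revT] at h1 h2
    have h3 : τ = revT τ' := by
      funext j
      exact ev_eq hst (congrFun h1 j) (congrFun h2 j)
    rw [h3, revT_revT]
  rcases hi' : τ' i with a | b'
  · exfalso
    rw [hi'] at e1 e2
    have e3 : ev (Sum.inr b) s = ev (Sum.inr b) t := by
      rw [e1, e2]
      rfl
    exact hst (ev_inr_injective b e3)
  · rw [hi'] at e1 e2
    cases b <;> cases b'
    · exact Or.inl (same e1.symm e2.symm)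
    · right
      apply opp
      · change s = Fin.rev s' at e1
        rw [e1, Fin.rev_rev]
      · change t = Fin.rev t' at e2
        rw [e2, Fin.rev_rev]
    · exact Or.inr (opp e1.symm e2.symm)
    · left
      exact same (Fin.rev_injective e1).symm (Fin.rev_injective e2).symm

theorem card_subl {n d : ℕ} {τ : Fin d → Fin n ⊕ Bool} (h : Act τ) {J : Finset ℕ}
    (hJ : J ⊆ range (n / 2)) : (subl J τ).card = 2 * J.card := by
  unfold subl
  rw [card_image_of_injective _ (lp_injective h)]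
  have hfib := card_eq_sum_card_fiberwise (s := univ.filter fun t : Fin n => cl t ∈ J)
    (f := fun t : Fin n => cl t) (t := J) (fun t ht => (mem_filter.1 (mem_coe.1 ht)).2)
  rw [hfib]
  rw [sum_const_nat (m := 2), mul_comm]
  intro j hj
  have hj2 : j < n / 2 := mem_range.1 (hJ hj)
  have h1 : j < n := by omega
  have h2 : n - 1 - j < n := by omega
  have h3 : ((univ.filter fun t : Fin n => cl t ∈ J).filter fun t => cl t = j) =
      {(⟨j, h1⟩ : Fin n), ⟨n - 1 - j, h2⟩} := by
    ext t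
    simp only [mem_filter, mem_univ, true_and, mem_insert, mem_singleton]
    have ht := t.isLt
    constructor
    · rintro ⟨-, h4⟩
      unfold cl at h4
      rcases le_total t.val (n - 1 - t.val) with h5 | h5
      · left
        rw [min_eq_left h5] at h4
        exact Fin.ext h4
      · right
        rw [min_eq_right h5] at h4
        apply Fin.ext
        change t.val = n - 1 - j
        omega
    · have h6 : cl t = j → cl t ∈ J ∧ cl t = j := fun h7 => ⟨by rw [h7]; exact hj, h7⟩
      rintro (rfl | rfl)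
      · apply h6
        change min j (n - 1 - j) = j
        omega
      · apply h6
        change min (n - 1 - j) (n - 1 - (n - 1 - j)) = j
        omega
  rw [h3, card_pair]
  intro h4
  have h5 := congrArg Fin.val h4
  change j = n - 1 - j at h5
  omega

theorem sum_fc {n d : ℕ} (τ : Fin d → Fin n ⊕ Bool) : ∑ j ∈ range (n / 2), fc τ j ≤ d := by
  unfold fc
  rw [← card_biUnion]
  · refine (card_le_univ _).trans ?_
    rw [Fintype.card_fin]
  · intro j _ j' _ hjj
    apply disjoint_left.2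
    intro i hi hi'
    obtain ⟨-, a, ha, haj⟩ := mem_filter.1 hi
    obtain ⟨-, a', ha', haj'⟩ := mem_filter.1 hi'
    rw [ha] at ha'
    rw [← Sum.inl.inj ha'] at haj'
    exact hjj (haj.symm.trans haj')

end Pool.Agent.WL76
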