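import Pool.Agent.WL76.Templ

/-!
# The numbers
-/

namespace Pool.Agent.WL76

open Finset Pool.Agent.WW12 Filter Topology

theorem gq_bounds (Q : ℕ) (hQ : 4 ≤ Q) : ∃ n₀ : ℕ, ∀ n ≥ n₀, ∀ q ∈ Icc 1 (Q - 2),
    2 * gq Q n q ≤ n ∧ n ≤ 8 * Q * (2 * gq Q n q) := by
  refine ⟨2 * Q, fun n hn q hq => ?_⟩
  rw [Finset.mem_Icc] at hq
  unfold gq
  set g : ℕ := (q + 1) * n / (2 * Q) with hg
  constructor
  · have h1 : g * (2 * Q) ≤ (q + 1) * n := Nat.div_mul_le_self _ _
    obtain ⟨P, rfl⟩ : ∃ P, Q = P + 1 := ⟨Q - 1, by omega⟩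
    have h2 : (q + 1) * n ≤ P * n := Nat.mul_le_mul_right _ (by omega)
    by_contra hc
    push Not at hc
    have h3 : n ≤ 2 * g + 1 := by omega
    have h4 : n * (P + 1) ≤ (2 * g + 1) * (P + 1) := Nat.mul_le_mul_right _ h3
    nlinarith
  · have h1 : (q + 1) * n < (g + 1) * (2 * Q) := by
      have := Nat.lt_div_mul_add (a := (q + 1) * n) (b := 2 * Q) (by omega)
      rw [← hg] at this
      nlinarith
    nlinarith

theorem choose_sum_le {D f : ℕ} (hf : 1 ≤ f) (hfD : f ≤ D) :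
    ∑ k ∈ range f, (D.choose k : ℝ) ≤ (Real.exp 1 * D / f) ^ f := by
  have hf0 : (0 : ℝ) < f := by exact_mod_cast hf
  have hD0 : (0 : ℝ) < D := by exact_mod_cast (lt_of_lt_of_le hf hfD)
  have hle : (f : ℝ) / D ≤ 1 := by
    rw [div_le_one hD0]
    exact_mod_cast hfD
  have hx0 : (0 : ℝ) ≤ (f : ℝ) / D := by positivity
  have h1 : (∑ k ∈ range f, (D.choose k : ℝ)) * ((f : ℝ) / D) ^ f ≤ (1 + (f : ℝ) / D) ^ D := by
    rw [Finset.sum_mul]
    calc ∑ k ∈ range f, (D.choose k : ℝ) * ((f : ℝ) / D) ^ f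
        ≤ ∑ k ∈ range f, ((f : ℝ) / D) ^ k * (D.choose k : ℝ) := by
          apply Finset.sum_le_sum
          intro k hk
          rw [mul_comm]
          apply mul_le_mul_of_nonneg_right _ (by positivity)
          exact pow_le_pow_of_le_one hx0 hle (Finset.mem_range.1 hk).le
      _ ≤ ∑ k ∈ range (D + 1), ((f : ℝ) / D) ^ k * (D.choose k : ℝ) := by
          apply Finset.sum_le_sum_of_subset_of_nonneg
          · intro k hk
            rw [mem_range] at *
            omega
          · intros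
            positivity
      _ = (1 + (f : ℝ) / D) ^ D := by
          rw [add_comm (1 : ℝ), add_pow]
          simp
  have h2 : (1 + (f : ℝ) / D) ^ D ≤ Real.exp f := by
    have h := Real.add_one_le_exp ((f : ℝ) / D)
    calc (1 + (f : ℝ) / D) ^ D ≤ (Real.exp ((f : ℝ) / D)) ^ D := by
          apply pow_le_pow_left₀ (by positivity)
          linarith
      _ = Real.exp f := by
          rw [← Real.exp_nat_mul]
          congr 1
          field_simp
  have h3 : (Real.exp 1 * D / f) ^ f * ((f : ℝ) / D) ^ f = Real.exp f := by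
    rw [← mul_pow]
    have h : Real.exp 1 * D / f * ((f : ℝ) / D) = Real.exp 1 := by field_simp
    rw [h, ← Real.exp_nat_mul, mul_one]
  have h4 : 0 < ((f : ℝ) / D) ^ f := by positivity
  exact le_of_mul_le_mul_right (by rw [h3]; exact h1.trans h2) h4

theorem nm_half_pow (m : ℕ) : (1 / 2 : ℝ) ^ m = Real.exp (-(m * Real.log 2)) := by
  rw [Real.exp_neg, mul_comm, Real.exp_mul, Real.exp_log two_pos, Real.rpow_natCast, one_div,
    inv_pow]

theorem degree_bound (Q : ℕ) (hQ : 4 ≤ Q) : ∃ n₀ : ℕ, ∀ n ≥ n₀, ∀ d : ℕ, d ≤ n ^ 2 →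
    ∑ q ∈ Icc 1 (Q - 2), (n : ℝ) * (∑ k ∈ range (q * F0 Q n), (d.choose k : ℝ)) *
      (1 / 2) ^ (2 * gq Q n q) ≤ (1 / 2 : ℝ) ^ (n / (8 * Q)) := by
  have hlog2 : 0 < Real.log 2 := Real.log_pos (by norm_num)
  have hlog21 : Real.log 2 < 1 := by
    have := Real.log_two_lt_d9
    linarith
  have hQ4 : (4 : ℝ) ≤ Q := by exact_mod_cast hQ
  have hQ0 : (0 : ℝ) < Q := by linarith
  set c : ℝ := 1 + Real.log (2 * Q / Real.log 2) with hc
  have hc1 : 1 ≤ c := by
    have : 0 ≤ Real.log (2 * Q / Real.log 2) := by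
      apply Real.log_nonneg
      rw [le_div_iff₀ hlog2]
      linarith
    linarith
  have c1 : ∀ᶠ n : ℕ in atTop, (1 : ℝ) ≤ Real.log n := tendsto_log_nat.eventually_ge_atTop 1
  have c2 : Tendsto (fun n : ℕ => Real.log n / n + Real.log Q / n +
      (c + Real.log (Real.log n)) / Real.log n) atTop (𝓝 0) := by
    have h1 : Tendsto (fun n : ℕ => c / Real.log n) atTop (𝓝 0) :=
      tendsto_log_nat.const_div_atTop _
    have h2 : Tendsto (fun n : ℕ => Real.log (Real.log n) / Real.log n) atTop (𝓝 0) :=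
      tendsto_log_div_self.comp tendsto_log_nat
    have h3 : Tendsto (fun n : ℕ => Real.log Q / (n : ℝ)) atTop (𝓝 0) :=
      tendsto_natCast_atTop_atTop.const_div_atTop _
    have h4 := (tendsto_log_div_nat.add h3).add (h1.add h2)
    simp only [add_zero] at h4
    refine h4.congr (fun n => ?_)
    rw [add_div c]
  have c2' := c2.eventually (gt_mem_nhds (show 0 < 7 / 8 * Real.log 2 / Q by positivity))
  have c3' := tendsto_log_div_nat.eventually
    (gt_mem_nhds (show 0 < Real.log 2 / (2 * Q) by positivity))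
  obtain ⟨n₀, hn₀⟩ := Filter.eventually_atTop.1
    ((c1.and c2').and (c3'.and (eventually_ge_atTop 3)))
  refine ⟨n₀, fun n hn d hd => ?_⟩
  obtain ⟨⟨h1, h2⟩, h3, h4⟩ := hn₀ n hn
  set L : ℝ := Real.log n with hL
  have hn3 : (3 : ℝ) ≤ n := by exact_mod_cast h4
  have hn0 : (0 : ℝ) < n := by linarith
  have hL0 : 0 < L := by linarith
  have hLL : 0 ≤ Real.log L := Real.log_nonneg h1
  set x : ℝ := n * Real.log 2 / (Q * L) with hx
  have hx0 : 0 < x := by positivity
  have hx2 : 2 ≤ x := by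
    rw [hx, le_div_iff₀ (by positivity)]
    rw [div_lt_div_iff₀ hn0 (by positivity)] at h3
    nlinarith
  have hF0 : F0 Q n = ⌊x⌋₊ := by
    unfold F0
    congr 1
    rw [hx, Real.logb, ← hL]
    field_simp
  have hF1 : (F0 Q n : ℝ) ≤ x := by
    rw [hF0]
    exact Nat.floor_le hx0.le
  have hF2 : x / 2 ≤ (F0 Q n : ℝ) := by
    rw [hF0]
    have := Nat.lt_floor_add_one x
    linarith
  have key : ∀ q ∈ Icc 1 (Q - 2), (n : ℝ) * (∑ k ∈ range (q * F0 Q n), (d.choose k : ℝ)) *
      (1 / 2) ^ (2 * gq Q n q) ≤ (1 / Q) * (1 / 2 : ℝ) ^ (n / (8 * Q)) := by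
    intro q hq
    rw [Finset.mem_Icc] at hq
    have hq1 : (1 : ℝ) ≤ q := by exact_mod_cast hq.1
    have hqQ : (q : ℝ) ≤ Q := by exact_mod_cast (show q ≤ Q by omega)
    set f : ℕ := q * F0 Q n with hf
    have hfc : (f : ℝ) = q * (F0 Q n : ℝ) := by rw [hf]; push_cast; ring
    have hf1 : x / 2 ≤ (f : ℝ) := by
      rw [hfc]
      nlinarith [hF2, hq1, hx0]
    have hf2 : (f : ℝ) ≤ q * x := by
      rw [hfc]
      gcongr
    have hfpos : (0 : ℝ) < f := by linarith
    have hf1' : 1 ≤ f := by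
      have : (1 : ℝ) ≤ f := by linarith
      exact_mod_cast this
    have hfn : (f : ℝ) ≤ n := by
      calc (f : ℝ) ≤ q * x := hf2
        _ ≤ Q * x := by gcongr
        _ = n * Real.log 2 / L := by rw [hx]; field_simp
        _ ≤ n := by
          rw [div_le_iff₀ hL0]
          nlinarith
    have hfn' : f ≤ n ^ 2 := by
      have h5 : f ≤ n := by exact_mod_cast hfn
      nlinarith
    have hS : ∑ k ∈ range f, (d.choose k : ℝ) ≤ (Real.exp 1 * (n ^ 2 : ℕ) / f) ^ f := by
      refine le_trans ?_ (choose_sum_le hf1' hfn')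
      apply Finset.sum_le_sum
      intro k _
      exact_mod_cast Nat.choose_le_choose k hd
    have hexp : (Real.exp 1 * (n ^ 2 : ℕ) / f) ^ f = Real.exp (f * (1 + 2 * L - Real.log f)) := by
      rw [Real.exp_nat_mul, Real.exp_sub, Real.exp_add, two_mul, Real.exp_add, hL, Real.exp_log hn0,
        Real.exp_log hfpos]
      congr 1
      push_cast
      ring
    have hg : ((q : ℝ) + 1) * n / Q ≤ ((2 * gq Q n q : ℕ) : ℝ) := by
      unfold gq
      have h5 := Nat.lt_div_mul_add (a := (q + 1) * n) (b := 2 * Q) (by omega)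
      have h6 : ((q : ℝ) + 1) * n < (((q + 1) * n / (2 * Q) : ℕ) : ℝ) * (2 * Q) + 2 * Q := by
        exact_mod_cast h5
      rw [div_le_iff₀ hQ0]
      push_cast
      linarith
    have hlogf : L - (c - 1) - Real.log L ≤ Real.log f := by
      have h5 : Real.log (x / 2) ≤ Real.log f := Real.log_le_log (by positivity) hf1
      have h6 : x / 2 = n / ((2 * Q / Real.log 2) * L) := by
        rw [hx]
        field_simp
      rw [h6, Real.log_div hn0.ne' (by positivity), Real.log_mul (by positivity) hL0.ne'] at h5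
      rw [hc]
      linarith
    have hY : (f : ℝ) * (1 + 2 * L - Real.log f) ≤ q * x * (L + c + Real.log L) := by
      calc (f : ℝ) * (1 + 2 * L - Real.log f) ≤ f * (L + c + Real.log L) := by
            apply mul_le_mul_of_nonneg_left _ hfpos.le
            linarith
        _ ≤ q * x * (L + c + Real.log L) := by
            apply mul_le_mul_of_nonneg_right hf2
            linarith
    have hqx : q * x * (L + c + Real.log L) ≤
        q * n * Real.log 2 / Q + n * ((c + Real.log L) / L) := by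
      have h5 : q * x * (L + c + Real.log L) = q * n * Real.log 2 / Q +
          (q * Real.log 2 / Q) * (n * ((c + Real.log L) / L)) := by
        rw [hx]
        field_simp
        ring
      rw [h5]
      have h6 : q * Real.log 2 / Q ≤ 1 := by
        rw [div_le_one hQ0]
        nlinarith
      have h7 : 0 ≤ n * ((c + Real.log L) / L) := by positivity
      nlinarith
    have hfin : Real.log Q + L + n * ((c + Real.log L) / L) ≤ 7 / 8 * Real.log 2 / Q * n := by
      have h5 := mul_le_mul_of_nonneg_right h2.le hn0.le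
      have h6 : (L / n + Real.log Q / n + (c + Real.log L) / L) * n =
          Real.log Q + L + n * ((c + Real.log L) / L) := by
        field_simp
        ring
      rw [h6] at h5
      exact h5
    have hm : ((n / (8 * Q) : ℕ) : ℝ) ≤ n / (8 * Q) := by
      have := @Nat.cast_div_le ℝ _ _ _ n (8 * Q)
      push_cast at this
      exact this
    have hA : L + f * (1 + 2 * L - Real.log f) - ((2 * gq Q n q : ℕ) : ℝ) * Real.log 2 ≤
        -Real.log Q - ((n / (8 * Q) : ℕ) : ℝ) * Real.log 2 := by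
      have h5 : ((q : ℝ) + 1) * n / Q * Real.log 2 ≤ ((2 * gq Q n q : ℕ) : ℝ) * Real.log 2 :=
        mul_le_mul_of_nonneg_right hg hlog2.le
      have h6 : ((n / (8 * Q) : ℕ) : ℝ) * Real.log 2 ≤ n / (8 * Q) * Real.log 2 :=
        mul_le_mul_of_nonneg_right hm hlog2.le
      have h7 : ((q : ℝ) + 1) * n / Q * Real.log 2 - q * n * Real.log 2 / Q =
          7 / 8 * Real.log 2 / Q * n + n / (8 * Q) * Real.log 2 := by
        field_simp
        ring
      linarith
    calc (n : ℝ) * (∑ k ∈ range f, (d.choose k : ℝ)) * (1 / 2) ^ (2 * gq Q n q)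
        ≤ n * Real.exp (f * (1 + 2 * L - Real.log f)) * (1 / 2) ^ (2 * gq Q n q) := by
          rw [hexp] at hS
          gcongr
      _ = Real.exp (L + f * (1 + 2 * L - Real.log f) -
            ((2 * gq Q n q : ℕ) : ℝ) * Real.log 2) := by
          rw [nm_half_pow, sub_eq_add_neg (L + _), Real.exp_add, Real.exp_add L, hL,
            Real.exp_log hn0]
      _ ≤ Real.exp (-Real.log Q - ((n / (8 * Q) : ℕ) : ℝ) * Real.log 2) := Real.exp_le_exp.2 hA
      _ = (1 / Q) * (1 / 2 : ℝ) ^ (n / (8 * Q)) := by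
          rw [nm_half_pow, sub_eq_add_neg, Real.exp_add, Real.exp_neg (Real.log Q),
            Real.exp_log hQ0, one_div]
  calc ∑ q ∈ Icc 1 (Q - 2), (n : ℝ) * (∑ k ∈ range (q * F0 Q n), (d.choose k : ℝ)) *
        (1 / 2) ^ (2 * gq Q n q)
      ≤ ∑ _q ∈ Icc 1 (Q - 2), (1 / Q) * (1 / 2 : ℝ) ^ (n / (8 * Q)) := Finset.sum_le_sum key
    _ = ((Q - 2 : ℕ) : ℝ) * ((1 / Q) * (1 / 2 : ℝ) ^ (n / (8 * Q))) := by
        rw [Finset.sum_const, Nat.card_Icc, nsmul_eq_mul, Nat.add_sub_cancel]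
    _ ≤ Q * ((1 / Q) * (1 / 2 : ℝ) ^ (n / (8 * Q))) := by
        apply mul_le_mul_of_nonneg_right _ (by positivity)
        exact_mod_cast Nat.sub_le Q 2
    _ = (1 / 2 : ℝ) ^ (n / (8 * Q)) := by
        field_simp

theorem size_bound (ε : ℝ) (hε : 0 < ε) : ∃ n₀ : ℕ, ∀ n ≥ n₀, ∀ d : ℕ,
    (d : ℝ) ≤ (Real.log 2 / 4 - ε) * (n : ℝ) ^ 2 / Real.log n →
      (n + 2) ^ d ≤ 2 ^ (n ^ 2) ∧ d ≤ n ^ 2 := by
  have hlog2 : 0 < Real.log 2 := Real.log_pos (by norm_num)
  have hlog21 : Real.log 2 < 1 := by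
    have := Real.log_two_lt_d9
    linarith
  have c1 : ∀ᶠ n : ℕ in atTop, (1 : ℝ) ≤ Real.log n := tendsto_log_nat.eventually_ge_atTop 1
  obtain ⟨n₀, hn₀⟩ := Filter.eventually_atTop.1 (c1.and (eventually_ge_atTop 3))
  refine ⟨n₀, fun n hn d hd => ?_⟩
  obtain ⟨h1, h2⟩ := hn₀ n hn
  set L : ℝ := Real.log n with hL
  have hn3 : (3 : ℝ) ≤ n := by exact_mod_cast h2
  have hn0 : (0 : ℝ) < n := by linarith
  have hL0 : 0 < L := by linarith
  have hdL : (d : ℝ) * L ≤ Real.log 2 / 4 * (n : ℝ) ^ 2 := by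
    rw [le_div_iff₀ hL0] at hd
    have : 0 ≤ ε * (n : ℝ) ^ 2 := by positivity
    linarith
  constructor
  · have h3 : Real.log (n + 2) ≤ 2 * L := by
      rw [hL, two_mul, ← Real.log_mul hn0.ne' hn0.ne']
      apply Real.log_le_log (by positivity)
      nlinarith
    have h4 : ((n : ℝ) + 2) ^ d ≤ 2 ^ (n ^ 2) := by
      rw [← Real.rpow_natCast, ← Real.rpow_natCast, Real.rpow_def_of_pos (by positivity),
        Real.rpow_def_of_pos two_pos]
      apply Real.exp_le_exp.2
      push_cast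
      calc Real.log (n + 2) * d ≤ 2 * L * d := by gcongr
        _ = 2 * (d * L) := by ring
        _ ≤ 2 * (Real.log 2 / 4 * (n : ℝ) ^ 2) := by linarith
        _ ≤ Real.log 2 * (n : ℝ) ^ 2 := by
          have : 0 ≤ Real.log 2 * (n : ℝ) ^ 2 := by positivity
          linarith
    exact_mod_cast h4
  · have h3 : (d : ℝ) ≤ (n : ℝ) ^ 2 := by
      calc (d : ℝ) = d * 1 := by ring
        _ ≤ d * L := by gcongr
        _ ≤ Real.log 2 / 4 * (n : ℝ) ^ 2 := hdL
        _ ≤ (n : ℝ) ^ 2 := by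
          have : 0 ≤ (n : ℝ) ^ 2 := by positivity
          nlinarith
    exact_mod_cast h3

end Pool.Agent.WL76
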