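import Pool.Agent.WL76.Abstract
import Pool.Agent.WL76.Bridge
import Pool.Agent.WL76.Family
import Pool.Agent.WL76.Levels
import Pool.Agent.WL76.Num

/-!
# No Weak Win for `d ≤ (log 2 / 4 - ε) n ^ 2 / log n`
-/

namespace Pool.Agent.WL76

open Finset Pool.Agent.WW12

/-- No Weak Win for `d ≤ (log 2 / 4 - ε) n ^ 2 / log n`. -/
theorem not_weakWin (ε : ℝ) (hε : 0 < ε) : ∃ n₀ : ℕ, ∀ n ≥ n₀, ∀ d : ℕ,
    (d : ℝ) ≤ (Real.log 2 / 4 - ε) * (n : ℝ) ^ 2 / Real.log n → ¬ WeakWin n d := by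
  obtain ⟨Q, hQ, n₁, h1⟩ := levels ε hε
  obtain ⟨n₂, h2⟩ := gq_bounds Q hQ
  obtain ⟨n₃, h3⟩ := degree_bound Q hQ
  obtain ⟨n₄, h4⟩ := size_bound ε hε
  obtain ⟨n₅, h5⟩ := abstract (8 * Q) (by omega)
  refine ⟨max n₁ (max n₂ (max n₃ (max n₄ n₅))), fun n hn d hd => ?_⟩
  have hn1 : n₁ ≤ n := le_trans (le_max_left _ _) hn
  have hn2 : n₂ ≤ n := le_trans (le_trans (le_max_left _ _) (le_max_right _ _)) hn
  have hn3 : n₃ ≤ n := le_trans (le_trans (le_trans (le_max_left _ _) (le_max_right _ _))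
    (le_max_right _ _)) hn
  have hn4 : n₄ ≤ n := le_trans (le_trans (le_trans (le_trans (le_max_left _ _)
    (le_max_right _ _)) (le_max_right _ _)) (le_max_right _ _)) hn
  have hn5 : n₅ ≤ n := le_trans (le_trans (le_trans (le_trans (le_max_right _ _)
    (le_max_right _ _)) (le_max_right _ _)) (le_max_right _ _)) hn
  obtain ⟨𝓕, had, hsz, hS, hcard, hdeg⟩ := family (n := n) (d := d) (Icc 1 (Q - 2))
    (fun q => q * F0 Q n) (gq Q n) (h1 n hn1 d hd)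
  obtain ⟨h41, h42⟩ := h4 n hn4 d hd
  have hm : ∀ A ∈ 𝓕, A.card ≤ n := by
    intro A hA
    obtain ⟨q, hq, hqA⟩ := hsz A hA
    rw [hqA]; exact (h2 n hn2 q hq).1
  have hK : ∀ A ∈ 𝓕, n ≤ 8 * Q * A.card := by
    intro A hA
    obtain ⟨q, hq, hqA⟩ := hsz A hA
    rw [hqA]; exact (h2 n hn2 q hq).2
  have hF : 𝓕.card ≤ 2 ^ (8 * Q * n ^ 2) :=
    hcard.trans (h41.trans (Nat.pow_le_pow_right (by norm_num)
      (Nat.le_mul_of_pos_left _ (by omega))))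
  obtain ⟨I, hI0, hIf, hIs⟩ := h5 n hn5 (Fin d → Fin n) 𝓕 had hm hK hF
    (fun p => (hdeg p).trans (h3 n hn3 d h42))
  exact bridge hS hI0 hIf hIs

end Pool.Agent.WL76
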