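import Pool.Agent.WL76.Two

/-!
# Almost disjoint families: sizes of the certificates
-/

namespace Pool.Agent.WL76

open Finset

variable {V : Type} [Fintype V] [DecidableEq V]

theorem mem_child {F : Finset (Finset V)} {L : ℕ} {Z : Finset V}
    {P Q : Finset V × Finset V} (hQ : Q ∈ child F L Z P) :
    ∃ N ∈ F, ∃ Y, Y ⊆ N \ P.1 ∧ Q = (P.1 ∪ N, P.2 ∪ Y) := by
  unfold child at hQ
  rw [mem_biUnion] at hQ
  obtain ⟨N, hN, hQ⟩ := hQ
  rw [mem_filter] at hN
  rw [mem_image] at hQ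
  obtain ⟨Y, hY, rfl⟩ := hQ
  rw [mem_filter, mem_powerset] at hY
  exact ⟨N, hN.1, Y, hY.1, rfl⟩

theorem child_sub {F : Finset (Finset V)} {m L : ℕ} (hm : ∀ A ∈ F, A.card ≤ m) {Z : Finset V}
    {P Q : Finset V × Finset V} (hP : P.2 ⊆ P.1) (hQ : Q ∈ child F L Z P) :
    Q.2 ⊆ Q.1 ∧ Q.1.card ≤ P.1.card + m ∧ P.1 ⊆ Q.1 := by
  obtain ⟨N, hN, Y, hY, rfl⟩ := mem_child hQ
  refine ⟨?_, ?_, ?_⟩
  · exact union_subset_union hP (hY.trans sdiff_subset)
  · have h1 := card_union_le P.1 N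
    have h2 := hm N hN
    show (P.1 ∪ N).card ≤ _
    omega
  · exact subset_union_left

theorem childs_sub {F : Finset (Finset V)} {m L : ℕ} (hm : ∀ A ∈ F, A.card ≤ m) {Z : Finset V}
    {P : Finset V × Finset V} (hP : P.2 ⊆ P.1) (k : ℕ) :
    ∀ Q ∈ childs F L Z k P, Q.2 ⊆ Q.1 ∧ Q.1.card ≤ P.1.card + k * m ∧ P.1 ⊆ Q.1 := by
  induction k with
  | zero =>
    intro Q hQ
    simp only [childs, mem_singleton] at hQ
    subst hQ
    exact ⟨hP, by omega, Subset.refl _⟩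
  | succ k ih =>
    intro Q hQ
    simp only [childs, mem_biUnion] at hQ
    obtain ⟨R, hR, hQ⟩ := hQ
    obtain ⟨h1, h2, h3⟩ := ih R hR
    obtain ⟨h4, h5, h6⟩ := child_sub hm h1 hQ
    refine ⟨h4, ?_, h3.trans h6⟩
    have : (k + 1) * m = k * m + m := by ring
    omega

theorem next_sub {F : Finset (Finset V)} {m L t : ℕ} (ht : 1 ≤ t) (hm : ∀ A ∈ F, A.card ≤ m)
    {P Q : Finset V × Finset V} (hP : P.2 ⊆ P.1) (hQ : Q ∈ next F L t P) :
    Q.2 ⊆ Q.1 ∧ Q.1.card ≤ P.1.card + t * m ∧ P.1 ⊆ Q.1 := by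
  have hmt : m ≤ t * m := Nat.le_mul_of_pos_left m ht
  unfold next at hQ
  rw [mem_union, mem_union, mem_biUnion, mem_biUnion] at hQ
  rcases hQ with (hQ | ⟨B, hB, hQ⟩) | ⟨B, hB, hQ⟩
  · obtain ⟨h1, h2, h3⟩ := child_sub hm hP hQ
    exact ⟨h1, by omega, h3⟩
  · exact childs_sub hm hP t Q hQ
  · obtain ⟨h1, h2, h3⟩ := child_sub hm hP hQ
    exact ⟨h1, by omega, h3⟩

theorem T_sub {F : Finset (Finset V)} {m L t k : ℕ} (ht : 1 ≤ t) (hm : ∀ A ∈ F, A.card ≤ m)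
    {P : Finset V × Finset V} (hP : P ∈ T F L t k) :
    P.2 ⊆ P.1 ∧ P.1.card ≤ (1 + k * t) * m := by
  induction k generalizing P with
  | zero =>
    simp only [T, mem_biUnion, mem_image, mem_filter, mem_powerset] at hP
    obtain ⟨A, hA, X, hX, rfl⟩ := hP
    refine ⟨hX.1, ?_⟩
    have := hm A hA
    simpa using this
  | succ k ih =>
    simp only [T, mem_biUnion] at hP
    obtain ⟨R, hR, hP⟩ := hP
    obtain ⟨h1, h2⟩ := ih hR
    obtain ⟨h3, h4, h5⟩ := next_sub ht hm h1 hP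
    refine ⟨h3, h4.trans ?_⟩
    have : (1 + (k + 1) * t) * m = (1 + k * t) * m + t * m := by ring
    omega

theorem clo_card {F : Finset (Finset V)} (had : AlmostDisjoint F) {m : ℕ}
    (hm : ∀ A ∈ F, A.card ≤ m) (h2 : ∀ A ∈ F, 2 ≤ A.card) (U : Finset V) :
    (clo F U).card ≤ U.card + U.card ^ 2 * m := by
  unfold clo
  refine (card_union_le _ _).trans ?_
  have h1 : ((F.filter fun N => N.card < 2 * (N ∩ U).card).biUnion id).card ≤
      (F.filter fun N => N.card < 2 * (N ∩ U).card).card * m := by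
    apply card_biUnion_le_card_mul
    intro N hN
    rw [mem_filter] at hN
    exact hm N hN.1
  have h3 : (F.filter fun N => N.card < 2 * (N ∩ U).card).card ≤ U.card ^ 2 := by
    refine le_trans (card_le_card ?_) (card_two had U)
    intro N hN
    rw [mem_filter] at hN ⊢
    have := h2 N hN.1
    exact ⟨hN.1, by omega⟩
  have h4 := Nat.mul_le_mul_right m h3
  omega

end Pool.Agent.WL76
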