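import Pool.Agent.WW12.Asymp
import Pool.Agent.WL76.Defs

/-!
# Templates of lines and their parts in few classes: definitions
-/

namespace Pool.Agent.WL76

open Finset Pool.Agent.WW12

/-- the point of the line with the template `τ` at the time `t` -/
def lp {n d : ℕ} (τ : Fin d → Fin n ⊕ Bool) (t : Fin n) : Fin d → Fin n := fun i => ev (τ i) t

/-- some coordinate is not constant -/
def Act {n d : ℕ} (τ : Fin d → Fin n ⊕ Bool) : Prop := ∃ i b, τ i = Sum.inr b

/-- reversed template at one coordinate -/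
def rv {n : ℕ} : Fin n ⊕ Bool → Fin n ⊕ Bool
  | Sum.inl a => Sum.inl a
  | Sum.inr b => Sum.inr (!b)

/-- reversed template -/
def revT {n d : ℕ} (τ : Fin d → Fin n ⊕ Bool) : Fin d → Fin n ⊕ Bool := fun i => rv (τ i)

/-- number of the fixed coordinates of class `j` -/
def fc {n d : ℕ} (τ : Fin d → Fin n ⊕ Bool) (j : ℕ) : ℕ :=
  (univ.filter fun i : Fin d => ∃ a : Fin n, τ i = Sum.inl a ∧ cl a = j).card

/-- the classes with fewer than `Fq` fixed coordinates -/
def low (n Fq : ℕ) (φ : ℕ → ℕ) : Finset ℕ := (range (n / 2)).filter fun j => φ j < Fq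

/-- the points of the line at the times of the classes in `J` -/
def subl {n d : ℕ} (J : Finset ℕ) (τ : Fin d → Fin n ⊕ Bool) : Finset (Fin d → Fin n) :=
  (univ.filter fun t : Fin n => cl t ∈ J).image (lp τ)

/-- half of the size of the part of a line used at level `q` -/
def gq (Q n q : ℕ) : ℕ := (q + 1) * n / (2 * Q) + 1

/-- unit of the levels -/
noncomputable def F0 (Q n : ℕ) : ℕ := ⌊(n : ℝ) / (Q * Real.logb 2 n)⌋₊

end Pool.Agent.WL76
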